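import Mathlib

/-!
From a quadratic tail bound to a lower bound for the mean of a logarithm.
-/

set_option autoImplicit false

namespace Pool.Agent.Q327

open Finset

lemma le_sum_ind (J : ℕ) (u : ℝ) (hu : u ≤ J) :
    u ≤ ∑ j ∈ range J, if (j : ℝ) < u then (1 : ℝ) else 0 := by
  induction J with
  | zero => simpa using hu
  | succ J ih =>
    rw [sum_range_succ]
    by_cases h : u ≤ J
    · have h1 := ih h
      split_ifs
      · linarith
      · linarith
    · push Not at h
      rw [if_pos h]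
      have h2 : ∑ j ∈ range J, (if (j : ℝ) < u then (1 : ℝ) else 0) = J := by
        rw [Finset.sum_congr rfl (g := fun _ => (1 : ℝ))]
        · simp
        · intro j hj
          rw [mem_range] at hj
          have : (j : ℝ) < J := by exact_mod_cast hj
          rw [if_pos (by linarith)]
      rw [h2]
      push_cast at hu
      exact hu

lemma geom_le (J : ℕ) : ∑ j ∈ range J, ((1 : ℝ) / 4) ^ (j + 1) ≤ 1 / 3 := by
  have h : ∑ j ∈ range J, ((1 : ℝ) / 4) ^ (j + 1) = (1 / 3) * (1 - (1 / 4) ^ J) := by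
    induction J with
    | zero => simp
    | succ J ih => rw [sum_range_succ, ih]; ring
  rw [h]
  have : (0 : ℝ) ≤ (1 / 4) ^ J := by positivity
  linarith

/-- If `Y` is a function on a set of size at most `Q` such that `Y ≥ 0` and for every `j ≥ 1` at most
`C Q 4^{-j}` elements have `Y < t - j`, then the mean of `Y` is at least `t - (1 + C/3)`. -/
theorem mean_ge {ι : Type*} (S : Finset ι) (Q t C : ℝ) (hQ : 0 ≤ Q)
    (hS : (S.card : ℝ) = Q) (Y : ι → ℝ)
    (hY : ∀ a ∈ S, 0 ≤ Y a) (hC : 0 ≤ C)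
    (tail : ∀ j : ℕ, ((S.filter (fun a => Y a < t - (j + 1 : ℕ))).card : ℝ) ≤
      C * Q * (1 / 4) ^ (j + 1)) :
    Q * (t - (1 + C / 3)) ≤ ∑ a ∈ S, Y a := by
  obtain ⟨J, hJ⟩ := exists_nat_ge t
  have h1 : ∑ a ∈ S, (t - Y a) ≤
      ∑ a ∈ S, ∑ j ∈ range (J + 1), (if (j : ℝ) < t - Y a then (1 : ℝ) else 0) := by
    refine sum_le_sum fun a ha => le_sum_ind _ _ ?_
    have := hY a ha
    push_cast
    linarith
  rw [sum_comm] at h1
  have h2 : ∀ j : ℕ, ∑ a ∈ S, (if (j : ℝ) < t - Y a then (1 : ℝ) else 0) =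
      ((S.filter (fun a => Y a < t - (j : ℕ))).card : ℝ) := by
    intro j
    rw [← sum_filter]
    simp only [sum_const, nsmul_eq_mul, mul_one]
    congr 2
    apply filter_congr
    intro a _
    constructor <;> intro h <;> linarith
  rw [sum_range_succ'] at h1
  simp only [h2] at h1
  have h3 : ∑ j ∈ range J, ((S.filter (fun a => Y a < t - (j + 1 : ℕ))).card : ℝ) ≤
      C * Q * (1 / 3) := by
    refine (sum_le_sum fun j _ => tail j).trans ?_
    rw [← mul_sum]
    exact mul_le_mul_of_nonneg_left (geom_le J) (by positivity)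
  have h4 : ((S.filter (fun a => Y a < t - ((0 : ℕ) : ℝ))).card : ℝ) ≤ Q := by
    rw [← hS]
    exact_mod_cast card_filter_le _ _
  have h5 : ∑ a ∈ S, (t - Y a) = Q * t - ∑ a ∈ S, Y a := by
    rw [sum_sub_distrib]
    simp [hS]
  rw [h5] at h1
  nlinarith

end Pool.Agent.Q327
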