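import Pool.Agent.Q327.KMachines

set_option autoImplicit false

namespace Pool.Agent.Q327.KM

open Nat.Partrec (Code)
open Nat.Partrec.Code

/-- the string `1^k` -/
def ones (k : ℕ) : List Bool := (List.range k).map (fun _ => true)

lemma ones_length (k : ℕ) : (ones k).length = k := by simp [ones]

lemma ones_inj : Function.Injective ones := by
  intro a b h
  have := congrArg List.length h
  rwa [ones_length, ones_length] at this

lemma ones_primrec : Primrec ones :=
  Primrec.list_map Primrec.list_range (Primrec.const true).to₂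

/-- the numerical value of a string -/
def val (u : List Bool) : ℕ := u.foldl (fun a b => 2 * a + b.toNat) 0

lemma toNat_primrec : Primrec Bool.toNat := Primrec.dom_finite _

lemma val_primrec : Primrec val := by
  have h : Primrec₂ (fun (_ : List Bool) (s : ℕ × Bool) => 2 * s.1 + s.2.toNat) :=
    Primrec.nat_add.comp (Primrec.nat_mul.comp (Primrec.const 2) (Primrec.fst.comp Primrec.snd))
      (toNat_primrec.comp (Primrec.snd.comp Primrec.snd))
  exact Primrec.list_foldl Primrec.id (Primrec.const 0) h

lemma exists_val (L : ℕ) : ∀ w < 2 ^ L, ∃ u : List Bool, u.length = L ∧ val u = w := by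
  induction L with
  | zero => intro w hw; exact ⟨[], rfl, by simp at hw; simp [val, hw]⟩
  | succ L ih =>
    intro w hw
    obtain ⟨u, hu, hv⟩ := ih (w / 2) (by rw [pow_succ] at hw; omega)
    refine ⟨u ++ [decide (w % 2 = 1)], by simp [hu], ?_⟩
    unfold val at *
    rw [List.foldl_append, hv]
    simp only [List.foldl_cons, List.foldl_nil]
    by_cases h : w % 2 = 1
    · simp [h]; omega
    · simp [h]; omega

/-! ### The settling times -/

/-- a code for the universal machine with condition `0` -/
lemma exists_e0 : ∃ c : Code, ∀ p : List Bool,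
    eval c (Encodable.encode p) = (univCond p 0).map Encodable.encode := by
  have h : Partrec (fun p : List Bool => univCond p 0) :=
    Partrec.comp univCond_partrec (Computable.pair Computable.id (Computable.const 0))
  obtain ⟨c, hc⟩ := exists_code.mp h
  refine ⟨c, fun a => ?_⟩
  rw [hc]
  simp

/-- a code for the universal machine with condition `0` -/
noncomputable def e0 : Code := Classical.choose exists_e0

lemma e0_spec (p : List Bool) :
    eval e0 (Encodable.encode p) = (univCond p 0).map Encodable.encode :=
  Classical.choose_spec exists_e0 p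

/-- `a` is a program of length less than `m` which outputs `1^k` within `z` steps -/
noncomputable def good (a : ℕ) (y : ℕ × ℕ × ℕ) : Bool :=
  ((Encodable.decode (α := List Bool) a).map (fun p => decide (p.length < y.2.1) &&
    decide (evaln y.1 e0 (Encodable.encode p) = some (Encodable.encode (ones y.2.2))))).getD false

lemma good_iff {a : ℕ} {y : ℕ × ℕ × ℕ} : good a y = true ↔
    ∃ p : List Bool, Encodable.decode (α := List Bool) a = some p ∧ p.length < y.2.1 ∧
      evaln y.1 e0 (Encodable.encode p) = some (Encodable.encode (ones y.2.2)) := by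
  unfold good
  cases h : Encodable.decode (α := List Bool) a with
  | none => simp
  | some p => simp

lemma good_primrec : Primrec₂ good := by
  unfold good
  refine Primrec.option_getD.comp (Primrec.option_map (Primrec.decode.comp Primrec.fst) ?_)
    (Primrec.const false)
  refine Primrec.and.comp ?_ ?_
  · exact (Primrec.nat_lt.comp (Primrec.list_length.comp Primrec.snd)
      (Primrec.fst.comp (Primrec.snd.comp (Primrec.snd.comp Primrec.fst)))).decide
  · refine (Primrec.eq.comp ?_ ?_).decide
    · exact primrec_evaln.comp (Primrec.pair (Primrec.pair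
        (Primrec.fst.comp (Primrec.snd.comp Primrec.fst)) (Primrec.const e0))
        (Primrec.encode.comp Primrec.snd))
    · exact Primrec.option_some.comp (Primrec.encode.comp (ones_primrec.comp
        (Primrec.snd.comp (Primrec.snd.comp (Primrec.snd.comp Primrec.fst)))))

/-- `1^k` is found to have a program of length less than `m` within `z` steps -/
def low (z m k : ℕ) : Prop := ∃ a < z, good a (z, m, k) = true

lemma low_mono {z z' m k : ℕ} (h : z ≤ z') (hl : low z m k) : low z' m k := by
  obtain ⟨a, ha, hg⟩ := hl
  rw [good_iff] at hg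
  obtain ⟨p, hp, hp2, hp3⟩ := hg
  refine ⟨a, by omega, ?_⟩
  rw [good_iff]
  exact ⟨p, hp, hp2, evaln_mono h hp3⟩

lemma exists_low_iff {m k : ℕ} : (∃ z, low z m k) ↔
    ∃ p : List Bool, p.length < m ∧ ones k ∈ univCond p 0 := by
  constructor
  · rintro ⟨z, a, ha, hg⟩
    rw [good_iff] at hg
    obtain ⟨p, hp, hp2, hp3⟩ := hg
    refine ⟨p, hp2, ?_⟩
    have h1 := evaln_sound hp3
    rw [e0_spec, Part.mem_map_iff] at h1
    obtain ⟨x, hx, hx2⟩ := h1
    rwa [Encodable.encode_injective hx2] at hx
  · rintro ⟨p, hp, hx⟩
    have h1 : Encodable.encode (ones k) ∈ eval e0 (Encodable.encode p) := by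
      rw [e0_spec]; exact Part.mem_map _ hx
    obtain ⟨z, hz⟩ := evaln_complete.mp h1
    refine ⟨max z (Encodable.encode p + 1), Encodable.encode p, by omega, ?_⟩
    rw [good_iff]
    exact ⟨p, Encodable.encodek p, hp, evaln_mono (le_max_left _ _) hz⟩

/-- the strings of length less than `m` -/
lemma card_short (m : ℕ) : ∃ s : Finset (List Bool), (∀ p : List Bool, p.length < m → p ∈ s) ∧
    s.card < 2 ^ m := by
  induction m with
  | zero => exact ⟨∅, fun p hp => by omega, by simp⟩
  | succ m ih =>
    obtain ⟨s, hs, hc⟩ := ih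
    classical
    refine ⟨s ∪ (Finset.univ : Finset (List.Vector Bool m)).image (fun v => v.toList), ?_, ?_⟩
    · intro p hp
      rw [Finset.mem_union]
      rcases Nat.lt_succ_iff_lt_or_eq.mp hp with h | h
      · exact Or.inl (hs p h)
      · right
        rw [Finset.mem_image]
        exact ⟨⟨p, h⟩, Finset.mem_univ _, rfl⟩
    · have h1 := Finset.card_union_le s
        ((Finset.univ : Finset (List.Vector Bool m)).image (fun v => v.toList))
      have h2 : ((Finset.univ : Finset (List.Vector Bool m)).image (fun v => v.toList)).card ≤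
          2 ^ m := by
        refine Finset.card_image_le.trans ?_
        rw [Finset.card_univ, card_vector, Fintype.card_bool]
      rw [pow_succ]
      omega

lemma exists_not_low (m : ℕ) : ∃ k < 2 ^ m, ∀ z, ¬ low z m k := by
  by_contra hcon
  push Not at hcon
  obtain ⟨s, hs, hc⟩ := card_short m
  have h1 : ∀ k ∈ Finset.range (2 ^ m), ∃ p : List Bool, p.length < m ∧ ones k ∈ univCond p 0 := by
    intro k hk
    rw [Finset.mem_range] at hk
    exact exists_low_iff.mp (hcon k hk)
  choose! f hf1 hf2 using h1
  have h2 : (Finset.range (2 ^ m)).card ≤ s.card := by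
    apply Finset.card_le_card_of_injOn f
    · intro k hk
      exact hs _ (hf1 k hk)
    · intro k hk k' hk' h
      have e1 := hf2 k hk
      have e2 := hf2 k' hk'
      rw [h] at e1
      exact ones_inj (Part.mem_unique e1 e2)
  rw [Finset.card_range] at h2
  omega

open Classical in
/-- the least `k` for which `1^k` is not found to have a program of length less than `2L` -/
noncomputable def F (L z : ℕ) : ℕ :=
  Nat.find (p := fun k => ¬ low z (2 * L) k)
    (by obtain ⟨k, -, hk⟩ := exists_not_low (2 * L); exact ⟨k, hk z⟩)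

lemma F_spec (L z : ℕ) : ¬ low z (2 * L) (F L z) := by
  classical
  exact Nat.find_spec (p := fun k => ¬ low z (2 * L) k) _

lemma F_min {L z k : ℕ} (h : k < F L z) : low z (2 * L) k := by
  classical
  by_contra hcon
  exact Nat.find_min (p := fun k => ¬ low z (2 * L) k) _ h hcon

open Classical in
/-- the least `k` for which `1^k` has no program of length less than `2L` -/
noncomputable def kinf (L : ℕ) : ℕ :=
  Nat.find (p := fun k => ∀ z, ¬ low z (2 * L) k)
    (by obtain ⟨k, -, hk⟩ := exists_not_low (2 * L); exact ⟨k, hk⟩)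

lemma kinf_spec (L z : ℕ) : ¬ low z (2 * L) (kinf L) := by
  classical
  exact Nat.find_spec (p := fun k => ∀ z, ¬ low z (2 * L) k) _ z

lemma kinf_min {L k : ℕ} (h : k < kinf L) : ∃ z, low z (2 * L) k := by
  classical
  have := Nat.find_min (p := fun k => ∀ z, ¬ low z (2 * L) k) _ h
  push Not at this
  exact this

lemma kinf_lt (L : ℕ) : kinf L < 2 ^ L * 2 ^ L := by
  classical
  obtain ⟨k, hk, hk2⟩ := exists_not_low (2 * L)
  have h1 : kinf L ≤ k := Nat.find_min' (p := fun k => ∀ z, ¬ low z (2 * L) k) _ hk2
  rw [← pow_add, ← two_mul]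
  omega

lemma F_mono {L z z' : ℕ} (h : z ≤ z') : F L z ≤ F L z' := by
  by_contra hcon
  push Not at hcon
  exact F_spec L z' (low_mono h (F_min hcon))

lemma F_le_kinf (L z : ℕ) : F L z ≤ kinf L := by
  by_contra hcon
  push Not at hcon
  exact kinf_spec L z (F_min hcon)

lemma exists_settle (L : ℕ) : ∃ t0, ∀ t, t0 ≤ t → F L t = kinf L := by
  have h1 : ∀ K, K ≤ kinf L → ∃ t0, ∀ k < K, low t0 (2 * L) k := by
    intro K
    induction K with
    | zero => intro _; exact ⟨0, fun k hk => by omega⟩
    | succ K ih =>
      intro hK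
      obtain ⟨t0, h0⟩ := ih (by omega)
      obtain ⟨t1, h1⟩ := kinf_min (L := L) (k := K) (by omega)
      refine ⟨max t0 t1, fun k hk => ?_⟩
      rcases Nat.lt_succ_iff_lt_or_eq.mp hk with h | h
      · exact low_mono (le_max_left _ _) (h0 k h)
      · subst h; exact low_mono (le_max_right _ _) h1
  obtain ⟨t0, h0⟩ := h1 (kinf L) le_rfl
  refine ⟨t0, fun t ht => le_antisymm (F_le_kinf L t) ?_⟩
  by_contra hcon
  push Not at hcon
  exact F_spec L t (low_mono ht (h0 _ hcon))

lemma F_computable : Computable₂ F := by
  have h1 : PrimrecRel (fun (z : ℕ) (y : ℕ × ℕ × ℕ) => ∃ a < z, good a y = true) := by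
    have h2 : PrimrecRel (fun (a : ℕ) (y : ℕ × ℕ × ℕ) => good a y = true) :=
      (Primrec.eq.comp good_primrec (Primrec.const true))
    exact (h2.exists_mem_list.comp (Primrec.list_range.comp Primrec.fst) Primrec.snd).of_eq (by simp)
  classical
  have h3 : Primrec (fun a : (ℕ × ℕ) × ℕ => decide (¬ low a.1.2 (2 * a.1.1) a.2)) := by
    have h4 : PrimrecPred (fun a : (ℕ × ℕ) × ℕ => low a.1.2 (2 * a.1.1) a.2) := by
      have hz : Primrec (fun a : (ℕ × ℕ) × ℕ => a.1.2) := Primrec.snd.comp Primrec.fst
      have hm : Primrec (fun a : (ℕ × ℕ) × ℕ => 2 * a.1.1) :=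
        Primrec.nat_mul.comp (Primrec.const 2) (Primrec.fst.comp Primrec.fst)
      exact h1.comp hz (Primrec.pair hz (Primrec.pair hm Primrec.snd))
    exact h4.not.decide
  have h5 : Partrec (fun a : ℕ × ℕ => Nat.rfind (fun k =>
      (Part.some (decide (¬ low a.2 (2 * a.1) k)) : Part Bool))) := by
    apply Partrec.rfind
    exact (h3.to_comp : Computable _)
  refine Partrec.of_eq h5 (fun a => ?_)
  refine Part.eq_some_iff.mpr ?_
  refine Nat.mem_rfind.mpr ?_
  refine ⟨?_, fun {m} hm => ?_⟩
  · rw [Part.mem_some_iff]
    exact (decide_eq_true (F_spec a.1 a.2)).symm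
  · rw [Part.mem_some_iff]
    exact (decide_eq_false (not_not.mpr (F_min hm))).symm

end Pool.Agent.Q327.KM
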