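import Pool.Agent.Q327.KCounter

set_option autoImplicit false

namespace Pool.Agent.Q327.KM

open Nat.Partrec (Code)
open Nat.Partrec.Code

lemma pow_primrec : Primrec (fun n : ℕ => 2 ^ n) := by
  have h : Primrec (fun n : ℕ => Nat.rec (motive := fun _ => ℕ) 1 (fun _ r => 2 * r) n) :=
    Primrec.nat_rec₁ (f := fun _ r => 2 * r) 1
      (Primrec.nat_mul.comp (Primrec.const 2) Primrec.snd)
  refine h.of_eq (fun n => ?_)
  induction n with
  | zero => rfl
  | succ n ih => simp only [pow_succ]; rw [← ih]; ring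

/-- the test of the first stage -/
noncomputable def test1 (p : List Bool) (t : ℕ) : Bool :=
  decide (p.tail.length ≤ t) &&
    (!p.headI || decide (F p.tail.length t / 2 ^ p.tail.length = val p.tail))

/-- the least `t ≥ L` such that the first bit of the program is `0` or `F L t / 2^L` is the value of
the program, where `L` is the length of the program without its first bit -/
noncomputable def stage1 (p : List Bool) : Part ℕ :=
  Nat.rfind (fun t => (Part.some (test1 p t) : Part Bool))

/-- the first element `≥ t` of the oracle -/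
def stage2 (t : ℕ) (α : List Bool) : Part ℕ :=
  Nat.rfind (fun z => (Part.some (decide (t ≤ z) && α.getD z false) : Part Bool))

/-- the output -/
noncomputable def outp (p : List Bool) (z : ℕ) : List Bool :=
  ones (cond p.headI (F p.tail.length z)
    (F p.tail.length z / 2 ^ p.tail.length * 2 ^ p.tail.length + val p.tail))

/-- the machine -/
noncomputable def machRun (p α : List Bool) : Part (List Bool) :=
  (stage1 p).bind (fun t => (stage2 t α).map (outp p))

lemma headI_primrec : Primrec (fun p : List Bool => p.headI) :=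
  (Primrec.option_getD.comp Primrec.list_head? (Primrec.const false)).of_eq
    (fun p => by cases p <;> rfl)

lemma test1_computable : Computable₂ test1 := by
  have hL : Primrec (fun a : List Bool × ℕ => a.1.tail.length) :=
    Primrec.list_length.comp (Primrec.list_tail.comp Primrec.fst)
  have hF : Computable (fun a : List Bool × ℕ => F a.1.tail.length a.2) :=
    F_computable.comp hL.to_comp Computable.snd
  have hdiv : Computable (fun a : List Bool × ℕ => F a.1.tail.length a.2 / 2 ^ a.1.tail.length) :=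
    (Primrec.nat_div.to_comp : Computable₂ _).comp hF (pow_primrec.comp hL).to_comp
  have hval : Computable (fun a : List Bool × ℕ => val a.1.tail) :=
    (val_primrec.comp (Primrec.list_tail.comp Primrec.fst)).to_comp
  have heq : Computable (fun a : List Bool × ℕ =>
      decide (F a.1.tail.length a.2 / 2 ^ a.1.tail.length = val a.1.tail)) :=
    ((Primrec.eq (α := ℕ)).decide.to_comp : Computable₂ _).comp hdiv hval
  have hle : Computable (fun a : List Bool × ℕ => decide (a.1.tail.length ≤ a.2)) :=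
    ((Primrec.nat_le.comp hL Primrec.snd).decide).to_comp
  have hh : Computable (fun a : List Bool × ℕ => !a.1.headI) :=
    (Primrec.not.comp (headI_primrec.comp Primrec.fst)).to_comp
  exact (Primrec.and.to_comp : Computable₂ _).comp hle
    ((Primrec.or.to_comp : Computable₂ _).comp hh heq)

lemma stage1_partrec : Partrec stage1 := by
  have h : Partrec₂ (fun (p : List Bool) (t : ℕ) => (Part.some (test1 p t) : Part Bool)) :=
    test1_computable
  exact Partrec.rfind h

lemma stage2_partrec : Partrec₂ stage2 := by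
  have h1 : Primrec (fun a : (ℕ × List Bool) × ℕ => (decide (a.1.1 ≤ a.2) && a.1.2.getD a.2 false)) :=
    Primrec.and.comp ((Primrec.nat_le.comp (Primrec.fst.comp Primrec.fst) Primrec.snd).decide)
      ((Primrec.list_getD false).comp (Primrec.snd.comp Primrec.fst) Primrec.snd)
  have h : Partrec₂ (fun (a : ℕ × List Bool) (z : ℕ) =>
      (Part.some (decide (a.1 ≤ z) && a.2.getD z false) : Part Bool)) :=
    (h1.to_comp : Computable _)
  exact Partrec.rfind h

lemma outp_computable : Computable₂ outp := by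
  have hL : Primrec (fun a : List Bool × ℕ => a.1.tail.length) :=
    Primrec.list_length.comp (Primrec.list_tail.comp Primrec.fst)
  have hF : Computable (fun a : List Bool × ℕ => F a.1.tail.length a.2) :=
    F_computable.comp hL.to_comp Computable.snd
  have hpow : Computable (fun a : List Bool × ℕ => 2 ^ a.1.tail.length) :=
    (pow_primrec.comp hL).to_comp
  have hdiv : Computable (fun a : List Bool × ℕ => F a.1.tail.length a.2 / 2 ^ a.1.tail.length) :=
    (Primrec.nat_div.to_comp : Computable₂ _).comp hF hpow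
  have hval : Computable (fun a : List Bool × ℕ => val a.1.tail) :=
    (val_primrec.comp (Primrec.list_tail.comp Primrec.fst)).to_comp
  have hmul : Computable (fun a : List Bool × ℕ => F a.1.tail.length a.2 / 2 ^ a.1.tail.length *
      2 ^ a.1.tail.length) :=
    (Primrec.nat_mul.to_comp : Computable₂ _).comp hdiv hpow
  have hadd : Computable (fun a : List Bool × ℕ => F a.1.tail.length a.2 / 2 ^ a.1.tail.length *
      2 ^ a.1.tail.length + val a.1.tail) :=
    (Primrec.nat_add.to_comp : Computable₂ _).comp hmul hval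
  have hh : Computable (fun a : List Bool × ℕ => a.1.headI) :=
    (headI_primrec.comp Primrec.fst).to_comp
  exact ones_primrec.to_comp.comp (Computable.cond hh hF hadd)

lemma machRun_partrec : Partrec₂ machRun := by
  have h1 : Partrec (fun a : List Bool × List Bool => stage1 a.1) :=
    stage1_partrec.comp Computable.fst
  refine Partrec.bind h1 ?_
  have h2 : Partrec (fun a : (List Bool × List Bool) × ℕ => stage2 a.2 a.1.2) :=
    stage2_partrec.comp Computable.snd (Computable.snd.comp Computable.fst)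
  refine Partrec.map h2 ?_
  exact outp_computable.comp (Computable.fst.comp (Computable.fst.comp Computable.fst))
    Computable.snd

lemma mem_stage1 {p : List Bool} {t : ℕ} : t ∈ stage1 p ↔
    test1 p t = true ∧ ∀ s < t, test1 p s = false := by
  unfold stage1
  rw [Nat.mem_rfind]
  constructor
  · rintro ⟨h1, h2⟩
    refine ⟨((Part.mem_some_iff).mp h1).symm, fun s hs => ((Part.mem_some_iff).mp (h2 hs)).symm⟩
  · rintro ⟨h1, h2⟩
    exact ⟨Part.mem_some_iff.mpr h1.symm, fun {s} hs => Part.mem_some_iff.mpr (h2 s hs).symm⟩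

lemma mem_stage2 {t z : ℕ} {α : List Bool} : z ∈ stage2 t α ↔
    (t ≤ z ∧ α.getD z false = true) ∧ ∀ s < z, ¬ (t ≤ s ∧ α.getD s false = true) := by
  unfold stage2
  rw [Nat.mem_rfind]
  constructor
  · rintro ⟨h1, h2⟩
    refine ⟨by simpa using ((Part.mem_some_iff).mp h1).symm, fun s hs => ?_⟩
    have := ((Part.mem_some_iff).mp (h2 hs)).symm
    intro h3
    rw [Bool.and_eq_false_iff] at this
    rcases this with h | h
    · simp at h; omega
    · rw [h3.2] at h; cases h
  · rintro ⟨h1, h2⟩
    refine ⟨Part.mem_some_iff.mpr (by simpa using h1), fun {s} hs => Part.mem_some_iff.mpr ?_⟩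
    symm
    rw [Bool.eq_false_iff]
    intro h3
    exact h2 s hs (by simpa using h3)

lemma getD_prefix {α β : List Bool} (h : α <+: β) {i : ℕ} (hi : i < α.length) :
    β.getD i false = α.getD i false := by
  obtain ⟨γ, rfl⟩ := h
  rw [List.getD_eq_getElem?_getD, List.getD_eq_getElem?_getD, List.getElem?_append_left hi]

lemma stage2_mono {t z : ℕ} {α β : List Bool} (h : α <+: β) (hz : z ∈ stage2 t α) :
    z ∈ stage2 t β := by
  rw [mem_stage2] at hz ⊢
  obtain ⟨⟨h1, h2⟩, h3⟩ := hz
  have hzl : z < α.length := by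
    by_contra hcon
    push Not at hcon
    rw [List.getD_eq_getElem?_getD, List.getElem?_eq_none hcon] at h2
    simp at h2
  refine ⟨⟨h1, by rw [getD_prefix h hzl]; exact h2⟩, fun s hs h4 => h3 s hs ⟨h4.1, ?_⟩⟩
  rw [← getD_prefix h (by omega)]
  exact h4.2

/-- the machine -/
noncomputable def mach : OracleMachine where
  run := machRun
  partrec := machRun_partrec
  mono := by
    intro p α β x hx h
    unfold machRun at hx ⊢
    rw [Part.mem_bind_iff] at hx ⊢
    obtain ⟨t, ht, hx⟩ := hx
    rw [Part.mem_map_iff] at hx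
    obtain ⟨z, hz, rfl⟩ := hx
    exact ⟨t, ht, Part.mem_map _ (stage2_mono h hz)⟩

lemma exists_first {X : Set ℕ} (hX : X.Infinite) (t : ℕ) :
    ∃ z ∈ X, t ≤ z ∧ z ∈ stage2 t (initSeg X (z + 1)) := by
  classical
  have hex : ∃ z, z ∈ X ∧ t ≤ z := by
    obtain ⟨z, hz, hz2⟩ := hX.exists_gt t
    exact ⟨z, hz, hz2.le⟩
  refine ⟨Nat.find hex, (Nat.find_spec hex).1, (Nat.find_spec hex).2, ?_⟩
  rw [mem_stage2]
  refine ⟨⟨(Nat.find_spec hex).2, ?_⟩, fun s hs h => ?_⟩
  · rw [initSeg_getD _ _ _ (Nat.lt_succ_self _)]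
    exact decide_eq_true (Nat.find_spec hex).1
  · rw [initSeg_getD _ _ _ (by omega)] at h
    exact Nat.find_min hex hs ⟨of_decide_eq_true h.2, h.1⟩

lemma exists_times (L : ℕ) : ∃ t1 t2, L ≤ t1 ∧ t1 < t2 ∧ F L t1 / 2 ^ L = kinf L / 2 ^ L ∧
    (∀ t, L ≤ t → t < t1 → F L t / 2 ^ L ≠ kinf L / 2 ^ L) ∧ ∀ t, t2 ≤ t → F L t = kinf L := by
  classical
  obtain ⟨t0, h0⟩ := exists_settle L
  have hex : ∃ t, L ≤ t ∧ F L t / 2 ^ L = kinf L / 2 ^ L :=
    ⟨max L t0, le_max_left _ _, by rw [h0 _ (le_max_right _ _)]⟩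
  refine ⟨Nat.find hex, max t0 (Nat.find hex + 1), (Nat.find_spec hex).1, by omega,
    (Nat.find_spec hex).2, fun t ht ht2 h => Nat.find_min hex ht2 ⟨ht, h⟩,
    fun t ht => h0 t (by omega)⟩

/-- the family of the infinite sets contained in `A` or in its complement -/
def RT (A : Set ℕ) : Set (Set ℕ) := {X | X.Infinite ∧ (X ⊆ A ∨ X ⊆ Aᶜ)}

lemma RT_nonempty (A : Set ℕ) : (RT A).Nonempty := by
  by_cases h : A.Infinite
  · exact ⟨A, h, Or.inl subset_rfl⟩
  · refine ⟨Aᶜ, ?_, Or.inr subset_rfl⟩
    rw [Set.not_infinite] at h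
    exact h.infinite_compl

theorem exists_set : ∃ (A : Set ℕ) (Ls : ℕ → ℕ), (∀ i, i ≤ Ls i) ∧
    ∀ (i : ℕ), ∀ X ∈ RT A, ∃ p : List Bool, p.length = Ls i + 1 ∧
      mach.Out X p (ones (kinf (Ls i))) := by
  choose T1 T2 hT1 hT2 hT3 hT4 hT5 using exists_times
  set E : ℕ → ℕ := fun i => Nat.rec 0 (fun _ e => T2 (e + 1)) i with hE
  have hEs : ∀ i, E (i + 1) = T2 (E i + 1) := fun i => rfl
  have hElt : ∀ i, E i + 1 < E (i + 1) := by
    intro i
    rw [hEs]
    exact (hT1 _).trans_lt (hT2 _)
  have hEmono : Monotone E := monotone_nat_of_le_succ (fun i => by have := hElt i; omega)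
  have hEi : ∀ i, i ≤ E i := by
    intro i
    induction i with
    | zero => exact Nat.zero_le _
    | succ i ih => have := hElt i; omega
  set A : Set ℕ := {x | ∃ i, T1 (E i + 1) ≤ x ∧ x < T2 (E i + 1)} with hA
  refine ⟨A, fun i => E i + 1, fun i => by have := hEi i; simp only; omega, ?_⟩
  rintro i X ⟨hX, hsub⟩
  have hkl := kinf_lt (E i + 1)
  set L := E i + 1 with hL
  rcases hsub with hsub | hsub
  · -- `X ⊆ A`
    obtain ⟨u, hu, hv⟩ := exists_val L (kinf L % 2 ^ L) (Nat.mod_lt _ (by positivity))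
    refine ⟨false :: u, by simp [hu, hL], ?_⟩
    obtain ⟨z, hzX, hLz, hz⟩ := exists_first hX L
    refine ⟨z + 1, ?_⟩
    have hst : L ∈ stage1 (false :: u) := by
      rw [mem_stage1]
      unfold test1
      simp only [List.tail_cons, List.headI_cons, hu]
      refine ⟨by simp, fun s hs => ?_⟩
      have : ¬ L ≤ s := by omega
      simp [this]
    obtain ⟨j, hj1, hj2⟩ := hsub hzX
    have hji : i ≤ j := by
      by_contra hcon
      push Not at hcon
      have h1 : E (j + 1) ≤ E i := hEmono hcon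
      have h2 : z < E (j + 1) := hj2
      omega
    have hzT : T1 L ≤ z := by
      rcases hji.eq_or_lt with h | h
      · subst h; exact hj1
      · have h1 : T2 L ≤ E j := hEmono h
        have h2 : E j + 1 ≤ T1 (E j + 1) := hT1 (E j + 1)
        have h3 : T1 L < T2 L := hT2 L
        have h4 : T1 (E j + 1) ≤ z := hj1
        omega
    have hdiv : F L z / 2 ^ L = kinf L / 2 ^ L := by
      apply le_antisymm
      · exact Nat.div_le_div_right (F_le_kinf L z)
      · rw [← hT3 L]
        exact Nat.div_le_div_right (F_mono hzT)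
    have hout : outp (false :: u) z = ones (kinf L) := by
      unfold outp
      simp only [List.tail_cons, List.headI_cons, hu, cond_false, hdiv, hv]
      rw [Nat.div_add_mod']
    change ones (kinf L) ∈ machRun (false :: u) (initSeg X (z + 1))
    rw [← hout]
    exact Part.mem_bind_iff.mpr ⟨L, hst, Part.mem_map _ hz⟩
  · -- `X ⊆ Aᶜ`
    obtain ⟨u, hu, hv⟩ := exists_val L (kinf L / 2 ^ L) (by
      rw [Nat.div_lt_iff_lt_mul (by positivity)]; exact hkl)
    refine ⟨true :: u, by simp [hu, hL], ?_⟩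
    obtain ⟨z, hzX, hLz, hz⟩ := exists_first hX (T1 L)
    refine ⟨z + 1, ?_⟩
    have hst : T1 L ∈ stage1 (true :: u) := by
      rw [mem_stage1]
      unfold test1
      simp only [List.tail_cons, List.headI_cons, hu, hv]
      refine ⟨by simp [hT1 L, hT3 L], fun s hs => ?_⟩
      by_cases h : L ≤ s
      · have := hT4 L s h hs
        simp [this]
      · simp [h]
    have hzT : T2 L ≤ z := by
      by_contra hcon
      push Not at hcon
      exact hsub hzX ⟨i, hLz, hcon⟩
    have hout : outp (true :: u) z = ones (kinf L) := by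
      unfold outp
      simp only [List.tail_cons, List.headI_cons, hu, cond_true, hT5 L z hzT]
    change ones (kinf L) ∈ machRun (true :: u) (initSeg X (z + 1))
    rw [← hout]
    exact Part.mem_bind_iff.mpr ⟨T1 L, hst, Part.mem_map _ hz⟩

/-- the lower bound for the complexity conditional on `N` -/
theorem condC_ge {D : List Bool → ℕ →. List Bool} (hD : UniversalCond D) (N : ℕ) :
    ∃ c : ℕ, ∀ L : ℕ, 2 * L ≤ condC D (ones (kinf L)) N + c := by
  obtain ⟨c0, h0⟩ := condC_spec hD
  obtain ⟨c, hc⟩ := univCond_universal.2 (fun p _ => D p N)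
    (hD.1.comp Computable.fst (Computable.const N))
  refine ⟨c, fun L => ?_⟩
  obtain ⟨-, p, hp, hpl⟩ := h0 (ones (kinf L)) N
  obtain ⟨q, hq, hq2⟩ := hc p 0 _ hp
  by_contra hcon
  push Not at hcon
  obtain ⟨z, hz⟩ := exists_low_iff.mpr ⟨q, show q.length < 2 * L by omega, hq2⟩
  exact kinf_spec L z hz

theorem main : ∃ A : Set ℕ, ∀ (U : OracleMachine) (D : List Bool → ℕ →. List Bool),
    UniversalOracle U → UniversalCond D → ∀ N m : ℕ, ∃ (σ : List Bool) (a b : ℕ),
      IsGreatest {k | ∃ X ∈ RT A, k = oracleC U X σ} a ∧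
      IsGreatest {k | ∃ n, N ≤ n ∧ k = condC D σ n} b ∧ a + m ≤ b := by
  obtain ⟨A, Ls, hLs, hA⟩ := exists_set
  refine ⟨A, fun U D hU hD N m => ?_⟩
  obtain ⟨c1, hc1⟩ := oracleC_le hU
  obtain ⟨c2, hc2⟩ := oracleC_le_of_out hU mach
  obtain ⟨c3, hc3⟩ := condC_spec hD
  obtain ⟨c4, hc4⟩ := condC_ge hD N
  set i := 1 + c2 + c4 + m with hi
  set σ := ones (kinf (Ls i)) with hσ
  obtain ⟨X0, hX0⟩ := RT_nonempty A
  have hne1 : {k | ∃ X ∈ RT A, k = oracleC U X σ}.Nonempty := ⟨_, X0, hX0, rfl⟩
  have hb1 : BddAbove {k | ∃ X ∈ RT A, k = oracleC U X σ} := by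
    refine ⟨σ.length + c1, ?_⟩
    rintro k ⟨X, -, rfl⟩
    exact hc1 X σ
  have hne2 : {k | ∃ n, N ≤ n ∧ k = condC D σ n}.Nonempty := ⟨_, N, le_rfl, rfl⟩
  have hb2 : BddAbove {k | ∃ n, N ≤ n ∧ k = condC D σ n} := by
    refine ⟨σ.length + c3, ?_⟩
    rintro k ⟨n, -, rfl⟩
    exact (hc3 σ n).1
  refine ⟨σ, sSup {k | ∃ X ∈ RT A, k = oracleC U X σ}, sSup {k | ∃ n, N ≤ n ∧ k = condC D σ n},
    ⟨Nat.sSup_mem hne1 hb1, fun k hk => le_csSup hb1 hk⟩,
    ⟨Nat.sSup_mem hne2 hb2, fun k hk => le_csSup hb2 hk⟩, ?_⟩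
  have h1 : sSup {k | ∃ X ∈ RT A, k = oracleC U X σ} ≤ Ls i + 1 + c2 := by
    apply csSup_le hne1
    rintro k ⟨X, hX, rfl⟩
    obtain ⟨p, hp, hout⟩ := hA i X hX
    have := hc2 X p _ hout
    rw [hp] at this
    exact this
  have h2 : condC D σ N ≤ sSup {k | ∃ n, N ≤ n ∧ k = condC D σ n} :=
    le_csSup hb2 ⟨N, le_rfl, rfl⟩
  have h3 := hc4 (Ls i)
  have h4 := hLs i
  rw [← hσ] at h3
  omega

end Pool.Agent.Q327.KM
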