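import Mathlib

/-!
Oracle machines and conditional machines for Kolmogorov complexity; existence of universal ones.
-/

set_option autoImplicit false

namespace Pool.Agent.Q327.KM

open Nat.Partrec (Code)
open Nat.Partrec.Code

open Classical in
/-- The first `n` bits of the characteristic sequence of `X`. -/
noncomputable def initSeg (X : Set ℕ) (n : ℕ) : List Bool :=
  (List.range n).map (fun i => decide (i ∈ X))

/-- An oracle machine: a partial recursive function `run p α` of a program `p` and a finite piece `α`
of an oracle, such that a computation which halts with the piece `α` halts with the same result for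
all extensions of `α`. -/
structure OracleMachine where
  /-- the machine -/
  run : List Bool → List Bool →. List Bool
  partrec : Partrec₂ run
  mono : ∀ p α β x, x ∈ run p α → α <+: β → x ∈ run p β

/-- The machine `M` with the oracle `X` outputs `x` on the program `p`. -/
def OracleMachine.Out (M : OracleMachine) (X : Set ℕ) (p x : List Bool) : Prop :=
  ∃ n, x ∈ M.run p (initSeg X n)

/-- `U` is a universal oracle machine: it simulates every oracle machine, for all oracles, with a
constant overhead in the length of the programs. -/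
def UniversalOracle (U : OracleMachine) : Prop :=
  ∀ M : OracleMachine, ∃ c : ℕ, ∀ (X : Set ℕ) (p x : List Bool), M.Out X p x →
    ∃ q : List Bool, q.length ≤ p.length + c ∧ U.Out X q x

/-- `C^X(σ)`, the plain complexity relative to the oracle `X` for the oracle machine `U`. -/
noncomputable def oracleC (U : OracleMachine) (X : Set ℕ) (σ : List Bool) : ℕ :=
  sInf {k | ∃ p : List Bool, U.Out X p σ ∧ p.length = k}

/-- `D` is a universal conditional machine (conditions are natural numbers). -/
def UniversalCond (D : List Bool → ℕ →. List Bool) : Prop :=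
  Partrec₂ D ∧ ∀ V : List Bool → ℕ →. List Bool, Partrec₂ V → ∃ c : ℕ,
    ∀ (p : List Bool) (n : ℕ) (x : List Bool), x ∈ V p n →
      ∃ q : List Bool, q.length ≤ p.length + c ∧ x ∈ D q n

/-- `C(σ | n)`, plain complexity of `σ` conditional on `n` for the machine `D`. -/
noncomputable def condC (D : List Bool → ℕ →. List Bool) (σ : List Bool) (n : ℕ) : ℕ :=
  sInf {k | ∃ p : List Bool, σ ∈ D p n ∧ p.length = k}

/-! ### Initial segments -/

lemma initSeg_length (X : Set ℕ) (n : ℕ) : (initSeg X n).length = n := by
  simp [initSeg]

lemma initSeg_prefix (X : Set ℕ) {m n : ℕ} (h : m ≤ n) : initSeg X m <+: initSeg X n := by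
  unfold initSeg
  obtain ⟨k, rfl⟩ := Nat.exists_eq_add_of_le h
  rw [List.range_add, List.map_append]
  exact List.prefix_append _ _

open Classical in
lemma initSeg_getD (X : Set ℕ) (n i : ℕ) (h : i < n) :
    (initSeg X n).getD i false = decide (i ∈ X) := by
  unfold initSeg
  rw [List.getD_eq_getElem?_getD]
  simp [h]

lemma take_initSeg (X : Set ℕ) {m n : ℕ} (h : m ≤ n) : (initSeg X n).take m = initSeg X m := by
  have h1 := initSeg_prefix X h
  rw [List.prefix_iff_eq_take] at h1
  rw [initSeg_length] at h1
  exact h1.symm

lemma OracleMachine.Out.unique {M : OracleMachine} {X : Set ℕ} {p x y : List Bool}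
    (h : M.Out X p x) (h' : M.Out X p y) : x = y := by
  obtain ⟨n, hn⟩ := h
  obtain ⟨m, hm⟩ := h'
  have h1 := M.mono p _ _ x hn (initSeg_prefix X (le_max_left n m))
  have h2 := M.mono p _ _ y hm (initSeg_prefix X (le_max_right n m))
  exact Part.mem_unique h1 h2

/-! ### Parsing -/

/-- the number of leading `true`s -/
def lead (p : List Bool) : ℕ := (p.takeWhile id).length

/-- what follows the first `false` -/
def rest (p : List Bool) : List Bool := (p.dropWhile id).tail

lemma lead_primrec : Primrec lead := Primrec.list_length.comp (Primrec.list_takeWhile Primrec.id)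

lemma rest_primrec : Primrec rest := Primrec.list_tail.comp (Primrec.list_dropWhile Primrec.id)

/-- `1^e 0 p` -/
def pre (e : ℕ) (p : List Bool) : List Bool := List.replicate e true ++ false :: p

lemma lead_pre (e : ℕ) (p : List Bool) : lead (pre e p) = e := by
  induction e with
  | zero => simp [lead, pre]
  | succ e ih =>
    unfold lead pre at *
    rw [List.replicate_succ, List.cons_append, List.takeWhile_cons]
    simp only [id, if_true, List.length_cons]
    rw [ih]

lemma rest_pre (e : ℕ) (p : List Bool) : rest (pre e p) = p := by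
  induction e with
  | zero => simp [rest, pre]
  | succ e ih =>
    unfold rest pre at *
    rw [List.replicate_succ, List.cons_append, List.dropWhile_cons]
    simp only [id, if_true]
    exact ih

lemma length_pre (e : ℕ) (p : List Bool) : (pre e p).length = p.length + (e + 1) := by
  simp [pre]; omega

/-! ### A universal conditional machine -/

/-- a code of a partial recursive function of two arguments -/
lemma exists_code₂ {α β γ : Type*} [Primcodable α] [Primcodable β] [Primcodable γ]
    {V : α → β →. γ} (hV : Partrec₂ V) :
    ∃ c : Code, ∀ a b, eval c (Encodable.encode (a, b)) = (V a b).map Encodable.encode := by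
  obtain ⟨c, hc⟩ := exists_code.mp hV
  refine ⟨c, fun a b => ?_⟩
  rw [hc]
  simp

/-- the universal conditional machine -/
def univCond (p : List Bool) (n : ℕ) : Part (List Bool) :=
  (eval (Denumerable.ofNat Code (lead p)) (Encodable.encode (rest p, n))).bind
    (fun a => (Encodable.decode (α := List Bool) a : Part (List Bool)))

lemma univCond_partrec : Partrec₂ univCond := by
  have h1 : Computable (fun a : List Bool × ℕ => Denumerable.ofNat Code (lead a.1)) :=
    ((Primrec.ofNat Code).comp (lead_primrec.comp Primrec.fst)).to_comp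
  have h2 : Computable (fun a : List Bool × ℕ => Encodable.encode (rest a.1, a.2)) :=
    (Primrec.encode.comp (Primrec.pair (rest_primrec.comp Primrec.fst) Primrec.snd)).to_comp
  have h3 : Partrec (fun a : List Bool × ℕ =>
      eval (Denumerable.ofNat Code (lead a.1)) (Encodable.encode (rest a.1, a.2))) :=
    eval_part.comp h1 h2
  refine Partrec.bind h3 ?_
  exact (Computable.decode.comp Computable.snd).ofOption

theorem univCond_universal : UniversalCond univCond := by
  refine ⟨univCond_partrec, fun V hV => ?_⟩
  obtain ⟨c, hc⟩ := exists_code₂ hV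
  refine ⟨Encodable.encode c + 1, fun p n x hx => ⟨pre (Encodable.encode c) p, ?_, ?_⟩⟩
  · rw [length_pre]
  · unfold univCond
    rw [lead_pre, rest_pre, Denumerable.ofNat_encode, hc, Part.mem_bind_iff]
    refine ⟨Encodable.encode x, Part.mem_map _ hx, ?_⟩
    simp

/-! ### A universal oracle machine -/

/-- the `s`-th attempt to find a result of the program `r` for the code number `e` -/
def attempt (e : ℕ) (r α : List Bool) (s : ℕ) : Option ℕ :=
  evaln s.unpair.1 (Denumerable.ofNat Code e) (Encodable.encode (r, α.take s.unpair.2))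

lemma attempt_primrec : Primrec (fun a : (ℕ × List Bool) × (List Bool × ℕ) =>
    attempt a.1.1 a.1.2 a.2.1 a.2.2) := by
  unfold attempt
  have hs : Primrec (fun a : (ℕ × List Bool) × (List Bool × ℕ) => a.2.2) :=
    Primrec.snd.comp Primrec.snd
  have hs1 : Primrec (fun a : (ℕ × List Bool) × (List Bool × ℕ) => a.2.2.unpair.1) :=
    Primrec.fst.comp (Primrec.unpair.comp hs)
  have hs2 : Primrec (fun a : (ℕ × List Bool) × (List Bool × ℕ) => a.2.2.unpair.2) :=
    Primrec.snd.comp (Primrec.unpair.comp hs)
  have hc : Primrec (fun a : (ℕ × List Bool) × (List Bool × ℕ) =>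
      Denumerable.ofNat Code a.1.1) := (Primrec.ofNat Code).comp (Primrec.fst.comp Primrec.fst)
  have ht : Primrec (fun a : (ℕ × List Bool) × (List Bool × ℕ) => a.2.1.take a.2.2.unpair.2) :=
    Primrec.list_take.comp hs2 (Primrec.fst.comp Primrec.snd)
  have hin : Primrec (fun a : (ℕ × List Bool) × (List Bool × ℕ) =>
      Encodable.encode (a.1.2, a.2.1.take a.2.2.unpair.2)) :=
    Primrec.encode.comp (Primrec.pair (Primrec.snd.comp Primrec.fst) ht)
  exact primrec_evaln.comp (Primrec.pair (Primrec.pair hs1 hc) hin)

/-- the first successful attempt -/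
def search (p α : List Bool) : Part ℕ :=
  Nat.rfind (fun s => Part.some (decide (s ≤ α.length) && (attempt (lead p) (rest p) α s).isSome))

lemma search_partrec : Partrec₂ search := by
  have hin : Primrec (fun a : (List Bool × List Bool) × ℕ =>
      ((lead a.1.1, rest a.1.1), (a.1.2, a.2))) :=
    Primrec.pair (Primrec.pair (lead_primrec.comp (Primrec.fst.comp Primrec.fst))
      (rest_primrec.comp (Primrec.fst.comp Primrec.fst)))
      (Primrec.pair (Primrec.snd.comp Primrec.fst) Primrec.snd)
  have h1 : Primrec (fun a : (List Bool × List Bool) × ℕ =>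
      attempt (lead a.1.1) (rest a.1.1) a.1.2 a.2) := attempt_primrec.comp hin
  have h2 : Primrec (fun a : (List Bool × List Bool) × ℕ => decide (a.2 ≤ a.1.2.length)) :=
    (Primrec.nat_le.comp Primrec.snd (Primrec.list_length.comp (Primrec.snd.comp Primrec.fst))).decide
  have h3 : Primrec (fun a : (List Bool × List Bool) × ℕ =>
      (decide (a.2 ≤ a.1.2.length) && (attempt (lead a.1.1) (rest a.1.1) a.1.2 a.2).isSome)) :=
    Primrec.and.comp h2 (Primrec.option_isSome.comp h1)
  have h4 : Partrec₂ (fun (a : List Bool × List Bool) (s : ℕ) => (Part.some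
      (decide (s ≤ a.2.length) && (attempt (lead a.1) (rest a.1) a.2 s).isSome) : Part Bool)) :=
    (h3.to_comp : Computable _)
  exact Partrec.rfind h4

lemma mem_search {p α : List Bool} {s : ℕ} : s ∈ search p α ↔
    (s ≤ α.length ∧ (attempt (lead p) (rest p) α s).isSome = true) ∧
      ∀ t < s, ¬ (t ≤ α.length ∧ (attempt (lead p) (rest p) α t).isSome = true) := by
  unfold search
  rw [Nat.mem_rfind]
  simp only [Part.mem_some_iff]
  constructor
  · rintro ⟨h1, h2⟩
    refine ⟨by simpa using h1.symm, fun t ht h3 => ?_⟩
    have h4 := h2 ht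
    have h5 : (decide (t ≤ α.length) && (attempt (lead p) (rest p) α t).isSome) = true := by
      simpa using h3
    rw [h5] at h4
    cases h4
  · rintro ⟨h1, h2⟩
    refine ⟨by simpa using h1, fun {t} ht => ?_⟩
    have h3 := h2 t ht
    symm
    rw [Bool.eq_false_iff]
    intro h4
    apply h3
    simpa using h4

/-- the universal oracle machine -/
def univRun (p α : List Bool) : Part (List Bool) :=
  (search p α).bind (fun s =>
    (((attempt (lead p) (rest p) α s).bind (fun a => Encodable.decode (α := List Bool) a) :
      Option (List Bool)) : Part (List Bool)))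

lemma univRun_partrec : Partrec₂ univRun := by
  refine Partrec.bind search_partrec ?_
  have hin : Primrec (fun a : (List Bool × List Bool) × ℕ =>
      ((lead a.1.1, rest a.1.1), (a.1.2, a.2))) :=
    Primrec.pair (Primrec.pair (lead_primrec.comp (Primrec.fst.comp Primrec.fst))
      (rest_primrec.comp (Primrec.fst.comp Primrec.fst)))
      (Primrec.pair (Primrec.snd.comp Primrec.fst) Primrec.snd)
  have h1 : Primrec (fun a : (List Bool × List Bool) × ℕ =>
      attempt (lead a.1.1) (rest a.1.1) a.1.2 a.2) := attempt_primrec.comp hin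
  have h2 : Primrec (fun a : (List Bool × List Bool) × ℕ =>
      (attempt (lead a.1.1) (rest a.1.1) a.1.2 a.2).bind
        (fun a => Encodable.decode (α := List Bool) a)) :=
    Primrec.option_bind h1 (Primrec.decode.comp Primrec.snd).to₂
  exact h2.to_comp.ofOption

lemma attempt_congr {e : ℕ} {r α β : List Bool} {s : ℕ} (h : α <+: β) (hs : s ≤ α.length) :
    attempt e r β s = attempt e r α s := by
  unfold attempt
  have h1 : s.unpair.2 ≤ α.length := (Nat.unpair_right_le s).trans hs
  obtain ⟨γ, rfl⟩ := h
  rw [List.take_append_of_le_length h1]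

lemma search_mono {p α β : List Bool} {s : ℕ} (h : α <+: β) (hs : s ∈ search p α) :
    s ∈ search p β := by
  rw [mem_search] at hs ⊢
  obtain ⟨⟨h1, h2⟩, h3⟩ := hs
  have hlen := h.length_le
  refine ⟨⟨h1.trans hlen, ?_⟩, fun t ht h4 => h3 t ht ⟨by omega, ?_⟩⟩
  · rw [attempt_congr h h1]; exact h2
  · rw [← attempt_congr h (by omega)]; exact h4.2

/-- the universal oracle machine -/
def univOracle : OracleMachine where
  run := univRun
  partrec := univRun_partrec
  mono := by
    intro p α β x hx h
    unfold univRun at hx ⊢
    rw [Part.mem_bind_iff] at hx ⊢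
    obtain ⟨s, hs, hx⟩ := hx
    refine ⟨s, search_mono h hs, ?_⟩
    rw [mem_search] at hs
    rw [attempt_congr h hs.1.1]
    exact hx

theorem univOracle_universal : UniversalOracle univOracle := by
  intro M
  obtain ⟨c, hc⟩ := exists_code₂ M.partrec
  refine ⟨Encodable.encode c + 1, fun X p x hx => ⟨pre (Encodable.encode c) p, ?_, ?_⟩⟩
  · rw [length_pre]
  · have hOut := hx
    obtain ⟨n, hn⟩ := hx
    have h1 : Encodable.encode x ∈ eval c (Encodable.encode (p, initSeg X n)) := by
      rw [hc]; exact Part.mem_map _ hn
    obtain ⟨k, hk⟩ := evaln_complete.mp h1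
    set s0 := Nat.pair k n with hs0
    set α := initSeg X s0 with hα
    have hαlen : α.length = s0 := initSeg_length X s0
    have hns : n ≤ s0 := Nat.right_le_pair k n
    have hatt : ∀ s, attempt (lead (pre (Encodable.encode c) p))
        (rest (pre (Encodable.encode c) p)) α s =
        evaln s.unpair.1 c (Encodable.encode (p, α.take s.unpair.2)) := by
      intro s
      unfold attempt
      rw [lead_pre, rest_pre, Denumerable.ofNat_encode]
    have hgood : s0 ≤ α.length ∧ (attempt (lead (pre (Encodable.encode c) p))
        (rest (pre (Encodable.encode c) p)) α s0).isSome = true := by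
      refine ⟨hαlen.ge, ?_⟩
      rw [hatt, hs0, Nat.unpair_pair, hα, take_initSeg X hns]
      have : evaln k c (Encodable.encode (p, initSeg X n)) = some (Encodable.encode x) := hk
      simp only [this, Option.isSome_some]
    classical
    have hex : ∃ s, s ≤ α.length ∧ (attempt (lead (pre (Encodable.encode c) p))
        (rest (pre (Encodable.encode c) p)) α s).isSome = true := ⟨s0, hgood⟩
    have hspec := Nat.find_spec hex
    set s := Nat.find hex with hs
    have hmem : s ∈ search (pre (Encodable.encode c) p) α := by
      rw [mem_search]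
      exact ⟨hspec, fun t ht => Nat.find_min hex ht⟩
    obtain ⟨a, ha⟩ := Option.isSome_iff_exists.mp hspec.2
    have hsle : s.unpair.2 ≤ s0 := by
      have h2 := Nat.unpair_right_le s
      have h3 := hspec.1
      omega
    have ha2 : a ∈ eval c (Encodable.encode (p, α.take s.unpair.2)) := by
      rw [hatt] at ha
      exact evaln_sound ha
    rw [hc, Part.mem_map_iff] at ha2
    obtain ⟨x', hx', rfl⟩ := ha2
    have hxx : x' = x := by
      apply OracleMachine.Out.unique (M := M) (X := X) (p := p) _ hOut
      refine ⟨s.unpair.2, ?_⟩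
      rw [hα, take_initSeg X hsle] at hx'
      exact hx'
    subst hxx
    refine ⟨s0, ?_⟩
    change x' ∈ univRun _ α
    unfold univRun
    rw [Part.mem_bind_iff]
    refine ⟨s, hmem, ?_⟩
    rw [ha]
    simp

/-! ### Trivial bounds -/

/-- the machine which copies its program -/
def copyOracle : OracleMachine where
  run := fun p _ => Part.some p
  partrec := (Computable.fst : Computable (fun a : List Bool × List Bool => a.1))
  mono := fun _ _ _ _ h _ => h

theorem oracleC_le_of_out {U : OracleMachine} (hU : UniversalOracle U) (M : OracleMachine) :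
    ∃ c : ℕ, ∀ (X : Set ℕ) (p x : List Bool), M.Out X p x → oracleC U X x ≤ p.length + c := by
  obtain ⟨c, hc⟩ := hU M
  refine ⟨c, fun X p x hx => ?_⟩
  obtain ⟨q, hq, hq'⟩ := hc X p x hx
  have hmem : q.length ∈ {k | ∃ p : List Bool, U.Out X p x ∧ p.length = k} := ⟨q, hq', rfl⟩
  exact (Nat.sInf_le hmem).trans hq

theorem oracleC_le {U : OracleMachine} (hU : UniversalOracle U) :
    ∃ c : ℕ, ∀ (X : Set ℕ) (x : List Bool), oracleC U X x ≤ x.length + c := by
  obtain ⟨c, hc⟩ := oracleC_le_of_out hU copyOracle
  exact ⟨c, fun X x => hc X x x ⟨0, Part.mem_some x⟩⟩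

theorem condC_spec {D : List Bool → ℕ →. List Bool} (hD : UniversalCond D) :
    ∃ c : ℕ, ∀ (x : List Bool) (n : ℕ), condC D x n ≤ x.length + c ∧
      ∃ p : List Bool, x ∈ D p n ∧ p.length = condC D x n := by
  obtain ⟨c, hc⟩ := hD.2 (fun p _ => Part.some p)
    (Computable.fst : Computable (fun a : List Bool × ℕ => a.1))
  refine ⟨c, fun x n => ?_⟩
  obtain ⟨q, hq, hq'⟩ := hc x n x (Part.mem_some x)
  have hmem : q.length ∈ {k | ∃ p : List Bool, x ∈ D p n ∧ p.length = k} := ⟨q, hq', rfl⟩
  exact ⟨(Nat.sInf_le hmem).trans hq, Nat.sInf_mem ⟨_, hmem⟩⟩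

end Pool.Agent.Q327.KM
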