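import Mathlib

/-!
Las Vegas finite automata and one-way uniform Las Vegas protocols.
-/

set_option autoImplicit false

namespace Pool.Agent.Q327.LV

open Finset

/-- A Las Vegas finite automaton with `N` states: `kind q` is `some true` for accepting, `some false`
for rejecting, `none` for neutral states; `trans q a` is a probability distribution. -/
structure LVFA (α : Type*) (N : ℕ) where
  /-- accepting, rejecting, neutral -/
  kind : Fin N → Option Bool
  /-- start state -/
  start : Fin N
  /-- transition probabilities -/
  trans : Fin N → α → Fin N → ℝ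
  trans_nonneg : ∀ q a q', 0 ≤ trans q a q'
  trans_sum : ∀ q a, ∑ q', trans q a q' = 1

variable {α : Type*} {N : ℕ}

/-- The distribution on states after reading the letter `a` from the distribution `μ`. -/
def LVFA.step (A : LVFA α N) (μ : Fin N → ℝ) (a : α) : Fin N → ℝ :=
  fun q' => ∑ q, μ q * A.trans q a q'

/-- The distribution on states after reading the word `w` from the distribution `μ`. -/
def LVFA.evolve (A : LVFA α N) (μ : Fin N → ℝ) (w : List α) : Fin N → ℝ := w.foldl A.step μ

/-- The distribution on states after reading the word `w` from the start state; `0 < A.dist w q` means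
that some computation (run of positive probability) on `w` ends in `q`. -/
def LVFA.dist (A : LVFA α N) (w : List α) : Fin N → ℝ := A.evolve (Pi.single A.start 1) w

/-- `A` recognises `L`. -/
def LVFA.Recognises (A : LVFA α N) (L : Language α) : Prop :=
  ∀ w : List α,
    (w ∈ L → (∀ q, 0 < A.dist w q → A.kind q ≠ some false) ∧
      1 / 2 ≤ ∑ q ∈ univ.filter (fun q => A.kind q = some true), A.dist w q) ∧
    (w ∉ L → (∀ q, 0 < A.dist w q → A.kind q ≠ some true) ∧
      1 / 2 ≤ ∑ q ∈ univ.filter (fun q => A.kind q = some false), A.dist w q)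

/-- The least number of states of an LVFA recognising `L`. -/
noncomputable def lvs (L : Language α) : ℕ := sInf {N | ∃ A : LVFA α N, A.Recognises L}

/-- A one-way uniform Las Vegas protocol with `M` messages: `μ x` is the distribution on messages for
`x`, `out y m` the distribution on the outputs `1 = some true`, `0 = some false`, `? = none`. -/
structure Protocol (α : Type*) (M : ℕ) where
  /-- message distributions -/
  μ : List α → Fin M → ℝ
  /-- output distributions -/
  out : List α → Fin M → Option Bool → ℝ
  μ_nonneg : ∀ x m, 0 ≤ μ x m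
  μ_sum : ∀ x, ∑ m, μ x m = 1
  out_nonneg : ∀ y m b, 0 ≤ out y m b
  out_sum : ∀ y m, ∑ b, out y m b = 1

/-- The protocol is never wrong, and correct with probability at least `1 / 2`. -/
def Protocol.Correct {M : ℕ} (P : Protocol α M) (L : Language α) : Prop :=
  ∀ x y : List α,
    (x ++ y ∈ L → (∀ m, 0 < P.μ x m → P.out y m (some false) = 0) ∧
      1 / 2 ≤ ∑ m, P.μ x m * P.out y m (some true)) ∧
    (x ++ y ∉ L → (∀ m, 0 < P.μ x m → P.out y m (some true) = 0) ∧
      1 / 2 ≤ ∑ m, P.μ x m * P.out y m (some false))

/-- The least message complexity of a protocol for `L`. -/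
noncomputable def lvmc (L : Language α) : ℕ := sInf {M | ∃ P : Protocol α M, P.Correct L}

/-! ### Evolution of distributions -/

section
variable (A : LVFA α N)

lemma evolve_append (μ : Fin N → ℝ) (w u : List α) :
    A.evolve μ (w ++ u) = A.evolve (A.evolve μ w) u := by
  unfold LVFA.evolve; rw [List.foldl_append]

lemma evolve_cons (μ : Fin N → ℝ) (a : α) (u : List α) :
    A.evolve μ (a :: u) = A.evolve (A.step μ a) u := rfl

lemma step_nonneg {μ : Fin N → ℝ} (h : ∀ q, 0 ≤ μ q) (a : α) (q : Fin N) : 0 ≤ A.step μ a q :=
  sum_nonneg fun q' _ => mul_nonneg (h q') (A.trans_nonneg _ _ _)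

lemma step_sum (μ : Fin N → ℝ) (a : α) : ∑ q, A.step μ a q = ∑ q, μ q := by
  unfold LVFA.step
  rw [sum_comm]
  refine sum_congr rfl fun q _ => ?_
  rw [← mul_sum, A.trans_sum, mul_one]

lemma evolve_nonneg {μ : Fin N → ℝ} (h : ∀ q, 0 ≤ μ q) (u : List α) (q : Fin N) :
    0 ≤ A.evolve μ u q := by
  induction u generalizing μ with
  | nil => exact h q
  | cons a u ih => rw [evolve_cons]; exact ih (step_nonneg A h a)

lemma evolve_sum (μ : Fin N → ℝ) (u : List α) : ∑ q, A.evolve μ u q = ∑ q, μ q := by
  induction u generalizing μ with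
  | nil => rfl
  | cons a u ih => rw [evolve_cons, ih, step_sum]

/-- The transition probabilities of words. -/
def P (q : Fin N) (u : List α) : Fin N → ℝ := A.evolve (Pi.single q 1) u

lemma P_nonneg (q : Fin N) (u : List α) (q' : Fin N) : 0 ≤ P A q u q' := by
  apply evolve_nonneg
  intro r
  by_cases h : r = q
  · subst h; simp
  · rw [Pi.single_eq_of_ne h]

lemma P_sum (q : Fin N) (u : List α) : ∑ q', P A q u q' = 1 := by
  unfold P
  rw [evolve_sum]
  simp

lemma evolve_eq (μ : Fin N → ℝ) (u : List α) (q' : Fin N) :
    A.evolve μ u q' = ∑ q, μ q * P A q u q' := by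
  induction u using List.reverseRecOn generalizing q' with
  | nil =>
    unfold P LVFA.evolve
    simp only [List.foldl_nil]
    rw [sum_eq_single q']
    · simp
    · intro q _ h
      rw [Pi.single_eq_of_ne h.symm, mul_zero]
    · simp
  | append_singleton u a ih =>
    have h1 : ∀ ν : Fin N → ℝ, A.evolve ν (u ++ [a]) q' = ∑ r, A.evolve ν u r * A.trans r a q' := by
      intro ν; rw [evolve_append]; rfl
    unfold P
    rw [h1]
    simp only [h1]
    simp only [ih]
    simp only [sum_mul, mul_sum]
    rw [sum_comm]
    refine sum_congr rfl fun q _ => sum_congr rfl fun r _ => ?_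
    unfold P
    ring

lemma dist_append (w u : List α) (q' : Fin N) :
    A.dist (w ++ u) q' = ∑ q, A.dist w q * P A q u q' := by
  unfold LVFA.dist
  rw [evolve_append, evolve_eq]

lemma P_append (q : Fin N) (w u : List α) (q' : Fin N) :
    P A q (w ++ u) q' = ∑ r, P A q w r * P A r u q' := by
  unfold P
  rw [evolve_append, evolve_eq]
  rfl

lemma dist_nonneg (w : List α) (q : Fin N) : 0 ≤ A.dist w q := P_nonneg A A.start w q

lemma dist_sum (w : List α) : ∑ q, A.dist w q = 1 := P_sum A A.start w

lemma dist_append_pos {w u : List α} {q q' : Fin N} (h : 0 < A.dist w q) (h' : 0 < P A q u q') :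
    0 < A.dist (w ++ u) q' := by
  rw [dist_append]
  refine lt_of_lt_of_le (mul_pos h h') ?_
  exact single_le_sum (f := fun q => A.dist w q * P A q u q')
    (fun r _ => mul_nonneg (dist_nonneg A w r) (P_nonneg A r u q')) (mem_univ q)

lemma P_append_pos {w u : List α} {q r q' : Fin N} (h : 0 < P A q w r) (h' : 0 < P A r u q') :
    0 < P A q (w ++ u) q' := by
  rw [P_append]
  refine lt_of_lt_of_le (mul_pos h h') ?_
  exact single_le_sum (f := fun r => P A q w r * P A r u q')
    (fun r _ => mul_nonneg (P_nonneg A q w r) (P_nonneg A r u q')) (mem_univ r)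

end

end Pool.Agent.Q327.LV
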