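import Mathlib

/-!
Words over two letters which act on `{0,1}^(n+1)` as a signed cycle and as a transposition realise
every signed permutation of the coordinates.
-/

set_option autoImplicit false

namespace Pool.Agent.Q327.SP

open Equiv

variable {n : ℕ}

/-- The cube. -/
abbrev V (n : ℕ) := Fin (n + 1) → Bool

/-- The signed permutation `v ↦ (i ↦ v (σ i) ⊕ c i)`. -/
def sp (σ : Perm (Fin (n + 1))) (c : Fin (n + 1) → Bool) : Perm (V n) where
  toFun v i := xor (v (σ i)) (c i)
  invFun v i := xor (v (σ⁻¹ i)) (c (σ⁻¹ i))
  left_inv v := by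
    funext i
    simp
  right_inv v := by
    funext i
    simp

@[simp] lemma sp_apply (σ : Perm (Fin (n + 1))) (c : Fin (n + 1) → Bool) (v : V n)
    (i : Fin (n + 1)) : sp σ c v i = xor (v (σ i)) (c i) := rfl

/-- The constant `false`. -/
def zero : Fin (n + 1) → Bool := fun _ => false

/-- The indicator of a coordinate. -/
def single (j : Fin (n + 1)) : Fin (n + 1) → Bool := fun i => decide (i = j)

/-- The two letters: `true` is the signed cycle `v ↦ (v_1, ..., v_n, ¬ v_0)`, `false` exchanges the
coordinates `0` and `1`. -/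
def letter (b : Bool) : Perm (V n) :=
  if b then sp (finRotate (n + 1)) (single (Fin.last n)) else sp (swap 0 1) zero

/-- The action of a word. -/
def act (w : List Bool) (v : V n) : V n := w.foldl (fun v b => letter b v) v

lemma act_append (w w' : List Bool) (v : V n) : act (w ++ w') v = act w' (act w v) := by
  unfold act
  rw [List.foldl_append]

/-- The permutations realised by words. -/
def H (n : ℕ) : Submonoid (Perm (V n)) where
  carrier := {g | ∃ w : List Bool, ∀ v, act w v = g v}
  one_mem' := ⟨[], fun _ => rfl⟩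
  mul_mem' := by
    rintro g g' ⟨w, hw⟩ ⟨w', hw'⟩
    refine ⟨w' ++ w, fun v => ?_⟩
    rw [act_append, hw', hw]
    rfl

lemma mem_H {g : Perm (V n)} : g ∈ H n ↔ ∃ w : List Bool, ∀ v, act w v = g v := Iff.rfl

lemma inv_mem {g : Perm (V n)} (h : g ∈ H n) : g⁻¹ ∈ H n := by
  have h1 : g⁻¹ = g ^ (orderOf g - 1) := by
    rw [inv_eq_iff_mul_eq_one, ← pow_succ', Nat.sub_add_cancel (orderOf_pos g), pow_orderOf_eq_one]
  rw [h1]
  exact pow_mem h _

lemma letter_mem (b : Bool) : letter b ∈ H n := ⟨[b], fun _ => rfl⟩

lemma A_mem : sp (finRotate (n + 1)) (single (Fin.last n)) ∈ H n := letter_mem true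

lemma B_mem : sp (swap (0 : Fin (n + 1)) 1) zero ∈ H n := letter_mem false

lemma sp_mul (σ τ : Perm (Fin (n + 1))) (c d : Fin (n + 1) → Bool) :
    sp σ c * sp τ d = sp (τ * σ) (fun i => xor (d (σ i)) (c i)) := by
  ext v i
  simp [Perm.mul_apply, Bool.xor_assoc]

lemma sp_one : sp (1 : Perm (Fin (n + 1))) zero = 1 := by
  ext v i
  simp [zero]

lemma adj_mem (j : ℕ) (hj : j < n) :
    sp (swap (⟨j, by omega⟩ : Fin (n + 1)) ⟨j + 1, by omega⟩) zero ∈ H n := by
  induction j with
  | zero =>
    have h1 : (⟨0 + 1, by omega⟩ : Fin (n + 1)) = 1 := by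
      apply Fin.ext
      rw [Fin.val_one', Nat.mod_eq_of_lt (by omega)]
    have h0 : (⟨0, by omega⟩ : Fin (n + 1)) = 0 := rfl
    rw [h1, h0]
    exact B_mem
  | succ j ih =>
    have ih := ih (by omega)
    set S : Perm (V n) := sp (swap (⟨j, by omega⟩ : Fin (n + 1)) ⟨j + 1, by omega⟩) zero with hS
    set S' : Perm (V n) :=
      sp (swap (⟨j + 1, by omega⟩ : Fin (n + 1)) ⟨j + 1 + 1, by omega⟩) zero with hS'
    set A : Perm (V n) := sp (finRotate (n + 1)) (single (Fin.last n)) with hA
    have key : A * S' = S * A := by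
      rw [hA, hS, hS', sp_mul, sp_mul]
      congr 1
      · -- permutations
        ext x
        simp only [Perm.mul_apply]
        have hinj := (finRotate (n + 1)).injective
        have h1 := hinj.swap_apply (⟨j, by omega⟩ : Fin (n + 1)) ⟨j + 1, by omega⟩ x
        have h2 : finRotate (n + 1) (⟨j, by omega⟩ : Fin (n + 1)) = ⟨j + 1, by omega⟩ := by
          rw [finRotate_succ_apply]
          apply Fin.ext
          rw [Fin.val_add_one_of_lt]
          rw [Fin.lt_def]; simp only [Fin.val_last]; omega
        have h3 : finRotate (n + 1) (⟨j + 1, by omega⟩ : Fin (n + 1)) = ⟨j + 1 + 1, by omega⟩ := by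
          rw [finRotate_succ_apply]
          apply Fin.ext
          rw [Fin.val_add_one_of_lt]
          rw [Fin.lt_def]; simp only [Fin.val_last]; omega
        rw [← h1, h2, h3]
      · funext x
        simp only [zero, Bool.false_xor, Bool.xor_false, single]
        congr 1
        rw [eq_iff_iff]
        have hlj : Fin.last n ≠ (⟨j, by omega⟩ : Fin (n + 1)) := by
          intro h
          have := congrArg Fin.val h
          simp at this; omega
        have hlj' : Fin.last n ≠ (⟨j + 1, by omega⟩ : Fin (n + 1)) := by
          intro h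
          have := congrArg Fin.val h
          simp at this; omega
        constructor
        · intro h
          rw [h, swap_apply_of_ne_of_ne hlj hlj']
        · intro h
          have h4 : x = swap (⟨j, by omega⟩ : Fin (n + 1)) ⟨j + 1, by omega⟩ (Fin.last n) := by
            rw [← h, swap_apply_self]
          rw [h4, swap_apply_of_ne_of_ne hlj hlj']
    have h5 : S' = A⁻¹ * (S * A) := by rw [← key, inv_mul_cancel_left]
    rw [h5]
    exact mul_mem (inv_mem A_mem) (mul_mem ih A_mem)

lemma perm_mem (σ : Perm (Fin (n + 1))) : sp σ zero ∈ H n := by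
  have h : σ ∈ Submonoid.closure (Set.range fun i : Fin n => swap i.castSucc i.succ) := by
    rw [Perm.mclosure_swap_castSucc_succ]; trivial
  induction h using Submonoid.closure_induction with
  | mem x hx =>
    obtain ⟨i, rfl⟩ := hx
    exact adj_mem i.1 i.2
  | one => rw [sp_one]; exact one_mem _
  | mul x y _ _ hx hy =>
    have : sp (x * y) zero = sp y zero * sp x zero := by
      rw [sp_mul]; congr 1
    rw [this]
    exact mul_mem hy hx

lemma flip_last_mem : sp (1 : Perm (Fin (n + 1))) (single (Fin.last n)) ∈ H n := by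
  have h : sp (1 : Perm (Fin (n + 1))) (single (Fin.last n)) =
      sp (finRotate (n + 1)) (single (Fin.last n)) * (sp (finRotate (n + 1)) zero)⁻¹ := by
    rw [eq_mul_inv_iff_mul_eq, sp_mul]
    congr 1
    funext i
    simp [zero]
  rw [h]
  exact mul_mem A_mem (inv_mem (perm_mem _))

lemma flip_mem (j : Fin (n + 1)) : sp (1 : Perm (Fin (n + 1))) (single j) ∈ H n := by
  have h : sp (1 : Perm (Fin (n + 1))) (single j) = sp (swap j (Fin.last n)) zero *
      (sp 1 (single (Fin.last n)) * sp (swap j (Fin.last n)) zero) := by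
    rw [sp_mul, sp_mul]
    congr 1
    · ext x; simp
    · funext x
      simp only [zero, single, Bool.false_xor, Bool.xor_false]
      congr 1
      rw [eq_iff_iff]
      constructor
      · rintro rfl; simp
      · intro h
        have h4 : swap j (Fin.last n) (swap j (Fin.last n) x) = x := by simp
        rw [h, swap_apply_right] at h4
        exact h4.symm
  rw [h]
  exact mul_mem (perm_mem _) (mul_mem flip_last_mem (perm_mem _))

lemma flips_mem (s : Finset (Fin (n + 1))) :
    sp (1 : Perm (Fin (n + 1))) (fun i => decide (i ∈ s)) ∈ H n := by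
  classical
  induction s using Finset.induction_on with
  | empty =>
    have : (fun i : Fin (n + 1) => decide (i ∈ (∅ : Finset (Fin (n + 1))))) = zero := by
      funext i; simp [zero]
    rw [this, sp_one]; exact one_mem _
  | insert a s ha ih =>
    have h : sp (1 : Perm (Fin (n + 1))) (fun i => decide (i ∈ insert a s)) =
        sp 1 (single a) * sp 1 (fun i => decide (i ∈ s)) := by
      rw [sp_mul]
      congr 1
      funext i
      simp only [Finset.mem_insert, single, Perm.one_apply]
      by_cases h1 : i = a
      · subst h1; simp [ha]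
      · by_cases h2 : i ∈ s <;> simp [h1, h2]
    rw [h]
    exact mul_mem (flip_mem a) ih

/-- Every signed permutation is realised by a word. -/
theorem sp_mem (σ : Perm (Fin (n + 1))) (c : Fin (n + 1) → Bool) : sp σ c ∈ H n := by
  classical
  have h : sp σ c = sp 1 (fun i => decide (i ∈ Finset.univ.filter (fun i => c i = true))) *
      sp σ zero := by
    rw [sp_mul]
    congr 1
    funext i
    simp [zero]
  rw [h]
  exact mul_mem (flips_mem _) (perm_mem _)

/-- The action of a word is a signed permutation. -/
theorem act_eq_sp (w : List Bool) : ∃ (σ : Perm (Fin (n + 1))) (c : Fin (n + 1) → Bool),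
    ∀ v, act w v = sp σ c v := by
  induction w using List.reverseRecOn with
  | nil => exact ⟨1, zero, fun v => by rw [sp_one]; rfl⟩
  | append_singleton w b ih =>
    obtain ⟨σ, c, h⟩ := ih
    have hb : ∃ (τ : Perm (Fin (n + 1))) (d : Fin (n + 1) → Bool), letter b = sp τ d := by
      cases b
      · exact ⟨_, _, rfl⟩
      · exact ⟨_, _, rfl⟩
    obtain ⟨τ, d, hd⟩ := hb
    refine ⟨σ * τ, fun i => xor (c (τ i)) (d i), fun v => ?_⟩
    rw [act_append, h]
    change letter b (sp σ c v) = _
    rw [hd, ← sp_mul]
    rfl

end Pool.Agent.Q327.SP
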