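import Mathlib
import Pool.Agent.Q327.LVDefs
import Pool.Agent.Q327.SignedPerm

/-!
Every Las Vegas automaton for the language of the signed permutation group has at least `2^(n+1)`
states.
-/

set_option autoImplicit false

namespace Pool.Agent.Q327.LV

open Finset Pool.Agent.Q327.SP

variable {α : Type*} {n N : ℕ}

/-- the state of the minimal automaton after the word `w` -/
def state (n : ℕ) (f : α → Bool) (w : List α) : V n := act (w.map f) zero

/-- The language: the coordinate `0` of the state is `1`. -/
def lang (n : ℕ) (f : α → Bool) : Language α := {w | state n f w 0 = true}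

lemma mem_lang {f : α → Bool} {w : List α} : w ∈ lang n f ↔ state n f w 0 = true := Iff.rfl

lemma state_append (f : α → Bool) (w u : List α) :
    state n f (w ++ u) = act (u.map f) (state n f w) := by
  unfold state; rw [List.map_append, act_append]

/-- Every signed permutation is realised by a word over `α`. -/
lemma exists_word {f : α → Bool} (hf : Function.Surjective f) (σ : Equiv.Perm (Fin (n + 1)))
    (c : Fin (n + 1) → Bool) : ∃ u : List α, ∀ v, act (u.map f) v = sp σ c v := by
  obtain ⟨w, hw⟩ := sp_mem σ c
  refine ⟨w.map (Function.surjInv hf), fun v => ?_⟩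
  rw [List.map_map]
  have : (f ∘ Function.surjInv hf) = id := by
    funext b; exact Function.surjInv_eq hf b
  rw [this, List.map_id]
  exact hw v

lemma act_injective (u : List Bool) : Function.Injective (act (n := n) u) := by
  obtain ⟨σ, c, h⟩ := act_eq_sp (n := n) u
  intro v v' hv
  rw [h, h] at hv
  exact (sp σ c).injective hv

section
variable (A : LVFA α N) (f : α → Bool)

open Classical in
/-- the states of the minimal automaton compatible with the state `q` of `A` -/
noncomputable def X (n : ℕ) (q : Fin N) : Finset (V n) :=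
  univ.filter (fun v => ∃ w, 0 < A.dist w q ∧ state n f w = v)

lemma mem_X {q : Fin N} {v : V n} : v ∈ X A f n q ↔ ∃ w, 0 < A.dist w q ∧ state n f w = v := by
  unfold X; simp

lemma act_mem_X {q q' : Fin N} {u : List α} (h : 0 < P A q u q') {v : V n} (hv : v ∈ X A f n q) :
    act (u.map f) v ∈ X A f n q' := by
  rw [mem_X] at hv ⊢
  obtain ⟨w, hw, rfl⟩ := hv
  exact ⟨w ++ u, dist_append_pos A hw h, state_append f w u⟩

lemma image_subset_X {q q' : Fin N} {u : List α} (h : 0 < P A q u q') :
    (X A f n q).image (act (u.map f)) ⊆ X A f n q' := by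
  classical
  intro v hv
  rw [mem_image] at hv
  obtain ⟨v', hv', rfl⟩ := hv
  exact act_mem_X A f h hv'

lemma card_le_of_P {q q' : Fin N} {u : List α} (h : 0 < P A q u q') :
    (X A f n q).card ≤ (X A f n q').card := by
  classical
  rw [← card_image_of_injective _ (act_injective (n := n) (u.map f))]
  exact card_le_card (image_subset_X A f h)

/-- good states: `X` does not grow -/
def Good (n : ℕ) (q : Fin N) : Prop :=
  (X A f n q).Nonempty ∧ ∀ u q', 0 < P A q u q' → (X A f n q').card = (X A f n q).card

lemma good_closed {q q' : Fin N} {u : List α} (hq : Good A f n q) (h : 0 < P A q u q') :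
    Good A f n q' := by
  classical
  have hc := hq.2 u q' h
  refine ⟨?_, fun u2 q2 h2 => ?_⟩
  · rw [← card_pos, hc, card_pos]; exact hq.1
  · rw [hc]; exact hq.2 (u ++ u2) q2 (P_append_pos A h h2)

lemma exists_good {q : Fin N} (hq : (X A f n q).Nonempty) :
    ∃ u q', 0 < P A q u q' ∧ Good A f n q' := by
  classical
  have hbdd : ∀ m, (∃ u q', 0 < P A q u q' ∧ (X A f n q').card = m) →
      m ≤ Fintype.card (V n) := by
    rintro m ⟨u, q', _, rfl⟩
    exact card_le_univ _
  have hne : ∃ m, ∃ u q', 0 < P A q u q' ∧ (X A f n q').card = m := by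
    refine ⟨_, [], q, ?_, rfl⟩
    unfold P LVFA.evolve
    simp
  obtain ⟨m0, hm0⟩ := hne
  have hspec := Nat.findGreatest_spec (P := fun m => ∃ u q', 0 < P A q u q' ∧
    (X A f n q').card = m) (hbdd m0 hm0) hm0
  set m := Nat.findGreatest (fun m => ∃ u q', 0 < P A q u q' ∧
    (X A f n q').card = m) (Fintype.card (V n)) with hm
  obtain ⟨u, q', h1, h2⟩ := hspec
  refine ⟨u, q', h1, ?_, fun u2 q2 h3 => ?_⟩
  · have := card_le_of_P (n := n) A f h1
    rw [← card_pos]
    have h5 := card_pos.mpr hq
    omega
  · apply le_antisymm _ (card_le_of_P A f h3)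
    rw [h2, hm]
    apply Nat.le_findGreatest (card_le_univ _)
    exact ⟨u ++ u2, q2, P_append_pos A h1 h3, rfl⟩

open Classical in
/-- the mass outside of the good states -/
noncomputable def bad (n : ℕ) (w : List α) : ℝ :=
  ∑ q ∈ univ.filter (fun q => ¬ Good A f n q), A.dist w q

lemma bad_nonneg (w : List α) : 0 ≤ bad A f n w := sum_nonneg fun q _ => dist_nonneg A w q

open Classical in
/-- the probability to be outside of the good states after `u` -/
noncomputable def esc (n : ℕ) (q : Fin N) (u : List α) : ℝ :=
  ∑ q' ∈ univ.filter (fun q => ¬ Good A f n q), P A q u q'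

lemma esc_nonneg (q : Fin N) (u : List α) : 0 ≤ esc A f n q u :=
  sum_nonneg fun q' _ => P_nonneg A q u q'

lemma esc_le_one (q : Fin N) (u : List α) : esc A f n q u ≤ 1 := by
  classical
  unfold esc
  rw [← P_sum A q u]
  exact sum_le_sum_of_subset_of_nonneg (filter_subset _ _) (fun q' _ _ => P_nonneg A q u q')

lemma esc_good {q : Fin N} (hq : Good A f n q) (u : List α) : esc A f n q u = 0 := by
  classical
  unfold esc
  apply sum_eq_zero
  intro q' hq'
  rw [mem_filter] at hq'
  by_contra h
  have h1 : 0 < P A q u q' := lt_of_le_of_ne (P_nonneg A q u q') (Ne.symm h)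
  exact hq'.2 (good_closed A f hq h1)

lemma bad_append (w u : List α) : bad A f n (w ++ u) = ∑ q, A.dist w q * esc A f n q u := by
  classical
  unfold bad esc
  simp only [dist_append, mul_sum]
  rw [sum_comm]

lemma bad_append_le (w u : List α) (q0 : Fin N) (hq0 : ¬ Good A f n q0) :
    bad A f n (w ++ u) ≤ bad A f n w - A.dist w q0 * (1 - esc A f n q0 u) := by
  classical
  rw [bad_append]
  have h1 : ∀ q, A.dist w q * esc A f n q u ≤
      (if ¬ Good A f n q then A.dist w q else 0) -
        (if q = q0 then A.dist w q * (1 - esc A f n q u) else 0) := by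
    intro q
    have hd := dist_nonneg A w q
    have he := esc_le_one (n := n) A f q u
    by_cases hg : Good A f n q
    · have hne : q ≠ q0 := by rintro rfl; exact hq0 hg
      rw [esc_good A f hg]
      simp [hg, hne]
    · by_cases hq : q = q0
      · subst hq
        rw [if_pos hg, if_pos rfl]
        linarith [mul_sub (A.dist w q) 1 (esc A f n q u)]
      · simp only [hg, not_false_eq_true, if_true, hq, if_false, sub_zero]
        calc A.dist w q * esc A f n q u ≤ A.dist w q * 1 := mul_le_mul_of_nonneg_left he hd
          _ = A.dist w q := mul_one _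
  refine (sum_le_sum fun q _ => h1 q).trans ?_
  rw [sum_sub_distrib, ← sum_filter]
  simp only [sum_ite_eq', mem_univ, if_true]
  exact le_rfl

/-- The mass can be driven to the good states. -/
lemma drive (hN : 0 < N) (ε : ℝ) (hε : 0 < ε) : ∃ w, bad A f n w < ε := by
  classical
  by_contra hcon
  push Not at hcon
  have hNr : (0 : ℝ) < N := by exact_mod_cast hN
  -- escape words
  have h1 : ∀ q : Fin N, ∃ u : List α, (X A f n q).Nonempty → esc A f n q u < 1 := by
    intro q
    by_cases hq : (X A f n q).Nonempty
    · obtain ⟨u, q', h2, h3⟩ := exists_good A f hq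
      refine ⟨u, fun _ => ?_⟩
      unfold esc
      rw [← P_sum A q u]
      apply sum_lt_sum_of_subset (filter_subset _ _) (mem_univ q') _ h2
        (fun j _ _ => P_nonneg A q u j)
      simp [h3]
    · exact ⟨[], fun h => absurd h hq⟩
  choose u hu using h1
  -- the minimal gain
  have hη : ∃ η : ℝ, 0 < η ∧ ∀ q : Fin N, (X A f n q).Nonempty → η ≤ 1 - esc A f n q (u q) := by
    let g : Fin N → ℝ := fun q => if (X A f n q).Nonempty then 1 - esc A f n q (u q) else 1
    have hg : ∀ q, 0 < g q := by
      intro q
      simp only [g]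
      split_ifs with h
      · have := hu q h; linarith
      · norm_num
    have : Nonempty (Fin N) := ⟨⟨0, hN⟩⟩
    obtain ⟨q0, hq0⟩ := Finite.exists_min g
    refine ⟨g q0, hg q0, fun q hq => ?_⟩
    have := hq0 q
    simp only [g] at this ⊢
    rw [if_pos hq] at this
    exact this
  obtain ⟨η, hη0, hη⟩ := hη
  set β := sInf (Set.range (bad A f n)) with hβ
  have hbdd : BddBelow (Set.range (bad A f n)) := ⟨0, by rintro _ ⟨w, rfl⟩; exact bad_nonneg A f w⟩
  have hne : (Set.range (bad A f n)).Nonempty := ⟨_, [], rfl⟩
  have hβε : ε ≤ β := le_csInf hne (by rintro _ ⟨w, rfl⟩; exact hcon w)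
  have hβ0 : 0 < β := lt_of_lt_of_le hε hβε
  set δ := β * η / N with hδ
  have hδ0 : 0 < δ := by positivity
  obtain ⟨_, ⟨w, rfl⟩, hw⟩ := exists_lt_of_csInf_lt hne (show β < β + δ by linarith)
  -- a heavy bad state
  have hw0 : β ≤ bad A f n w := csInf_le hbdd ⟨w, rfl⟩
  obtain ⟨q0, hq0, hheavy⟩ : ∃ q, ¬ Good A f n q ∧ bad A f n w / N ≤ A.dist w q := by
    by_contra hno
    push Not at hno
    have hpos : 0 < bad A f n w := lt_of_lt_of_le hβ0 hw0
    have hlt : bad A f n w < ∑ q ∈ univ.filter (fun q => ¬ Good A f n q), bad A f n w / N := by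
      conv_lhs => unfold bad
      apply sum_lt_sum_of_nonempty
      · by_contra hemp
        rw [not_nonempty_iff_eq_empty] at hemp
        have : bad A f n w = 0 := by
          unfold bad; rw [hemp, sum_empty]
        linarith
      · intro q hq
        rw [mem_filter] at hq
        exact hno q hq.2
    rw [sum_const, nsmul_eq_mul] at hlt
    have hcard : ((univ.filter (fun q => ¬ Good A f n q)).card : ℝ) ≤ N := by
      have := card_filter_le (univ : Finset (Fin N)) (fun q => ¬ Good A f n q)
      rw [card_univ, Fintype.card_fin] at this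
      exact_mod_cast this
    have h3 : ((univ.filter (fun q => ¬ Good A f n q)).card : ℝ) * (bad A f n w / N) ≤
        N * (bad A f n w / N) := mul_le_mul_of_nonneg_right hcard (by positivity)
    rw [mul_div_cancel₀ _ hNr.ne'] at h3
    linarith
  have hdist0 : 0 < A.dist w q0 := by
    have : 0 < bad A f n w / N := by
      apply div_pos (lt_of_lt_of_le hβ0 hw0) hNr
    linarith
  have hX : (X A f n q0).Nonempty := ⟨state n f w, by rw [mem_X]; exact ⟨w, hdist0, rfl⟩⟩
  have h4 := bad_append_le A f w (u q0) q0 hq0
  have h5 := hη q0 hX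
  have h6 : β ≤ bad A f n (w ++ u q0) := csInf_le hbdd ⟨_, rfl⟩
  have h7 : δ ≤ A.dist w q0 * (1 - esc A f n q0 (u q0)) := by
    have h8 : β / N ≤ A.dist w q0 := by
      refine le_trans ?_ hheavy
      exact div_le_div_of_nonneg_right hw0 hNr.le
    calc δ = β / N * η := by rw [hδ]; ring
      _ ≤ A.dist w q0 * (1 - esc A f n q0 (u q0)) :=
          mul_le_mul h8 h5 hη0.le (dist_nonneg A w q0)
  linarith

/-- `X q` is constant at the coordinate `i` -/
def Const (n : ℕ) (q : Fin N) (i : Fin (n + 1)) : Prop :=
  ∀ v ∈ X A f n q, ∀ v' ∈ X A f n q, v i = v' i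

open Classical in
/-- the number of the known coordinates -/
noncomputable def known (n : ℕ) (q : Fin N) : ℕ :=
  (univ.filter (fun i => Const A f n q i)).card

open Classical in
lemma half_le (hf : Function.Surjective f) (hA : A.Recognises (lang n f)) (w : List α)
    (i : Fin (n + 1)) :
    1 / 2 ≤ ∑ q ∈ univ.filter (fun q => Const A f n q i), A.dist w q := by
  obtain ⟨u, hu⟩ := exists_word (n := n) hf (Equiv.swap 0 i) zero
  have hu0 : ∀ v : V n, act (u.map f) v 0 = v i := by
    intro v; rw [hu, sp_apply]; simp [zero]
  -- a general bound for the probability of the nonneutral states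
  have key : ∀ b : Bool, ∑ q' ∈ univ.filter (fun q => A.kind q = some b), A.dist (w ++ u) q' ≤
      ∑ q ∈ univ.filter (fun q => Const A f n q i), A.dist w q := by
    intro b
    simp only [dist_append]
    rw [sum_comm]
    rw [sum_filter]
    apply sum_le_sum
    intro q _
    rw [← mul_sum]
    by_cases hc : Const A f n q i
    · rw [if_pos hc]
      have h1 : ∑ q' ∈ univ.filter (fun q => A.kind q = some b), P A q u q' ≤ 1 := by
        rw [← P_sum A q u]
        exact sum_le_sum_of_subset_of_nonneg (filter_subset _ _) (fun q' _ _ => P_nonneg A q u q')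
      calc A.dist w q * _ ≤ A.dist w q * 1 := mul_le_mul_of_nonneg_left h1 (dist_nonneg A w q)
        _ = A.dist w q := mul_one _
    · rw [if_neg hc]
      have h1 : ∑ q' ∈ univ.filter (fun q => A.kind q = some b), P A q u q' = 0 := by
        apply sum_eq_zero
        intro q' hq'
        rw [mem_filter] at hq'
        by_contra h0
        have hpos : 0 < P A q u q' := lt_of_le_of_ne (P_nonneg A q u q') (Ne.symm h0)
        unfold Const at hc
        push Not at hc
        obtain ⟨v, hv, v', hv', hne⟩ := hc
        rw [mem_X] at hv hv'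
        obtain ⟨x, hx, rfl⟩ := hv
        obtain ⟨x', hx', rfl⟩ := hv'
        have p1 := dist_append_pos A hx hpos
        have p2 := dist_append_pos A hx' hpos
        have s1 : state n f (x ++ u) 0 = state n f x i := by rw [state_append, hu0]
        have s2 : state n f (x' ++ u) 0 = state n f x' i := by rw [state_append, hu0]
        have r1 := hA (x ++ u)
        have r2 := hA (x' ++ u)
        rw [mem_lang, s1] at r1
        rw [mem_lang, s2] at r2
        cases e1 : state n f x i <;> cases e2 : state n f x' i
        · rw [e1, e2] at hne; exact hne rfl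
        · have t1 := (r1.2 (by rw [e1]; simp)).1 q' p1
          have t2 := (r2.1 e2).1 q' p2
          cases b
          · exact t2 hq'.2
          · exact t1 hq'.2
        · have t1 := (r1.1 e1).1 q' p1
          have t2 := (r2.2 (by rw [e2]; simp)).1 q' p2
          cases b
          · exact t1 hq'.2
          · exact t2 hq'.2
        · rw [e1, e2] at hne; exact hne rfl
      rw [h1, mul_zero]
  by_cases hmem : w ++ u ∈ lang n f
  · exact ((hA (w ++ u)).1 hmem).2.trans (key true)
  · exact ((hA (w ++ u)).2 hmem).2.trans (key false)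

lemma known_le (q : Fin N) : known A f n q ≤ n + 1 := by
  classical
  unfold known
  refine (card_filter_le _ _).trans ?_
  simp

lemma exists_good_known (hf : Function.Surjective f) (hA : A.Recognises (lang n f))
    (hN : 0 < N) : ∃ q, Good A f n q ∧ n + 1 ≤ 2 * known A f n q := by
  classical
  by_contra hcon
  push Not at hcon
  have hk0 : (0 : ℝ) < (n : ℝ) + 1 := by positivity
  obtain ⟨w, hw⟩ := drive (n := n) A f hN (1 / (2 * ((n : ℝ) + 1))) (by positivity)
  have h1 : ((n : ℝ) + 1) / 2 ≤ ∑ q, A.dist w q * known A f n q := by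
    have h2 : ∑ i : Fin (n + 1), (1 / 2 : ℝ) ≤
        ∑ i : Fin (n + 1), ∑ q ∈ univ.filter (fun q => Const A f n q i), A.dist w q :=
      sum_le_sum fun i _ => half_le A f hf hA w i
    have h3 : ∑ i : Fin (n + 1), ∑ q ∈ univ.filter (fun q => Const A f n q i), A.dist w q =
        ∑ q, A.dist w q * known A f n q := by
      simp only [sum_filter]
      rw [sum_comm]
      refine sum_congr rfl fun q _ => ?_
      rw [← sum_filter, sum_const, nsmul_eq_mul, mul_comm]
      rfl
    rw [h3] at h2
    simp only [sum_const, card_univ, Fintype.card_fin, nsmul_eq_mul] at h2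
    push_cast at h2
    linarith
  have h4 : ∑ q, A.dist w q * known A f n q ≤
      (n : ℝ) / 2 + ((n : ℝ) + 1) * bad A f n w := by
    have h5 : ∀ q, A.dist w q * known A f n q ≤
        A.dist w q * ((n : ℝ) / 2) +
          ((n : ℝ) + 1) * (if ¬ Good A f n q then A.dist w q else 0) := by
      intro q
      have hd := dist_nonneg A w q
      by_cases hg : Good A f n q
      · have h6 := hcon q hg
        have h7 : (2 : ℝ) * known A f n q ≤ n := by exact_mod_cast Nat.lt_succ_iff.mp h6
        simp only [hg, not_true_eq_false, if_false, mul_zero, add_zero]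
        apply mul_le_mul_of_nonneg_left _ hd
        linarith
      · simp only [hg, not_false_eq_true, if_true]
        have h8 : (known A f n q : ℝ) ≤ (n : ℝ) + 1 := by exact_mod_cast known_le (n := n) A f q
        have h9 : (0 : ℝ) ≤ A.dist w q * ((n : ℝ) / 2) := by positivity
        have h10 : A.dist w q * known A f n q ≤ A.dist w q * ((n : ℝ) + 1) :=
          mul_le_mul_of_nonneg_left h8 hd
        linarith
    refine (sum_le_sum fun q _ => h5 q).trans ?_
    rw [sum_add_distrib, ← sum_mul, dist_sum, one_mul, ← mul_sum, ← sum_filter]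
    exact le_rfl
  have h5 : ((n : ℝ) + 1) * bad A f n w < 1 / 2 := by
    calc ((n : ℝ) + 1) * bad A f n w < ((n : ℝ) + 1) * (1 / (2 * ((n : ℝ) + 1))) :=
          mul_lt_mul_of_pos_left hw hk0
      _ = 1 / 2 := by field_simp
  linarith

/-! ### The orbit -/

open Classical in
/-- the types with `s` known coordinates -/
noncomputable def types (n s : ℕ) : Finset (Fin (n + 1) → Option Bool) :=
  univ.filter (fun t => (univ.filter (fun i => t i ≠ none)).card = s)

/-- the state `q` has type `t` -/
def HasType (n : ℕ) (q : Fin N) (t : Fin (n + 1) → Option Bool) : Prop :=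
  (X A f n q).Nonempty ∧ ∀ i, (t i ≠ none ↔ Const A f n q i) ∧
    ∀ b, t i = some b → ∀ v ∈ X A f n q, v i = b

lemma HasType.unique {q : Fin N} {t t' : Fin (n + 1) → Option Bool} (h : HasType A f n q t)
    (h' : HasType A f n q t') : t = t' := by
  funext i
  obtain ⟨v, hv⟩ := h.1
  cases e : t i with
  | none =>
    have h1 : ¬ Const A f n q i := by
      rw [← (h.2 i).1]; simp [e]
    rw [← (h'.2 i).1] at h1
    push Not at h1
    exact h1.symm
  | some b =>
    have h1 : Const A f n q i := by
      rw [← (h.2 i).1]; simp [e]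
    rw [← (h'.2 i).1] at h1
    obtain ⟨b', hb'⟩ := Option.ne_none_iff_exists'.mp h1
    rw [hb', ← (h.2 i).2 b e v hv, ← (h'.2 i).2 b' hb' v hv]

lemma exists_state_of_type (hf : Function.Surjective f) {q : Fin N} (hq : Good A f n q)
    (t : Fin (n + 1) → Option Bool) (ht : t ∈ types n (known A f n q)) :
    ∃ q', HasType A f n q' t := by
  classical
  obtain ⟨v0, hv0⟩ := hq.1
  unfold types at ht
  rw [mem_filter] at ht
  have hcard := ht.2
  unfold known at hcard
  -- a permutation which maps the support of t to the known coordinates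
  let e : {i // t i ≠ none} ≃ {i // Const A f n q i} := by
    apply Fintype.equivOfCardEq
    rw [Fintype.card_subtype, Fintype.card_subtype]
    exact hcard
  let σ : Equiv.Perm (Fin (n + 1)) := e.extendSubtype
  have hσ : ∀ i, t i ≠ none ↔ Const A f n q (σ i) := by
    intro i
    constructor
    · intro h
      exact e.extendSubtype_mem i h
    · intro h
      by_contra h'
      exact e.extendSubtype_not_mem i (fun h2 => h2 h') h
  let c : Fin (n + 1) → Bool := fun i => xor ((t i).getD false) (v0 (σ i))
  obtain ⟨u, hu⟩ := exists_word (n := n) hf σ c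
  -- a state reached by u
  obtain ⟨q', hq'⟩ : ∃ q', 0 < P A q u q' := by
    by_contra hno
    push Not at hno
    have h1 := P_sum A q u
    have h2 : ∑ q', P A q u q' ≤ 0 := sum_nonpos fun q' _ => hno q'
    linarith
  have hX : X A f n q' = (X A f n q).image (act (u.map f)) := by
    symm
    apply eq_of_subset_of_card_le (image_subset_X A f hq')
    rw [card_image_of_injective _ (act_injective (n := n) (u.map f)), hq.2 u q' hq']
  have hmem : ∀ v', v' ∈ X A f n q' ↔ ∃ v ∈ X A f n q, sp σ c v = v' := by
    intro v'
    rw [hX, mem_image]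
    constructor
    · rintro ⟨v, hv, rfl⟩; exact ⟨v, hv, (hu v).symm⟩
    · rintro ⟨v, hv, rfl⟩; exact ⟨v, hv, hu v⟩
  refine ⟨q', ⟨sp σ c v0, (hmem _).mpr ⟨v0, hv0, rfl⟩⟩, fun i => ⟨?_, ?_⟩⟩
  · rw [hσ]
    unfold Const
    constructor
    · intro h v hv v' hv'
      obtain ⟨a, ha, rfl⟩ := (hmem v).mp hv
      obtain ⟨a', ha', rfl⟩ := (hmem v').mp hv'
      rw [sp_apply, sp_apply, h a ha a' ha']
    · intro h a ha a' ha'
      have h1 := h _ ((hmem _).mpr ⟨a, ha, rfl⟩) _ ((hmem _).mpr ⟨a', ha', rfl⟩)
      rw [sp_apply, sp_apply] at h1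
      have h2 := congrArg (fun b => xor b (c i)) h1
      simpa [Bool.xor_assoc] using h2
  · intro b hb v hv
    obtain ⟨a, ha, rfl⟩ := (hmem v).mp hv
    have h1 : Const A f n q (σ i) := (hσ i).mp (by rw [hb]; simp)
    rw [sp_apply, h1 a ha v0 hv0]
    simp only [c, hb, Option.getD_some]
    cases b <;> cases (v0 (σ i)) <;> rfl

end

lemma choose_ge (r : ℕ) : ∀ m, 2 * r ≤ m → 2 ^ r ≤ m.choose r := by
  induction r with
  | zero => intro m _; simp
  | succ r ih =>
    intro m hm
    obtain ⟨m, rfl⟩ : ∃ m', m = m' + 1 := ⟨m - 1, by omega⟩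
    have h1 := ih m (by omega)
    have h2 : (m + 1) * m.choose r = (m + 1).choose (r + 1) * (r + 1) :=
      Nat.add_one_mul_choose_eq m r
    have h3 : 2 * (r + 1) * (m.choose r) ≤ (m + 1).choose (r + 1) * (r + 1) := by
      rw [← h2]
      exact Nat.mul_le_mul_right _ hm
    have h4 : 2 * m.choose r ≤ (m + 1).choose (r + 1) := by
      have h5 : (2 * m.choose r) * (r + 1) ≤ (m + 1).choose (r + 1) * (r + 1) := by
        calc (2 * m.choose r) * (r + 1) = 2 * (r + 1) * (m.choose r) := by ring
          _ ≤ _ := h3
      exact Nat.le_of_mul_le_mul_right h5 (by omega)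
    calc 2 ^ (r + 1) = 2 * 2 ^ r := by ring
      _ ≤ 2 * m.choose r := by omega
      _ ≤ _ := h4

lemma card_types (n s : ℕ) (hs : s ≤ n + 1) (h2 : n + 1 ≤ 2 * s) : 2 ^ (n + 1) ≤ (types n s).card := by
  classical
  -- injection from pairs (J, values)
  let S : Finset (Finset (Fin (n + 1))) := powersetCard s univ
  let T : Finset (Fin (n + 1)) → Finset (Fin (n + 1) → Option Bool) := fun J =>
    Fintype.piFinset (fun i => if i ∈ J then ({some true, some false} : Finset (Option Bool))
      else {none})
  have hT : ∀ J, (T J).card = 2 ^ J.card := by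
    intro J
    simp only [T]
    rw [Fintype.card_piFinset]
    have h3 : ∀ i, (if i ∈ J then ({some true, some false} : Finset (Option Bool))
        else {none}).card = if i ∈ J then 2 else 1 := by
      intro i; split_ifs <;> rfl
    simp only [h3]
    rw [prod_ite]
    simp
  have hsupp : ∀ J, ∀ t ∈ T J, univ.filter (fun i => t i ≠ none) = J := by
    intro J t ht
    simp only [T, Fintype.mem_piFinset] at ht
    ext i
    rw [mem_filter]
    constructor
    · rintro ⟨_, h⟩
      by_contra hi
      have := ht i
      rw [if_neg hi, mem_singleton] at this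
      exact h this
    · intro hi
      refine ⟨mem_univ _, ?_⟩
      have := ht i
      rw [if_pos hi] at this
      intro h
      rw [h] at this
      simp at this
  have hsub : S.biUnion T ⊆ types n s := by
    intro t ht
    rw [mem_biUnion] at ht
    obtain ⟨J, hJ, ht⟩ := ht
    simp only [S, mem_powersetCard] at hJ
    unfold types
    rw [mem_filter]
    refine ⟨mem_univ _, ?_⟩
    have h5 := hsupp J t ht
    rw [h5]; exact hJ.2
  have hcard : (S.biUnion T).card = (n + 1).choose s * 2 ^ s := by
    rw [card_biUnion]
    · rw [sum_congr rfl (g := fun _ => 2 ^ s)]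
      · rw [sum_const, smul_eq_mul]
        simp [S]
      · intro J hJ
        simp only [S, mem_powersetCard] at hJ
        rw [hT, hJ.2]
    · intro J _ J' _ hne
      change Disjoint (T J) (T J')
      rw [Finset.disjoint_left]
      intro t ht ht'
      apply hne
      rw [← hsupp J t ht, ← hsupp J' t ht']
  have h3 := card_le_card hsub
  rw [hcard] at h3
  refine le_trans ?_ h3
  have h4 : (n + 1).choose s = (n + 1).choose (n + 1 - s) := (Nat.choose_symm hs).symm
  rw [h4]
  have h5 := choose_ge (n + 1 - s) (n + 1) (by omega)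
  calc 2 ^ (n + 1) = 2 ^ (n + 1 - s) * 2 ^ s := by rw [← pow_add]; congr 1; omega
    _ ≤ (n + 1).choose (n + 1 - s) * 2 ^ s := Nat.mul_le_mul_right _ h5

/-- **Lower bound.** -/
theorem lower_bound {f : α → Bool} (hf : Function.Surjective f) (A : LVFA α N)
    (hA : A.Recognises (lang n f)) : 2 ^ (n + 1) ≤ N := by
  classical
  have hN : 0 < N := lt_of_le_of_lt (Nat.zero_le _) A.start.2
  obtain ⟨q, hq, hk⟩ := exists_good_known A f hf hA hN
  have h1 := card_types n (known A f n q) (known_le A f q) hk
  refine h1.trans ?_
  have h2 : ∀ t ∈ types n (known A f n q), ∃ q', HasType A f n q' t :=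
    fun t ht => exists_state_of_type A f hf hq t ht
  have : Nonempty (Fin N) := ⟨q⟩
  choose! g hg using h2
  have h3 : (types n (known A f n q)).card ≤ (univ : Finset (Fin N)).card := by
    apply card_le_card_of_injOn g (fun _ _ => mem_univ _)
    intro t ht t' ht' htt
    have h4 := hg t ht
    rw [htt] at h4
    exact HasType.unique A f h4 (hg t' ht')
  simpa using h3

end Pool.Agent.Q327.LV
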