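import Mathlib

/-!
Two-dimensional lattices `{(g A - k Q, g)}`: shortest vectors, counting, and small vectors whose
second coordinate is prime to `N`.
-/

set_option autoImplicit false

namespace Pool.Agent.Q327.NAdic

open Finset

/-- The sup norm of the vector `(g A - k Q, g)`. -/
def nu (A Q k g : ℤ) : ℕ := max (g * A - k * Q).natAbs g.natAbs

lemma nu_pos {A Q k g : ℤ} (hQ : 0 < Q) (h : ¬ (k = 0 ∧ g = 0)) : 0 < nu A Q k g := by
  unfold nu
  by_contra hc
  have h1 : (g * A - k * Q).natAbs = 0 := by omega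
  have h2 : g.natAbs = 0 := by omega
  rw [Int.natAbs_eq_zero] at h1 h2
  subst h2
  apply h
  refine ⟨?_, rfl⟩
  have h3 : k * Q = 0 := by linarith
  rcases mul_eq_zero.mp h3 with h4 | h4
  · exact h4
  · omega

/-- The set of norms of nonzero vectors. -/
def norms (A Q : ℤ) : Set ℕ := {m | ∃ k g : ℤ, ¬ (k = 0 ∧ g = 0) ∧ m = nu A Q k g}

/-- The norm of a shortest nonzero vector. -/
noncomputable def mu (A Q : ℤ) : ℕ := sInf (norms A Q)

lemma norms_nonempty (A Q : ℤ) : (norms A Q).Nonempty :=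
  ⟨nu A Q 1 1, 1, 1, by simp, rfl⟩

lemma mu_mem (A Q : ℤ) : mu A Q ∈ norms A Q := Nat.sInf_mem (norms_nonempty A Q)

lemma mu_le {A Q k g : ℤ} (h : ¬ (k = 0 ∧ g = 0)) : mu A Q ≤ nu A Q k g :=
  Nat.sInf_le ⟨k, g, h, rfl⟩

lemma mu_pos {A Q : ℤ} (hQ : 0 < Q) : 0 < mu A Q := by
  obtain ⟨k, g, h, e⟩ := mu_mem A Q
  rw [e]
  exact nu_pos hQ h

/-- Thue / Minkowski: the shortest vector has `μ² ≤ Q`. -/
lemma mu_sq_le (A : ℤ) (Q : ℕ) (hQ : 0 < Q) : mu A Q ^ 2 ≤ Q := by
  set s := Nat.sqrt Q with hs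
  have h1 : Q < (s + 1) ^ 2 := by
    have := Nat.lt_succ_sqrt Q
    rw [pow_two]; exact this
  have h2 : s ^ 2 ≤ Q := by
    have := Nat.sqrt_le Q
    rw [pow_two]; exact this
  -- pigeonhole
  let F : ℕ × ℕ → ℤ := fun p => ((p.1 : ℤ) - p.2 * A) % Q
  have hmaps : ∀ p ∈ (range (s + 1) ×ˢ range (s + 1)), F p ∈ Finset.Ico (0 : ℤ) Q := by
    intro p _
    rw [Finset.mem_Ico]
    exact ⟨Int.emod_nonneg _ (by omega), Int.emod_lt_of_pos _ (by omega)⟩
  have hcard : (Finset.Ico (0 : ℤ) Q).card < (range (s + 1) ×ˢ range (s + 1)).card := by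
    rw [card_product, card_range, Int.card_Ico]
    have : (s + 1) * (s + 1) = (s + 1) ^ 2 := by ring
    rw [this]
    simpa using h1
  obtain ⟨p, hp, q, hq, hne, heq⟩ :=
    Finset.exists_ne_map_eq_of_card_lt_of_maps_to hcard hmaps
  rw [mem_product, mem_range, mem_range] at hp hq
  -- difference
  have hmod : ((q.1 : ℤ) - q.2 * A) ≡ ((p.1 : ℤ) - p.2 * A) [ZMOD (Q : ℤ)] := heq.symm
  have hdvd : (Q : ℤ) ∣ ((p.1 : ℤ) - p.2 * A) - ((q.1 : ℤ) - q.2 * A) := hmod.dvd
  obtain ⟨k, hk⟩ := hdvd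
  -- vector : g = p2 - q2, f = p1 - q1 = g A + k Q
  have hvec : ¬ ((-k : ℤ) = 0 ∧ ((p.2 : ℤ) - q.2) = 0) := by
    rintro ⟨h3, h4⟩
    have h5 : k = 0 := by omega
    rw [h5] at hk
    apply hne
    have h6 : (p.2 : ℤ) = q.2 := by omega
    have h7 : (p.1 : ℤ) = q.1 := by
      rw [h6] at hk; linarith
    ext
    · exact_mod_cast h7
    · exact_mod_cast h6
  have h8 := mu_le (A := A) (Q := (Q : ℤ)) hvec
  have h9 : nu A Q (-k) ((p.2 : ℤ) - q.2) ≤ s := by
    unfold nu
    have h10 : ((p.2 : ℤ) - q.2) * A - -k * Q = (p.1 : ℤ) - q.1 := by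
      linear_combination (-1 : ℤ) * hk
    rw [h10]
    omega
  calc mu A Q ^ 2 ≤ s ^ 2 := Nat.pow_le_pow_left (h8.trans h9) 2
    _ ≤ Q := h2

/-- Counting for one value of `g`. -/
lemma count_one (Q M g : ℕ) (hQ : 0 < Q) (hg : 0 < g) (S : Finset ℕ)
    (hS : ∀ A ∈ S, A < Q ∧ ∃ f : ℤ, f.natAbs ≤ M ∧ (Q : ℤ) ∣ g * A - f) :
    S.card ≤ 2 * M + g := by
  classical
  set d := Nat.gcd g Q with hd
  have hd0 : 0 < d := Nat.gcd_pos_of_pos_left _ hg
  obtain ⟨g', hg'⟩ : d ∣ g := Nat.gcd_dvd_left g Q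
  obtain ⟨Q', hQ'⟩ : d ∣ Q := Nat.gcd_dvd_right g Q
  have hQ'0 : 0 < Q' := by
    rcases Nat.eq_zero_or_pos Q' with h | h
    · rw [h] at hQ'; omega
    · exact h
  have hcop : Nat.Coprime g' Q' := by
    have h1 : Nat.gcd (d * g') (d * Q') = d := by rw [← hg', ← hQ']
    rw [Nat.gcd_mul_left] at h1
    have h2 : d * Nat.gcd g' Q' = d * 1 := by rw [h1]; ring
    exact Nat.eq_of_mul_eq_mul_left hd0 h2
  choose! hA F hF hFd using hS
  let G : ℕ → ℤ × ℕ := fun A => (F A / d, A / Q')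
  have hdF : ∀ A ∈ S, (d : ℤ) * (F A / d) = F A := by
    intro A hAS
    apply Int.mul_ediv_cancel'
    have h1 : (d : ℤ) ∣ g * A - F A := by
      refine dvd_trans ?_ (hFd A hAS)
      exact_mod_cast Nat.gcd_dvd_right g Q
    have h2 : (d : ℤ) ∣ (g : ℤ) * A := by
      refine Dvd.dvd.mul_right ?_ _
      exact_mod_cast Nat.gcd_dvd_left g Q
    have h3 := dvd_sub h2 h1
    simpa using h3
  have hmaps : ∀ A ∈ S, G A ∈ (Finset.Icc (-((M / d : ℕ) : ℤ)) ((M / d : ℕ) : ℤ)) ×ˢ range d := by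
    intro A hAS
    rw [mem_product, Finset.mem_Icc, mem_range]
    have h1 := hdF A hAS
    have h2 := hF A hAS
    have h3 : (F A / d).natAbs ≤ M / d := by
      rw [Nat.le_div_iff_mul_le hd0]
      have h4 : ((d : ℤ) * (F A / d)).natAbs = d * (F A / d).natAbs := by
        rw [Int.natAbs_mul]; simp
      rw [h1] at h4
      calc (F A / d).natAbs * d = (F A).natAbs := by rw [h4]; ring
        _ ≤ M := h2
    refine ⟨by simp only [G]; omega, ?_⟩
    simp only [G]
    rw [Nat.div_lt_iff_lt_mul hQ'0]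
    rw [← hQ']
    exact hA A hAS
  have hinj : Set.InjOn G S := by
    intro A hAS B hBS hAB
    simp only [G, Prod.mk.injEq] at hAB
    obtain ⟨h1, h2⟩ := hAB
    have h3 : F A = F B := by rw [← hdF A hAS, ← hdF B hBS, h1]
    have h4 : (Q : ℤ) ∣ g * ((A : ℤ) - B) := by
      have h40 := dvd_sub (hFd A hAS) (hFd B hBS)
      rw [h3] at h40
      have h41 : (g : ℤ) * ((A : ℤ) - B) = (g : ℤ) * A - F B - ((g : ℤ) * B - F B) := by ring
      rw [h41]; exact h40
    have h5 : (Q' : ℤ) ∣ g' * ((A : ℤ) - B) := by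
      have h6 : ((d * Q' : ℕ) : ℤ) ∣ ((d * g' : ℕ) : ℤ) * ((A : ℤ) - B) := by
        rw [← hQ', ← hg']; exact h4
      push_cast at h6
      rw [mul_assoc] at h6
      exact Int.dvd_of_mul_dvd_mul_left (by exact_mod_cast hd0.ne') h6 
    have h6 : (Q' : ℤ) ∣ (A : ℤ) - B := by
      refine IsCoprime.dvd_of_dvd_mul_left ?_ h5
      exact (Nat.isCoprime_iff_coprime.mpr hcop).symm
    have h7 : A % Q' = B % Q' := by
      have := (Int.emod_emod_of_dvd (A : ℤ) (dvd_refl (Q' : ℤ)))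
      have h8 : (B : ℤ) ≡ A [ZMOD Q'] := Int.modEq_iff_dvd.mpr h6
      have h9 := (Int.natCast_modEq_iff.mp h8)
      exact h9.symm
    calc A = Q' * (A / Q') + A % Q' := (Nat.div_add_mod A Q').symm
      _ = Q' * (B / Q') + B % Q' := by rw [h2, h7]
      _ = B := Nat.div_add_mod B Q'
  have hcard := Finset.card_le_card_of_injOn G hmaps hinj
  rw [card_product, card_range, Int.card_Icc] at hcard
  have h1 : (((M / d : ℕ) : ℤ) + 1 - -((M / d : ℕ) : ℤ)).toNat = 2 * (M / d) + 1 := by omega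
  rw [h1] at hcard
  have h2 : (M / d) * d ≤ M := Nat.div_mul_le_self M d
  have h3 : d ≤ g := Nat.gcd_le_left _ hg
  calc S.card ≤ (2 * (M / d) + 1) * d := hcard
    _ = 2 * ((M / d) * d) + d := by ring
    _ ≤ 2 * M + g := by omega

/-- The number of residues `A` whose lattice contains a nonzero vector of norm at most `M` is at
most `3 M²`. -/
lemma count_short (Q M : ℕ) (hQ : 0 < Q) (S : Finset ℕ)
    (hS : ∀ A ∈ S, A < Q ∧ mu A Q ≤ M) : S.card ≤ 3 * M ^ 2 := by
  classical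
  rcases Nat.lt_or_ge M Q with hMQ | hMQ
  · have hsub : S ⊆ (Finset.Icc 1 M).biUnion (fun g =>
        (range Q).filter (fun A : ℕ => ∃ f : ℤ, f.natAbs ≤ M ∧ (Q : ℤ) ∣ (g : ℤ) * (A : ℤ) - f)) := by
      intro A hA
      obtain ⟨hAQ, hmu⟩ := hS A hA
      obtain ⟨k, g, hne, e⟩ := mu_mem (A : ℤ) (Q : ℤ)
      rw [e] at hmu
      unfold nu at hmu
      have h1 : ((g * A - k * Q : ℤ)).natAbs ≤ M := le_trans (le_max_left _ _) hmu
      have h2 : g.natAbs ≤ M := le_trans (le_max_right _ _) hmu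
      have hg : g ≠ 0 := by
        intro h0
        subst h0
        apply hne
        refine ⟨?_, rfl⟩
        by_contra hk
        have h3 : ((0 * A - k * Q : ℤ)).natAbs = k.natAbs * Q := by
          rw [show (0 * A - k * Q : ℤ) = -(k * Q) by ring, Int.natAbs_neg, Int.natAbs_mul]
          simp
        rw [h3] at h1
        have h4 : 1 ≤ k.natAbs := by omega
        have : 1 * Q ≤ k.natAbs * Q := Nat.mul_le_mul_right _ h4
        omega
      rw [mem_biUnion]
      refine ⟨g.natAbs, ?_, ?_⟩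
      · rw [Finset.mem_Icc]; omega
      · rw [mem_filter, mem_range]
        refine ⟨hAQ, ?_⟩
        rcases Int.natAbs_eq g with hg1 | hg1
        · refine ⟨g * A - k * Q, h1, ?_⟩
          rw [← hg1]
          exact ⟨k, by ring⟩
        · refine ⟨-(g * A - k * Q), by rw [Int.natAbs_neg]; exact h1, ?_⟩
          have hg2 : (g.natAbs : ℤ) = -g := by omega
          rw [hg2]
          exact ⟨-k, by ring⟩
    calc S.card ≤ _ := card_le_card hsub
      _ ≤ ∑ g ∈ Finset.Icc 1 M, ((range Q).filter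
            (fun A : ℕ => ∃ f : ℤ, f.natAbs ≤ M ∧ (Q : ℤ) ∣ (g : ℤ) * (A : ℤ) - f)).card := card_biUnion_le
      _ ≤ ∑ g ∈ Finset.Icc 1 M, (3 * M) := by
          refine sum_le_sum fun g hg => ?_
          rw [Finset.mem_Icc] at hg
          have h0 := count_one Q M g hQ (by omega) ((range Q).filter (fun A : ℕ =>
            ∃ f : ℤ, f.natAbs ≤ M ∧ (Q : ℤ) ∣ (g : ℤ) * (A : ℤ) - f)) (by
              intro A hA
              rw [mem_filter, mem_range] at hA
              exact hA)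
          omega
      _ = 3 * M ^ 2 := by
          rw [sum_const, Nat.card_Icc, smul_eq_mul]
          simp only [Nat.add_sub_cancel]
          ring
  · have h1 : S ⊆ range Q := by
      intro A hA
      rw [mem_range]; exact (hS A hA).1
    have h2 := card_le_card h1
    rw [card_range] at h2
    have h3 : Q ≤ M ^ 2 := by
      calc Q ≤ M := hMQ
        _ ≤ M ^ 2 := by
          rw [pow_two]
          exact Nat.le_mul_self M
    omega

/-- Reduction: among `w + c w'` (`w' = (a,b)` with `|a| > 0`) choose the first coordinate at most `|a|`. -/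
lemma exists_reduce (a x : ℤ) (ha : a ≠ 0) : ∃ c : ℤ, |x - c * a| ≤ |a| := by
  refine ⟨x / a, ?_⟩
  have h1 : x - x / a * a = x % a := by
    have := Int.emod_def x a
    rw [this]; ring
  rw [h1]
  have h2 := Int.emod_nonneg x ha
  have h3 := Int.emod_lt_abs x ha
  rw [abs_of_nonneg h2]
  exact h3.le

/-- The existence of a small admissible vector. -/
lemma good_vector (N : ℕ) (hN : 2 ≤ N) (A : ℤ) (Q : ℕ) (hQ : 0 < Q) :
    ∃ f g : ℤ, 0 < g ∧ IsCoprime g N ∧ (Q : ℤ) ∣ g * A - f ∧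
      max |f| |g| * mu A Q ≤ 3 * (N - 1) * Q := by
  obtain ⟨k1, g1, hne, e⟩ := mu_mem A (Q : ℤ)
  set m : ℤ := (mu A Q : ℤ) with hm
  have hm0 : 0 < m := by
    rw [hm]
    exact_mod_cast mu_pos (A := A) (Q := (Q : ℤ)) (by exact_mod_cast hQ)
  have hmsq : m ^ 2 ≤ Q := by
    rw [hm]; exact_mod_cast mu_sq_le A Q hQ
  set f1 : ℤ := g1 * A - k1 * Q with hf1
  have hmax : m = max |f1| |g1| := by
    rw [hm, e]
    unfold nu
    rw [← hf1]
    push_cast
    simp
  -- coprimality
  have hcop : IsCoprime k1 g1 := by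
    rw [Int.isCoprime_iff_gcd_eq_one]
    by_contra hgcd
    set d := Int.gcd k1 g1 with hd
    have hd0 : d ≠ 0 := by
      intro h
      rw [hd, Int.gcd_eq_zero_iff] at h
      exact hne h
    obtain ⟨k', hk'⟩ : (d : ℤ) ∣ k1 := Int.gcd_dvd_left _ _
    obtain ⟨g', hg'⟩ : (d : ℤ) ∣ g1 := Int.gcd_dvd_right _ _
    have hne' : ¬ (k' = 0 ∧ g' = 0) := by
      rintro ⟨h1, h2⟩
      apply hne
      rw [hk', hg', h1, h2]; simp
    have h1 := mu_le (A := A) (Q := (Q : ℤ)) hne'
    have h2 : mu A Q = d * nu A Q k' g' := by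
      rw [e]
      unfold nu
      have h3 : (g1 * A - k1 * Q).natAbs = d * (g' * A - k' * Q).natAbs := by
        have h31 : g1 * A - k1 * Q = d * (g' * A - k' * Q) := by
          rw [hk', hg']; ring
        rw [h31, Int.natAbs_mul, Int.natAbs_natCast]
      have h4 : g1.natAbs = d * g'.natAbs := by
        rw [hg', Int.natAbs_mul, Int.natAbs_natCast]
      rw [h3, h4, Nat.mul_max_mul_left]
    have h3 : 2 ≤ d := by omega
    have h4 := mu_pos (A := A) (Q := (Q : ℤ)) (by exact_mod_cast hQ)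
    have h5 : 2 * nu A Q k' g' ≤ mu A Q := by
      rw [h2]; exact Nat.mul_le_mul_right _ h3
    omega
  obtain ⟨u, v, huv⟩ := hcop
  -- w2 = (k2, g2) with k1 g2 - k2 g1 = 1 : take g2 = u, k2 = -v
  -- choose c to reduce
  obtain ⟨k2, g2, hdet, hf2, hg2⟩ : ∃ k2 g2 : ℤ, k1 * g2 - k2 * g1 = 1 ∧
      |g2 * A - k2 * Q| * m ≤ 2 * Q ∧ |g2| * m ≤ 2 * Q := by
    by_cases hcase : |g1| ≤ |f1|
    · have hmf : m = |f1| := by rw [hmax]; exact max_eq_left hcase
      have hf10 : f1 ≠ 0 := by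
        intro h
        rw [hmf, h] at hm0; simp at hm0
      obtain ⟨c, hc⟩ := exists_reduce f1 (u * A - (-v) * Q) hf10
      refine ⟨-v - c * k1, u - c * g1, by linear_combination huv, ?_, ?_⟩
      · have h1 : (u - c * g1) * A - (-v - c * k1) * Q = (u * A - (-v) * Q) - c * f1 := by
          rw [hf1]; ring
        rw [h1]
        calc |u * A - -v * Q - c * f1| * m ≤ |f1| * m := by
              exact mul_le_mul_of_nonneg_right hc hm0.le
          _ = m ^ 2 := by rw [← hmf]; ring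
          _ ≤ 2 * Q := by linarith
      · -- f1 g2 - f2 g1 = -Q ... 
        set f2 : ℤ := (u * A - (-v) * Q) - c * f1 with hf2def
        set g2 : ℤ := u - c * g1 with hg2def
        have h2 : f1 * g2 = f2 * g1 - Q := by
          rw [hf2def, hg2def, hf1]
          linear_combination (-(Q : ℤ)) * huv
        have h3 : |g2| * m = |f2 * g1 - Q| := by
          rw [hmf, ← abs_mul, mul_comm, h2]
        rw [h3]
        calc |f2 * g1 - (Q : ℤ)| ≤ |f2 * g1| + |(Q : ℤ)| := abs_sub _ _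
          _ = |f2| * |g1| + Q := by rw [abs_mul, abs_of_nonneg (by positivity : (0 : ℤ) ≤ Q)]
          _ ≤ m * m + Q := by
              have : |f2| ≤ m := by rw [hmf]; exact hc
              have h5 : |g1| ≤ m := by rw [hmf]; exact hcase
              have := mul_le_mul this h5 (abs_nonneg _) hm0.le
              linarith
          _ ≤ 2 * Q := by nlinarith
    · push Not at hcase
      have hmf : m = |g1| := by rw [hmax]; exact max_eq_right hcase.le
      have hg10 : g1 ≠ 0 := by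
        intro h
        rw [hmf, h] at hm0; simp at hm0
      obtain ⟨c, hc⟩ := exists_reduce g1 u hg10
      refine ⟨-v - c * k1, u - c * g1, by linear_combination huv, ?_, ?_⟩
      · set f2 : ℤ := (u - c * g1) * A - (-v - c * k1) * Q with hf2def
        set g2 : ℤ := u - c * g1 with hg2def
        have h2 : f2 * g1 = f1 * g2 + Q := by
          rw [hf2def, hf1, hg2def]
          linear_combination (Q : ℤ) * huv
        have h3 : |f2| * m = |f1 * g2 + Q| := by
          rw [hmf, ← abs_mul, h2]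
        rw [h3]
        calc |f1 * g2 + (Q : ℤ)| ≤ |f1 * g2| + |(Q : ℤ)| := abs_add_le _ _
          _ = |f1| * |g2| + Q := by rw [abs_mul, abs_of_nonneg (by positivity : (0 : ℤ) ≤ Q)]
          _ ≤ m * m + Q := by
              have h4 : |g2| ≤ m := by rw [hmf]; exact hc
              have h5 : |f1| ≤ m := by rw [hmf]; exact hcase.le
              have := mul_le_mul h5 h4 (abs_nonneg _) hm0.le
              linarith
          _ ≤ 2 * Q := by nlinarith
      · calc |u - c * g1| * m ≤ |g1| * m := mul_le_mul_of_nonneg_right hc hm0.le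
          _ = m ^ 2 := by rw [← hmf]; ring
          _ ≤ 2 * Q := by linarith
  -- combine
  have hNpos : (0 : ℤ) < N := by exact_mod_cast (by omega : 0 < N)
  set x : ℤ := (-k2) % N with hx
  set y : ℤ := k1 % N with hy
  have hx0 : 0 ≤ x := Int.emod_nonneg _ hNpos.ne'
  have hx1 : x ≤ N - 1 := by have := Int.emod_lt_of_pos (-k2) hNpos; omega
  have hy0 : 0 ≤ y := Int.emod_nonneg _ hNpos.ne'
  have hy1 : y ≤ N - 1 := by have := Int.emod_lt_of_pos k1 hNpos; omega
  set f2 : ℤ := g2 * A - k2 * Q with hf2d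
  set G : ℤ := x * g1 + y * g2 with hG
  set F : ℤ := x * f1 + y * f2 with hF
  have hFG : (Q : ℤ) ∣ G * A - F := ⟨x * k1 + y * k2, by rw [hG, hF, hf1, hf2d]; ring⟩
  have hG1 : ∃ z : ℤ, G = 1 + z * N := by
    obtain ⟨z1, hz1⟩ : ∃ z1 : ℤ, x = -k2 + z1 * N := by
      refine ⟨-((-k2) / N), ?_⟩
      rw [hx, Int.emod_def]; ring
    obtain ⟨z2, hz2⟩ : ∃ z2 : ℤ, y = k1 + z2 * N := by
      refine ⟨-(k1 / N), ?_⟩
      rw [hy, Int.emod_def]; ring
    refine ⟨z1 * g1 + z2 * g2, ?_⟩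
    rw [hG, hz1, hz2]
    linear_combination hdet
  obtain ⟨z, hz⟩ := hG1
  have hGne : G ≠ 0 := by
    intro h
    rw [h] at hz
    have h1 : (N : ℤ) ∣ 1 := ⟨-z, by linarith⟩
    have := Int.le_of_dvd one_pos h1
    omega
  have hcopG : IsCoprime G (N : ℤ) := ⟨1, -z, by rw [hz]; ring⟩
  have hbound : max |F| |G| * m ≤ 3 * (N - 1) * Q := by
    have hb : ∀ p q : ℤ, |p| ≤ m → |q| * m ≤ 2 * Q → |x * p + y * q| * m ≤ 3 * (N - 1) * Q := by
      intro p q hp hq
      have h1 : |x * p + y * q| ≤ x * |p| + y * |q| := by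
        calc |x * p + y * q| ≤ |x * p| + |y * q| := abs_add_le _ _
          _ = x * |p| + y * |q| := by rw [abs_mul, abs_mul, abs_of_nonneg hx0, abs_of_nonneg hy0]
      have h2 : x * |p| ≤ (N - 1) * m := mul_le_mul hx1 hp (abs_nonneg _) (by omega)
      have h3 : y * (|q| * m) ≤ (N - 1) * (2 * Q) :=
        mul_le_mul hy1 hq (by positivity) (by omega)
      calc |x * p + y * q| * m ≤ (x * |p| + y * |q|) * m := mul_le_mul_of_nonneg_right h1 hm0.le
        _ = (x * |p|) * m + y * (|q| * m) := by ring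
        _ ≤ ((N - 1) * m) * m + (N - 1) * (2 * Q) := by
            have := mul_le_mul_of_nonneg_right h2 hm0.le
            linarith
        _ = (N - 1) * (m ^ 2 + 2 * Q) := by ring
        _ ≤ (N - 1) * (3 * Q) := by
            apply mul_le_mul_of_nonneg_left _ (by omega)
            linarith
        _ = 3 * (N - 1) * Q := by ring
    have h1 : |f1| ≤ m := by rw [hmax]; exact le_max_left _ _
    have h2 : |g1| ≤ m := by rw [hmax]; exact le_max_right _ _
    rcases le_total |F| |G| with h | h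
    · rw [max_eq_right h, hG]; exact hb g1 g2 h2 hg2
    · rw [max_eq_left h, hF]; exact hb f1 f2 h1 hf2
  rcases lt_or_gt_of_ne hGne with hneg | hpos
  · refine ⟨-F, -G, by omega, hcopG.neg_left, ?_, ?_⟩
    · have h50 : -G * A - -F = -(G * A - F) := by ring
      rw [h50]; exact hFG.neg_right
    · rw [abs_neg, abs_neg]; exact hbound
  · exact ⟨F, G, hpos, hcopG, hFG, hbound⟩

end Pool.Agent.Q327.NAdic
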