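import Mathlib

/-!
A packing bound: a `δ`-separated set in the ball of radius `T` of a `k`-dimensional subspace has at
most `(1 + 2 T / δ)^k` elements.
-/

set_option autoImplicit false

namespace Pool.Agent.Q327

open MeasureTheory Metric Module Set Filter ENNReal

section

variable {E : Type*} [NormedAddCommGroup E] [NormedSpace ℝ E] [FiniteDimensional ℝ E]

open scoped Function in
theorem card_le_of_separated (s : Finset E) (T δ : ℝ) (hδ : 0 < δ) (hT : 0 ≤ T)
    (hs : ∀ c ∈ s, ‖c‖ ≤ T)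
    (h : ∀ c ∈ s, ∀ d ∈ s, c ≠ d → δ ≤ ‖c - d‖) :
    (s.card : ℝ) * (δ / 2) ^ finrank ℝ E ≤ (T + δ / 2) ^ finrank ℝ E := by
  borelize E
  let μ : Measure E := Measure.addHaar
  let δ' : ℝ := δ / 2
  let ρ : ℝ := T + δ / 2
  have δpos : 0 < δ' := by positivity
  have ρpos : 0 < ρ := by positivity
  set A := ⋃ c ∈ s, ball (c : E) δ' with hA
  have D : Set.Pairwise (s : Set E) (Disjoint on fun c => ball (c : E) δ') := by
    rintro c hc d hd hcd
    apply ball_disjoint_ball
    rw [dist_eq_norm]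
    have := h c hc d hd hcd
    have h2 : δ' + δ' = δ := by simp only [δ']; ring
    rw [h2]; exact this
  have A_subset : A ⊆ ball (0 : E) ρ := by
    refine iUnion₂_subset fun x hx => ?_
    apply ball_subset_ball'
    rw [dist_zero_right]
    have := hs x hx
    simp only [δ', ρ]
    linarith
  have I :
    (s.card : ℝ≥0∞) * ENNReal.ofReal (δ' ^ finrank ℝ E) * μ (ball 0 1) ≤
      ENNReal.ofReal (ρ ^ finrank ℝ E) * μ (ball 0 1) :=
    calc
      (s.card : ℝ≥0∞) * ENNReal.ofReal (δ' ^ finrank ℝ E) * μ (ball 0 1) = μ A := by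
        rw [hA, measure_biUnion_finset D fun c _ => measurableSet_ball]
        simp only [μ.addHaar_ball_of_pos _ δpos]
        simp only [Finset.sum_const, nsmul_eq_mul, mul_assoc]
      _ ≤ μ (ball (0 : E) ρ) := measure_mono A_subset
      _ = ENNReal.ofReal (ρ ^ finrank ℝ E) * μ (ball 0 1) := by
        simp only [μ.addHaar_ball_of_pos _ ρpos]
  have J : (s.card : ℝ≥0∞) * ENNReal.ofReal (δ' ^ finrank ℝ E) ≤ ENNReal.ofReal (ρ ^ finrank ℝ E) :=
    (ENNReal.mul_le_mul_iff_left (measure_ball_pos _ _ zero_lt_one).ne' measure_ball_lt_top.ne).1 I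
  have K : (s.card : ℝ≥0∞) * ENNReal.ofReal (δ' ^ finrank ℝ E) =
      ENNReal.ofReal ((s.card : ℝ) * δ' ^ finrank ℝ E) := by
    rw [ENNReal.ofReal_mul (Nat.cast_nonneg _), ENNReal.ofReal_natCast]
  rw [K] at J
  exact (ENNReal.ofReal_le_ofReal_iff (by positivity)).mp J

end

/-- Packing in a subspace spanned by `k` vectors, with `δ ≤ T`. -/
theorem card_mul_pow_le {E : Type*} [NormedAddCommGroup E] [NormedSpace ℝ E]
    [FiniteDimensional ℝ E] (V : Submodule ℝ E) (k : ℕ) (hV : finrank ℝ V ≤ k)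
    (s : Finset E) (T δ : ℝ) (hδ : 0 < δ) (hδT : δ ≤ T)
    (hsV : ∀ c ∈ s, c ∈ V) (hs : ∀ c ∈ s, ‖c‖ ≤ T)
    (h : ∀ c ∈ s, ∀ d ∈ s, c ≠ d → δ ≤ ‖c - d‖) :
    (s.card : ℝ) * δ ^ k ≤ (3 * T) ^ k := by
  classical
  -- pull back to V
  let t : Finset V := s.attach.image (fun c => ⟨c.1, hsV c.1 c.2⟩)
  have ht : t.card = s.card := by
    rw [Finset.card_image_of_injective, Finset.card_attach]
    intro a b hab
    simp only [Subtype.mk.injEq] at hab
    exact Subtype.ext hab
  have hmem : ∀ c ∈ t, (c : E) ∈ s := by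
    intro c hc
    simp only [t, Finset.mem_image, Finset.mem_attach, true_and, Subtype.exists] at hc
    obtain ⟨a, ha, rfl⟩ := hc
    exact ha
  have hT : 0 < T := lt_of_lt_of_le hδ hδT
  have h1 := card_le_of_separated t T δ hδ hT.le (fun c hc => hs c (hmem c hc)) (by
    intro c hc d hd hcd
    have := h c (hmem c hc) d (hmem d hd) (fun h => hcd (Subtype.ext h))
    exact this)
  rw [ht] at h1
  have h2 : (s.card : ℝ) ≤ ((3 * T) / δ) ^ finrank ℝ V := by
    rw [div_pow, le_div_iff₀ (by positivity)]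
    have h3 : (δ / 2) ^ finrank ℝ V = δ ^ finrank ℝ V / 2 ^ finrank ℝ V := div_pow _ _ _
    rw [h3] at h1
    have h4 : (T + δ / 2) ^ finrank ℝ V ≤ ((3 * T) / 2) ^ finrank ℝ V := by
      apply pow_le_pow_left₀ (by positivity)
      linarith
    have h5 := h1.trans h4
    rw [div_pow] at h5
    have h6 : (0 : ℝ) < 2 ^ finrank ℝ V := by positivity
    have h7 : (s.card : ℝ) * (δ ^ finrank ℝ V / 2 ^ finrank ℝ V) =
      (s.card : ℝ) * δ ^ finrank ℝ V / 2 ^ finrank ℝ V := by ring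
    rw [h7] at h5
    exact (div_le_div_iff_of_pos_right h6).mp h5
  have h3 : ((3 * T) / δ) ^ finrank ℝ V ≤ ((3 * T) / δ) ^ k := by
    apply pow_le_pow_right₀ _ hV
    rw [le_div_iff₀ hδ]; linarith
  have h4 := h2.trans h3
  rw [div_pow, le_div_iff₀ (by positivity)] at h4
  exact h4

end Pool.Agent.Q327
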