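import Mathlib

/-!
Sizes of elements of a domain which is free of finite rank over `ℤ`.
-/

set_option autoImplicit false

namespace Pool.Agent.Q327.PiAdic

open Finset

variable {R : Type*} [CommRing R] {d : ℕ} (B : Module.Basis (Fin d) ℤ R)

/-- The largest absolute value of a coordinate. -/
noncomputable def sz (x : R) : ℕ := Finset.univ.sup (fun i => (B.repr x i).natAbs)

lemma natAbs_le_sz (x : R) (i : Fin d) : (B.repr x i).natAbs ≤ sz B x :=
  Finset.le_sup (f := fun i => (B.repr x i).natAbs) (mem_univ i)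

lemma sz_le {x : R} {M : ℕ} : sz B x ≤ M ↔ ∀ i, (B.repr x i).natAbs ≤ M := by
  simp [sz, Finset.sup_le_iff]

lemma sz_add (x y : R) : sz B (x + y) ≤ sz B x + sz B y := by
  rw [sz_le]
  intro i
  have h1 := natAbs_le_sz B x i
  have h2 := natAbs_le_sz B y i
  rw [map_add, Finsupp.add_apply]
  have := Int.natAbs_add_le (B.repr x i) (B.repr y i)
  omega

lemma sz_neg (x : R) : sz B (-x) = sz B x := by
  unfold sz
  simp

lemma sz_sub (x y : R) : sz B (x - y) ≤ sz B x + sz B y := by
  rw [sub_eq_add_neg]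
  have := sz_add B x (-y)
  rw [sz_neg] at this
  exact this

lemma sz_zero : sz B (0 : R) = 0 := by
  simp [sz]

lemma repr_int_mul (k : ℤ) (x : R) (i : Fin d) : B.repr ((k : R) * x) i = k * B.repr x i := by
  have h : (k : R) * x = k • x := by rw [zsmul_eq_mul]
  rw [h, map_smul]
  simp

lemma sz_int_mul (k : ℤ) (x : R) : sz B ((k : R) * x) = k.natAbs * sz B x := by
  apply le_antisymm
  · rw [sz_le]
    intro i
    rw [repr_int_mul, Int.natAbs_mul]
    exact Nat.mul_le_mul_left _ (natAbs_le_sz B x i)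
  · unfold sz
    rcases Nat.eq_zero_or_pos d with hd | hd
    · subst hd; simp
    · obtain ⟨i, _, hi⟩ := Finset.exists_mem_eq_sup (Finset.univ : Finset (Fin d))
        ⟨⟨0, hd⟩, mem_univ _⟩ (fun i => (B.repr x i).natAbs)
      rw [hi, ← Int.natAbs_mul, ← repr_int_mul]
      exact Finset.le_sup (f := fun i => (B.repr ((k : R) * x) i).natAbs) (mem_univ i)

lemma sz_eq_zero {x : R} : sz B x = 0 ↔ x = 0 := by
  constructor
  · intro h
    have h1 : ∀ i, B.repr x i = 0 := by
      intro i
      have := natAbs_le_sz B x i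
      rw [h] at this
      omega
    apply B.repr.injective
    ext i
    simp [h1 i]
  · rintro rfl; exact sz_zero B

lemma sz_pos {x : R} (h : x ≠ 0) : 0 < sz B x := by
  rcases Nat.eq_zero_or_pos (sz B x) with h1 | h1
  · exact absurd ((sz_eq_zero B).mp h1) h
  · exact h1

lemma sz_sum {ι : Type*} (s : Finset ι) (f : ι → R) : sz B (∑ i ∈ s, f i) ≤ ∑ i ∈ s, sz B (f i) := by
  classical
  induction s using Finset.induction_on with
  | empty => simp [sz_zero]
  | insert a s ha ih =>
    rw [sum_insert ha, sum_insert ha]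
    exact (sz_add B _ _).trans (by omega)

/-- A constant with `sz (x y) ≤ K sz x sz y`. -/
noncomputable def K : ℕ := ∑ i, ∑ j, sz B (B i * B j) + 1

lemma K_pos : 0 < K B := by unfold K; omega

lemma sz_mul (x y : R) : sz B (x * y) ≤ K B * sz B x * sz B y := by
  have hx := B.sum_repr x
  have hy := B.sum_repr y
  have h1 : x * y = ∑ i, ∑ j, ((B.repr x i * B.repr y j : ℤ) : R) * (B i * B j) := by
    conv_lhs => rw [← hx, ← hy, sum_mul_sum]
    refine Finset.sum_congr rfl fun i _ => Finset.sum_congr rfl fun j _ => ?_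
    rw [zsmul_eq_mul, zsmul_eq_mul]
    push_cast
    ring
  rw [h1]
  calc sz B (∑ i, ∑ j, ((B.repr x i * B.repr y j : ℤ) : R) * (B i * B j))
      ≤ ∑ i, ∑ j, sz B (((B.repr x i * B.repr y j : ℤ) : R) * (B i * B j)) :=
        (sz_sum B _ _).trans (sum_le_sum fun i _ => sz_sum B _ _)
    _ ≤ ∑ i, ∑ j, (sz B x * sz B y) * sz B (B i * B j) := by
        refine sum_le_sum fun i _ => sum_le_sum fun j _ => ?_
        rw [sz_int_mul, Int.natAbs_mul]
        exact Nat.mul_le_mul_right _ (Nat.mul_le_mul (natAbs_le_sz B x i) (natAbs_le_sz B y j))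
    _ = (sz B x * sz B y) * ∑ i, ∑ j, sz B (B i * B j) := by
        simp only [← Finset.mul_sum]
    _ ≤ K B * sz B x * sz B y := by
        unfold K
        nlinarith [Nat.zero_le (sz B x * sz B y)]

/-- The ball of radius `M`. -/
noncomputable def ball (M : ℕ) : Finset R :=
  (Fintype.piFinset (fun _ : Fin d => Finset.Icc (-(M : ℤ)) M)).map
    (B.equivFun.symm.toEquiv.toEmbedding)

lemma mem_ball {x : R} {M : ℕ} : x ∈ ball B M ↔ sz B x ≤ M := by
  unfold ball
  rw [Finset.mem_map_equiv, Fintype.mem_piFinset, sz_le]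
  refine forall_congr' fun i => ?_
  rw [Finset.mem_Icc]
  have h : (B.equivFun.symm.toEquiv.symm x) i = B.repr x i := rfl
  rw [h]
  omega

lemma card_ball (M : ℕ) : (ball B M).card = (2 * M + 1) ^ d := by
  unfold ball
  rw [Finset.card_map, Fintype.card_piFinset]
  simp only [Int.card_Icc]
  have h : ((M : ℤ) + 1 - -(M : ℤ)).toNat = 2 * M + 1 := by omega
  rw [h]
  simp

/-- The box `[0, M]^d`. -/
noncomputable def box (M : ℕ) : Finset R :=
  (Fintype.piFinset (fun _ : Fin d => Finset.Icc (0 : ℤ) M)).map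
    (B.equivFun.symm.toEquiv.toEmbedding)

lemma mem_box {x : R} {M : ℕ} : x ∈ box B M ↔ ∀ i, 0 ≤ B.repr x i ∧ B.repr x i ≤ M := by
  unfold box
  rw [Finset.mem_map_equiv, Fintype.mem_piFinset]
  refine forall_congr' fun i => ?_
  rw [Finset.mem_Icc]
  have h : (B.equivFun.symm.toEquiv.symm x) i = B.repr x i := rfl
  rw [h]

lemma card_box (M : ℕ) : (box B M).card = (M + 1) ^ d := by
  unfold box
  rw [Finset.card_map, Fintype.card_piFinset]
  simp only [Int.card_Icc]
  have h : ((M : ℤ) + 1 - 0).toNat = M + 1 := by omega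
  rw [h]
  simp

lemma sz_sub_of_mem_box {x y : R} {M : ℕ} (hx : x ∈ box B M) (hy : y ∈ box B M) :
    sz B (x - y) ≤ M := by
  rw [mem_box] at hx hy
  rw [sz_le]
  intro i
  rw [map_sub, Finsupp.sub_apply]
  have := hx i
  have := hy i
  omega

/-- Division with small remainder by an integer. -/
lemma exists_divmod (k : ℤ) (hk : k ≠ 0) (x : R) :
    ∃ q r : R, x = (k : R) * q + r ∧ sz B r ≤ k.natAbs := by
  let r : R := B.equivFun.symm (fun i => B.repr x i % k)
  let q : R := B.equivFun.symm (fun i => B.repr x i / k)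
  have hr : ∀ i, B.repr r i = B.repr x i % k := by
    intro i
    have : B.equivFun r i = B.repr x i % k := by simp only [r, LinearEquiv.apply_symm_apply]
    simpa using this
  have hq : ∀ i, B.repr q i = B.repr x i / k := by
    intro i
    have : B.equivFun q i = B.repr x i / k := by simp only [q, LinearEquiv.apply_symm_apply]
    simpa using this
  refine ⟨q, r, ?_, ?_⟩
  · apply B.repr.injective
    ext i
    rw [map_add, Finsupp.add_apply, repr_int_mul, hr, hq]
    exact (Int.mul_ediv_add_emod _ _).symm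
  · rw [sz_le]
    intro i
    rw [hr]
    have h1 := Int.emod_nonneg (B.repr x i) hk
    have h2 := Int.emod_lt_abs (B.repr x i) hk
    rw [Int.abs_eq_natAbs] at h2
    omega

section domain

variable [IsDomain R]

include B in
/-- Every nonzero element divides a nonzero integer. -/
lemma exists_int_multiple (x : R) (hx : x ≠ 0) : ∃ (y : R) (D : ℤ), D ≠ 0 ∧ x * y = (D : R) := by
  have hfin : Module.Finite ℤ R := Module.Finite.of_basis B
  have hint : Algebra.IsIntegral ℤ R := inferInstance
  have h := Ideal.comap_ne_bot_of_integral_mem (R := ℤ) (I := Ideal.span {x}) hx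
    (Ideal.mem_span_singleton_self x) (hint.isIntegral x)
  obtain ⟨D, hD, hD0⟩ := Submodule.exists_mem_ne_zero_of_ne_bot h
  rw [Ideal.mem_comap, Ideal.mem_span_singleton] at hD
  obtain ⟨y, hy⟩ := hD
  refine ⟨y, D, hD0, ?_⟩
  rw [← hy]
  simp

include B in
lemma int_cast_ne_zero {D : ℤ} (hD : D ≠ 0) : (D : R) ≠ 0 := by
  intro h
  have h1 : ∀ x : R, x = 0 := by
    intro x
    have h2 : (D : R) * x = 0 := by rw [h, zero_mul]
    rw [← sz_eq_zero B, sz_int_mul] at h2
    rcases Nat.mul_eq_zero.mp h2 with h3 | h3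
    · exact absurd (Int.natAbs_eq_zero.mp h3) hD
    · exact (sz_eq_zero B).mp h3
  exact one_ne_zero (h1 1)

end domain

end Pool.Agent.Q327.PiAdic
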