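import Mathlib
import Pool.Agent.Q327.PiAdicBase
import Pool.Agent.Q327.Packing

/-!
The rank-two lattices `{(f, g) : P ∣ g A - f}` over a domain free of finite rank over `ℤ`.
-/

set_option autoImplicit false

namespace Pool.Agent.Q327.PiAdic

open Finset

variable {R : Type*} [CommRing R] {d : ℕ} (B : Module.Basis (Fin d) ℤ R)

/-- The sizes of the nonzero vectors. -/
def norms (P A : R) : Set ℕ :=
  {m | ∃ f g : R, ¬ (f = 0 ∧ g = 0) ∧ P ∣ g * A - f ∧ m = max (sz B f) (sz B g)}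

/-- The size of a shortest nonzero vector. -/
noncomputable def mu (P A : R) : ℕ := sInf (norms B P A)

section nontriv
variable [Nontrivial R]

lemma norms_nonempty (P A : R) : (norms B P A).Nonempty :=
  ⟨_, A, 1, by simp, by simp, rfl⟩

lemma mu_mem (P A : R) : mu B P A ∈ norms B P A := Nat.sInf_mem (norms_nonempty B P A)

lemma mu_le {P A f g : R} (h : ¬ (f = 0 ∧ g = 0)) (hP : P ∣ g * A - f) :
    mu B P A ≤ max (sz B f) (sz B g) :=
  Nat.sInf_le ⟨f, g, h, hP, rfl⟩

lemma mu_pos (P A : R) : 0 < mu B P A := by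
  obtain ⟨f, g, h, _, e⟩ := mu_mem B P A
  rw [e]
  by_cases hf : f = 0
  · have hg : g ≠ 0 := fun hg => h ⟨hf, hg⟩
    exact lt_max_of_lt_right (sz_pos B hg)
  · exact lt_max_of_lt_left (sz_pos B hf)

end nontriv

/-- Pigeonhole: many vectors in a box. -/
lemma many (P A : R) (Q : ℕ) (hfin : Finite (R ⧸ Ideal.span {P}))
    (hQ : Nat.card (R ⧸ Ideal.span {P}) = Q) (T : ℕ) :
    ∃ S : Finset (R × R), (∀ p ∈ S, P ∣ p.2 * A - p.1 ∧ sz B p.1 ≤ T ∧ sz B p.2 ≤ T) ∧
      (T + 1) ^ (2 * d) ≤ Q * S.card := by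
  classical
  haveI := Fintype.ofFinite (R ⧸ Ideal.span {P})
  rw [Nat.card_eq_fintype_card] at hQ
  set s := box B T ×ˢ box B T with hs
  have hcards : s.card = (T + 1) ^ (2 * d) := by
    rw [hs, card_product, card_box]; ring
  let φ : R × R → R ⧸ Ideal.span {P} := fun p => Ideal.Quotient.mk _ (p.2 * A - p.1)
  have hmaps : ∀ p ∈ s, φ p ∈ (univ : Finset (R ⧸ Ideal.span {P})) := fun _ _ => mem_univ _
  have hQ0 : 0 < Q := by rw [← hQ]; exact Fintype.card_pos
  have hQr : (0 : ℚ) < Q := by exact_mod_cast hQ0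
  obtain ⟨y, _, hy⟩ := Finset.exists_le_card_fiber_of_nsmul_le_card_of_maps_to (M := ℚ)
    (b := (s.card : ℚ) / Q) hmaps univ_nonempty (by
      rw [card_univ, hQ, nsmul_eq_mul]
      rw [mul_div_cancel₀ _ hQr.ne'])
  have hy2 : s.card ≤ Q * (s.filter (fun p => φ p = y)).card := by
    rw [div_le_iff₀ hQr] at hy
    have : (s.card : ℚ) ≤ ((Q * (s.filter (fun p => φ p = y)).card : ℕ) : ℚ) := by
      push_cast
      linarith
    exact_mod_cast this
  have hne : (s.filter (fun p => φ p = y)).Nonempty := by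
    rw [← card_pos]
    by_contra h
    have h0 : (s.filter (fun p => φ p = y)).card = 0 := by omega
    rw [h0, mul_zero, hcards] at hy2
    have : 0 < (T + 1) ^ (2 * d) := by positivity
    omega
  obtain ⟨p0, hp0⟩ := hne
  refine ⟨(s.filter (fun p => φ p = y)).image (fun p => (p.1 - p0.1, p.2 - p0.2)), ?_, ?_⟩
  · intro q hq
    rw [mem_image] at hq
    obtain ⟨p, hp, rfl⟩ := hq
    rw [mem_filter, hs, mem_product] at hp hp0
    refine ⟨?_, sz_sub_of_mem_box B hp.1.1 hp0.1.1, sz_sub_of_mem_box B hp.1.2 hp0.1.2⟩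
    have h1 : φ p = φ p0 := by rw [hp.2, hp0.2]
    simp only [φ] at h1
    rw [Ideal.Quotient.eq, Ideal.mem_span_singleton] at h1
    have h2 : (p.2 - p0.2) * A - (p.1 - p0.1) = p.2 * A - p.1 - (p0.2 * A - p0.1) := by ring
    simp only
    rw [h2]; exact h1
  · rw [card_image_of_injective]
    · rw [← hcards]; exact hy2
    · intro p q hpq
      simp only [Prod.mk.injEq, sub_left_inj] at hpq
      exact Prod.ext hpq.1 hpq.2

section domain
variable [IsDomain R]

/-- Minkowski: `μ^(2d) ≤ Q`. -/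
lemma mu_pow_le (P A : R) (Q : ℕ) (hfin : Finite (R ⧸ Ideal.span {P}))
    (hQ : Nat.card (R ⧸ Ideal.span {P}) = Q) : mu B P A ^ (2 * d) ≤ Q := by
  by_contra hlt
  push Not at hlt
  have hmu := mu_pos B P A
  obtain ⟨S, hS1, hS2⟩ := many B P A Q hfin hQ (mu B P A - 1)
  rw [Nat.sub_add_cancel hmu] at hS2
  have h1 : 1 < S.card := by
    by_contra h
    have : Q * S.card ≤ Q * 1 := Nat.mul_le_mul_left _ (by omega)
    omega
  obtain ⟨p, hp, hp0⟩ := Finset.exists_mem_ne h1 (0 : R × R)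
  obtain ⟨h2, h3, h4⟩ := hS1 p hp
  have h5 : ¬ (p.1 = 0 ∧ p.2 = 0) := by
    rintro ⟨ha, hb⟩
    exact hp0 (Prod.ext ha hb)
  have := mu_le B h5 h2
  omega

/-- The real vector of a pair. -/
noncomputable def emb (p : R × R) : (Fin d → ℝ) × (Fin d → ℝ) :=
  (fun i => (B.repr p.1 i : ℝ), fun i => (B.repr p.2 i : ℝ))

lemma norm_coords (x : R) : ‖(fun i => (B.repr x i : ℝ) : Fin d → ℝ)‖ = sz B x := by
  apply le_antisymm
  · rw [pi_norm_le_iff_of_nonneg (Nat.cast_nonneg _)]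
    intro i
    rw [Real.norm_eq_abs]
    have := natAbs_le_sz B x i
    have h2 : |(B.repr x i : ℝ)| = ((B.repr x i).natAbs : ℝ) := by
      rw [Nat.cast_natAbs]; push_cast; rfl
    rw [h2]
    exact_mod_cast this
  · rcases Nat.eq_zero_or_pos d with hd | hd
    · subst hd; simp [sz]
    · obtain ⟨i, _, hi⟩ := Finset.exists_mem_eq_sup (Finset.univ : Finset (Fin d))
        ⟨⟨0, hd⟩, mem_univ _⟩ (fun i => (B.repr x i).natAbs)
      have h1 : sz B x = (B.repr x i).natAbs := hi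
      rw [h1]
      have h2 : (((B.repr x i).natAbs : ℕ) : ℝ) = ‖(B.repr x i : ℝ)‖ := by
        rw [Real.norm_eq_abs, Nat.cast_natAbs]; push_cast; rfl
      rw [h2]
      exact norm_le_pi_norm (fun i => (B.repr x i : ℝ)) i

lemma norm_emb (p : R × R) : ‖emb B p‖ = max (sz B p.1 : ℝ) (sz B p.2) := by
  unfold emb
  rw [Prod.norm_mk, norm_coords, norm_coords]

lemma emb_sub (p q : R × R) : emb B (p - q) = emb B p - emb B q := by
  unfold emb
  ext i <;> simp

lemma emb_add (p q : R × R) : emb B (p + q) = emb B p + emb B q := by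
  unfold emb
  ext i <;> simp

lemma emb_int (k : ℤ) (p : R × R) : emb B ((k : R) * p.1, (k : R) * p.2) = (k : ℝ) • emb B p := by
  unfold emb
  ext i
  · simp only [repr_int_mul, Prod.smul_fst, Pi.smul_apply, smul_eq_mul]
    push_cast; ring
  · simp only [repr_int_mul, Prod.smul_snd, Pi.smul_apply, smul_eq_mul]
    push_cast; ring

lemma emb_inj {p q : R × R} (h : emb B p = emb B q) : p = q := by
  have h1 : ‖emb B (p - q)‖ = 0 := by rw [emb_sub, h, sub_self, norm_zero]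
  rw [norm_emb] at h1
  have h2 : (sz B (p - q).1 : ℝ) ≤ 0 := by rw [← h1]; exact le_max_left _ _
  have h3 : (sz B (p - q).2 : ℝ) ≤ 0 := by rw [← h1]; exact le_max_right _ _
  have h4 : sz B (p - q).1 = 0 := by
    have : (0 : ℝ) ≤ sz B (p - q).1 := Nat.cast_nonneg _
    exact_mod_cast le_antisymm h2 this
  have h5 : sz B (p - q).2 = 0 := by
    have : (0 : ℝ) ≤ sz B (p - q).2 := Nat.cast_nonneg _
    exact_mod_cast le_antisymm h3 this
  rw [sz_eq_zero] at h4 h5
  ext
  · exact sub_eq_zero.mp h4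
  · exact sub_eq_zero.mp h5

/-- The real span of `w1 R`. -/
noncomputable def lineSpan (f1 g1 : R) : Submodule ℝ ((Fin d → ℝ) × (Fin d → ℝ)) :=
  Submodule.span ℝ (Set.range (fun i : Fin d => emb B (B i * f1, B i * g1)))

lemma finrank_lineSpan (f1 g1 : R) : Module.finrank ℝ (lineSpan B f1 g1) ≤ d := by
  unfold lineSpan
  have := finrank_range_le_card (R := ℝ) (fun i : Fin d => emb B (B i * f1, B i * g1))
  simpa [Set.finrank] using this

lemma mem_lineSpan_mul (f1 g1 c : R) : emb B (c * f1, c * g1) ∈ lineSpan B f1 g1 := by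
  have hc := B.sum_repr c
  have h1 : ∀ s : Finset (Fin d), emb B (∑ i ∈ s, ((B.repr c i : ℤ) : R) * (B i * f1),
      ∑ i ∈ s, ((B.repr c i : ℤ) : R) * (B i * g1)) ∈ lineSpan B f1 g1 := by
    classical
    intro s
    induction s using Finset.induction_on with
    | empty =>
      have : emb B ((∑ i ∈ (∅ : Finset (Fin d)), ((B.repr c i : ℤ) : R) * (B i * f1)),
        ∑ i ∈ (∅ : Finset (Fin d)), ((B.repr c i : ℤ) : R) * (B i * g1)) = 0 := by
        unfold emb
        ext i <;> simp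
      rw [this]; exact Submodule.zero_mem _
    | insert a s ha ih =>
      rw [sum_insert ha, sum_insert ha]
      have h2 := emb_add B (((B.repr c a : ℤ) : R) * (B a * f1), ((B.repr c a : ℤ) : R) * (B a * g1))
        (∑ i ∈ s, ((B.repr c i : ℤ) : R) * (B i * f1), ∑ i ∈ s, ((B.repr c i : ℤ) : R) * (B i * g1))
      simp only [Prod.mk_add_mk] at h2
      rw [h2]
      apply Submodule.add_mem _ _ ih
      rw [emb_int B (B.repr c a) (B a * f1, B a * g1)]
      apply Submodule.smul_mem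
      exact Submodule.subset_span ⟨a, rfl⟩
  have h2 := h1 univ
  have h3 : ∀ f : R, ∑ i, ((B.repr c i : ℤ) : R) * (B i * f) = c * f := by
    intro f
    conv_rhs => rw [← hc, sum_mul]
    refine Finset.sum_congr rfl fun i _ => ?_
    rw [zsmul_eq_mul]; ring
  rw [h3, h3] at h2
  exact h2

lemma mem_lineSpan {f1 g1 f g : R} (hne : ¬ (f1 = 0 ∧ g1 = 0)) (h : f * g1 = g * f1) :
    emb B (f, g) ∈ lineSpan B f1 g1 := by
  have key : ∃ (D : ℤ) (c : R), D ≠ 0 ∧ (D : R) * f = c * f1 ∧ (D : R) * g = c * g1 := by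
    by_cases hf1 : f1 = 0
    · have hg1 : g1 ≠ 0 := fun hg => hne ⟨hf1, hg⟩
      obtain ⟨y, D, hD, hy⟩ := exists_int_multiple B g1 hg1
      refine ⟨D, g * y, hD, ?_, ?_⟩
      · rw [← hy]; linear_combination y * h
      · rw [← hy]; ring
    · obtain ⟨y, D, hD, hy⟩ := exists_int_multiple B f1 hf1
      refine ⟨D, f * y, hD, ?_, ?_⟩
      · rw [← hy]; ring
      · rw [← hy]; linear_combination (-y) * h
  obtain ⟨D, c, hD, h1, h2⟩ := key
  have h3 := mem_lineSpan_mul B f1 g1 c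
  rw [← h1, ← h2, emb_int B D (f, g)] at h3
  have hDr : (D : ℝ) ≠ 0 := by exact_mod_cast hD
  have h4 := Submodule.smul_mem (lineSpan B f1 g1) ((D : ℝ)⁻¹) h3
  rwa [smul_smul, inv_mul_cancel₀ hDr, one_smul] at h4

/-- Packing on a line. -/
lemma packing (P A f1 g1 : R) (hne : ¬ (f1 = 0 ∧ g1 = 0)) (T : ℕ) (hT : mu B P A ≤ T)
    (S : Finset (R × R))
    (hS : ∀ p ∈ S, P ∣ p.2 * A - p.1 ∧ sz B p.1 ≤ T ∧ sz B p.2 ≤ T)
    (hline : ∀ p ∈ S, p.1 * g1 = p.2 * f1) :
    S.card * mu B P A ^ d ≤ (3 * T) ^ d := by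
  classical
  have h0 := mu_pos B P A
  have h1 := card_mul_pow_le (lineSpan B f1 g1) d (finrank_lineSpan B f1 g1) (S.image (emb B))
    (T : ℝ) (mu B P A : ℝ) (by exact_mod_cast h0) (by exact_mod_cast hT)
    (by
      intro c hc
      rw [mem_image] at hc
      obtain ⟨p, hp, rfl⟩ := hc
      exact mem_lineSpan B hne (hline p hp))
    (by
      intro c hc
      rw [mem_image] at hc
      obtain ⟨p, hp, rfl⟩ := hc
      rw [norm_emb]
      have := hS p hp
      exact max_le (by exact_mod_cast this.2.1) (by exact_mod_cast this.2.2))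
    (by
      intro c hc c' hc' hne'
      rw [mem_image] at hc hc'
      obtain ⟨p, hp, rfl⟩ := hc
      obtain ⟨q, hq, rfl⟩ := hc'
      rw [← emb_sub, norm_emb]
      have h2 : ¬ ((p - q).1 = 0 ∧ (p - q).2 = 0) := by
        rintro ⟨ha, hb⟩
        apply hne'
        have : p = q := by
          ext
          · exact sub_eq_zero.mp ha
          · exact sub_eq_zero.mp hb
        rw [this]
      have h3 : P ∣ (p - q).2 * A - (p - q).1 := by
        have h31 := dvd_sub (hS p hp).1 (hS q hq).1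
        have h32 : (p - q).2 * A - (p - q).1 = p.2 * A - p.1 - (q.2 * A - q.1) := by
          simp only [Prod.fst_sub, Prod.snd_sub]; ring
        rw [h32]; exact h31
      have h4 := mu_le B h2 h3
      exact_mod_cast h4)
  rw [card_image_of_injective _ (fun p q h => emb_inj B h)] at h1
  exact_mod_cast h1

/-- The main lemma: a small vector with second coordinate `1` modulo `N`. -/
lemma good_vector (hd : 0 < d) (N : ℕ) (hN : 0 < N) (P A : R) (Q : ℕ)
    (hfin : Finite (R ⧸ Ideal.span {P})) (hQ : Nat.card (R ⧸ Ideal.span {P}) = Q) :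
    ∃ F G : R, (∃ z : R, G = 1 + (N : R) * z) ∧ P ∣ G * A - F ∧
      (max (sz B F) (sz B G)) ^ d * mu B P A ^ d ≤ (6 * K B * N) ^ d * Q := by
  have hQ0 : 0 < Q := by rw [← hQ]; exact Nat.card_pos
  obtain ⟨f1, g1, hne, hP1, e⟩ := mu_mem B P A
  have hmu := mu_pos B P A
  set m := mu B P A with hm
  -- the choice of T
  have hex : ∃ T, 3 ^ d * Q < m ^ d * T ^ d := by
    refine ⟨3 ^ d * Q + 1, ?_⟩
    have h1 : 1 ≤ m ^ d := Nat.one_le_pow _ _ hmu
    have h2 : 3 ^ d * Q + 1 ≤ (3 ^ d * Q + 1) ^ d := Nat.le_self_pow hd.ne' _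
    have h3 : 1 * (3 ^ d * Q + 1) ≤ m ^ d * (3 ^ d * Q + 1) ^ d := Nat.mul_le_mul h1 h2
    omega
  classical
  set T' := Nat.find hex with hT'
  have hT'1 : 3 ^ d * Q < m ^ d * T' ^ d := Nat.find_spec hex
  have hT'0 : 0 < T' := by
    rcases Nat.eq_zero_or_pos T' with h | h
    · rw [h, zero_pow hd.ne'] at hT'1; omega
    · exact h
  set T := T' - 1 with hT
  have hT2 : m ^ d * T ^ d ≤ 3 ^ d * Q := by
    have := Nat.find_min hex (m := T) (by omega)
    omega
  have hT1 : 3 ^ d * Q < m ^ d * (T + 1) ^ d := by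
    rw [hT, Nat.sub_add_cancel hT'0]; exact hT'1
  have hmT : m ≤ T := by
    by_contra hlt
    push Not at hlt
    have h1 : (T + 1) ^ d ≤ m ^ d := Nat.pow_le_pow_left hlt d
    have h2 : m ^ d * (T + 1) ^ d ≤ m ^ d * m ^ d := Nat.mul_le_mul_left _ h1
    have h3 : m ^ d * m ^ d = m ^ (2 * d) := by rw [← pow_add]; congr 1; omega
    have h4 := mu_pow_le B P A Q hfin hQ
    rw [← hm] at h4
    have h5 : 1 ≤ 3 ^ d := Nat.one_le_pow _ _ (by norm_num)
    nlinarith
  -- the second vector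
  have hsecond : ∃ f2 g2 : R, P ∣ g2 * A - f2 ∧ sz B f2 ≤ T ∧ sz B g2 ≤ T ∧
      f1 * g2 - f2 * g1 ≠ 0 := by
    by_contra hcon
    push Not at hcon
    obtain ⟨S, hS1, hS2⟩ := many B P A Q hfin hQ T
    have h1 := packing B P A f1 g1 hne T hmT S hS1 (by
      intro p hp
      obtain ⟨ha, hb, hc⟩ := hS1 p hp
      have := hcon p.1 p.2 ha hb hc
      linear_combination -this)
    rw [← hm] at h1
    -- (T+1)^(2d) m^d ≤ Q |S| m^d ≤ Q (3T)^d
    have h2 : (T + 1) ^ (2 * d) * m ^ d ≤ Q * (3 * T) ^ d := by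
      calc (T + 1) ^ (2 * d) * m ^ d ≤ Q * S.card * m ^ d := Nat.mul_le_mul_right _ hS2
        _ = Q * (S.card * m ^ d) := by ring
        _ ≤ Q * (3 * T) ^ d := Nat.mul_le_mul_left _ h1
    have h3 : (T + 1) ^ (2 * d) * m ^ d = (T + 1) ^ d * (m ^ d * (T + 1) ^ d) := by
      rw [two_mul, pow_add]; ring
    have h4 : T ^ d < (T + 1) ^ d := Nat.pow_lt_pow_left (by omega) hd.ne'
    have h5 : (T + 1) ^ d * (3 ^ d * Q) < (T + 1) ^ d * (m ^ d * (T + 1) ^ d) := by
      apply Nat.mul_lt_mul_of_pos_left hT1 (by positivity)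
    have h6 : Q * (3 * T) ^ d = T ^ d * (3 ^ d * Q) := by rw [mul_pow]; ring
    have h7 : T ^ d * (3 ^ d * Q) ≤ (T + 1) ^ d * (3 ^ d * Q) :=
      Nat.mul_le_mul_right _ h4.le
    omega
  obtain ⟨f2, g2, hP2, hf2, hg2, hdelta⟩ := hsecond
  obtain ⟨y0, D, hD, hy0⟩ := exists_int_multiple B _ hdelta
  have hk : D * (N : ℤ) ≠ 0 := mul_ne_zero hD (by exact_mod_cast hN.ne')
  obtain ⟨q, r, hqr, hr⟩ := exists_divmod B (D * (N : ℤ)) hk (y0 * (A * g2 - f2))
  obtain ⟨q', r', hqr', hr'⟩ := exists_divmod B (D * (N : ℤ)) hk (y0 * (f1 - A * g1))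
  have hDN : (D * (N : ℤ)).natAbs = D.natAbs * N := by
    rw [Int.natAbs_mul, Int.natAbs_natCast]
  rw [hDN] at hr hr'
  push_cast at hqr hqr'
  set F : R := A - N * (q * f1 + q' * f2) with hF
  set G : R := 1 - N * (q * g1 + q' * g2) with hG
  have hDF : (D : R) * F = r * f1 + r' * f2 := by
    rw [hF]
    have h1 : (D : R) * A = y0 * (A * g2 - f2) * f1 + y0 * (f1 - A * g1) * f2 := by
      rw [← hy0]; ring
    linear_combination h1 + f1 * hqr + f2 * hqr'
  have hDG : (D : R) * G = r * g1 + r' * g2 := by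
    rw [hG]
    have h1 : (D : R) = y0 * (A * g2 - f2) * g1 + y0 * (f1 - A * g1) * g2 := by
      rw [← hy0]; ring
    linear_combination h1 + g1 * hqr + g2 * hqr'
  have hDpos : 0 < D.natAbs := Int.natAbs_pos.mpr hD
  have hbd : ∀ a b x : R, sz B a ≤ m → sz B b ≤ T → (D : R) * x = r * a + r' * b →
      sz B x ≤ 2 * K B * N * T := by
    intro a b x ha hb hx
    have h1 : sz B ((D : R) * x) ≤ K B * (D.natAbs * N) * T + K B * (D.natAbs * N) * T := by
      rw [hx]
      refine (sz_add B _ _).trans (add_le_add ?_ ?_)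
      · refine (sz_mul B _ _).trans ?_
        exact Nat.mul_le_mul (Nat.mul_le_mul_left _ hr) (ha.trans hmT)
      · refine (sz_mul B _ _).trans ?_
        exact Nat.mul_le_mul (Nat.mul_le_mul_left _ hr') hb
    rw [sz_int_mul] at h1
    have h2 : D.natAbs * sz B x ≤ D.natAbs * (2 * K B * N * T) := by
      calc D.natAbs * sz B x ≤ _ := h1
        _ = D.natAbs * (2 * K B * N * T) := by ring
    exact Nat.le_of_mul_le_mul_left h2 hDpos
  have hf1 : sz B f1 ≤ m := by rw [e]; exact le_max_left _ _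
  have hg1 : sz B g1 ≤ m := by rw [e]; exact le_max_right _ _
  have hFle := hbd f1 f2 F hf1 hf2 hDF
  have hGle := hbd g1 g2 G hg1 hg2 hDG
  refine ⟨F, G, ⟨-(q * g1 + q' * g2), by rw [hG]; ring⟩, ?_, ?_⟩
  · have h1 : G * A - F = (-(N : R) * q) * (g1 * A - f1) + (-(N : R) * q') * (g2 * A - f2) := by
      rw [hF, hG]; ring
    rw [h1]
    exact dvd_add (Dvd.dvd.mul_left hP1 _) (Dvd.dvd.mul_left hP2 _)
  · have h1 : max (sz B F) (sz B G) ≤ 2 * K B * N * T := max_le hFle hGle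
    calc (max (sz B F) (sz B G)) ^ d * m ^ d ≤ (2 * K B * N * T) ^ d * m ^ d :=
          Nat.mul_le_mul_right _ (Nat.pow_le_pow_left h1 d)
      _ = (2 * K B * N) ^ d * (m ^ d * T ^ d) := by rw [mul_pow]; ring
      _ ≤ (2 * K B * N) ^ d * (3 ^ d * Q) := Nat.mul_le_mul_left _ hT2
      _ = (6 * K B * N) ^ d * Q := by
          have : 6 * K B * N = (2 * K B * N) * 3 := by ring
          rw [this, mul_pow (2 * K B * N) 3 d]
          ac_rfl

end domain

end Pool.Agent.Q327.PiAdic
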