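import Mathlib
import Pool.Agent.Q327.PiAdicLattice

/-!
Few residue classes `A` have a short vector in the lattice `{(f, g) : P ∣ g A - f}`.
-/

set_option autoImplicit false

namespace Pool.Agent.Q327.PiAdic

open Finset

variable {R : Type*} [CommRing R] {d : ℕ} (B : Module.Basis (Fin d) ℤ R) [IsDomain R]

/-- Every element is congruent modulo `g` to an element of size at most `K sz(g)`. -/
lemma exists_small_rep (g : R) (hg : g ≠ 0) (x : R) :
    ∃ q y : R, x = g * q + y ∧ sz B y ≤ K B * sz B g := by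
  obtain ⟨y0, D, hD, hy0⟩ := exists_int_multiple B g hg
  obtain ⟨q, r, hqr, hr⟩ := exists_divmod B D hD (y0 * x)
  refine ⟨q, x - g * q, by ring, ?_⟩
  have h1 : (D : R) * (x - g * q) = g * r := by
    linear_combination (-x) * hy0 + g * hqr
  have h2 : sz B ((D : R) * (x - g * q)) ≤ K B * sz B g * D.natAbs := by
    rw [h1]
    exact (sz_mul B g r).trans (Nat.mul_le_mul_left _ hr)
  rw [sz_int_mul] at h2
  have h3 : D.natAbs * sz B (x - g * q) ≤ D.natAbs * (K B * sz B g) := by
    calc _ ≤ _ := h2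
      _ = _ := by ring
  exact Nat.le_of_mul_le_mul_left h3 (Int.natAbs_pos.mpr hD)

lemma count_g (P g : R) (hg : g ≠ 0) (hfin : Finite (R ⧸ Ideal.span {P})) (M : ℕ)
    (hgM : sz B g ≤ M) (S : Finset (R ⧸ Ideal.span {P}))
    (hS : ∀ y ∈ S, ∃ A f : R, Ideal.Quotient.mk _ A = y ∧ sz B f ≤ M ∧ P ∣ g * A - f) :
    S.card ≤ (2 * ((K B + 1) * M) + 1) ^ d := by
  classical
  haveI := Fintype.ofFinite (R ⧸ Ideal.span {P})
  let mk : R →+* (R ⧸ Ideal.span {P}) := Ideal.Quotient.mk (Ideal.span {P})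
  let φ : (R ⧸ Ideal.span {P}) →+ (R ⧸ Ideal.span {P}) := AddMonoidHom.mulLeft (mk g)
  have hφ : ∀ x, φ x = mk g * x := fun x => rfl
  -- the kernel and the cokernel have the same size
  have hker : Nat.card φ.ker = Nat.card ((R ⧸ Ideal.span {P}) ⧸ φ.range) := by
    have h1 := φ.ker.card_mul_index
    rw [AddSubgroup.index_ker] at h1
    have h2 := φ.range.card_mul_index
    have h3 : Nat.card φ.range * Nat.card φ.ker = Nat.card φ.range * φ.range.index := by
      rw [h2, ← h1, mul_comm]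
    have h4 : 0 < Nat.card φ.range := Nat.card_pos
    exact Nat.eq_of_mul_eq_mul_left h4 h3
  let t : Finset (R ⧸ Ideal.span {P}) := univ.filter (fun b => (∃ f : R, mk f = b ∧ sz B f ≤ M) ∧ b ∈ φ.range)
  have hmaps : ∀ y ∈ S, φ y ∈ t := by
    intro y hy
    obtain ⟨A, f, h1, h2, h3⟩ := hS y hy
    simp only [t, mem_filter, mem_univ, true_and]
    refine ⟨⟨f, ?_, h2⟩, ⟨y, rfl⟩⟩
    rw [hφ, ← h1]
    change mk f = mk g * mk A
    rw [← map_mul]
    apply (Ideal.Quotient.eq).mpr
    rw [Ideal.mem_span_singleton]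
    have : f - g * A = -(g * A - f) := by ring
    rw [this]; exact h3.neg_right
  have hfib : ∀ b ∈ t, (S.filter (fun y => φ y = b)).card ≤ Nat.card φ.ker := by
    intro b _
    rcases (S.filter (fun y => φ y = b)).eq_empty_or_nonempty with h | ⟨y0, hy0⟩
    · rw [h]; simp
    · rw [mem_filter] at hy0
      rw [Nat.card_eq_fintype_card, ← Finset.card_univ]
      let ψ : (R ⧸ Ideal.span {P}) → φ.ker := fun y => if h : φ (y - y0) = 0 then ⟨y - y0, h⟩ else 0
      apply Finset.card_le_card_of_injOn ψ (fun _ _ => mem_univ _)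
      intro y hy y' hy' hyy
      rw [mem_coe, mem_filter] at hy hy'
      have h1 : φ (y - y0) = 0 := by rw [map_sub, hy.2, hy0.2, sub_self]
      have h2 : φ (y' - y0) = 0 := by rw [map_sub, hy'.2, hy0.2, sub_self]
      simp only [ψ, dif_pos h1, dif_pos h2, Subtype.mk.injEq, sub_left_inj] at hyy
      exact hyy
  have h1 := Finset.card_le_mul_card_image_of_maps_to hmaps _ hfib
  refine h1.trans ?_
  -- tiling
  haveI : Fintype ((R ⧸ Ideal.span {P}) ⧸ φ.range) := Fintype.ofFinite _
  have hrep : ∀ c : (R ⧸ Ideal.span {P}) ⧸ φ.range, ∃ y : R, sz B y ≤ K B * M ∧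
      (QuotientAddGroup.mk (mk y) : (R ⧸ Ideal.span {P}) ⧸ φ.range) = c := by
    intro c
    obtain ⟨z, rfl⟩ := QuotientAddGroup.mk_surjective c
    obtain ⟨x, rfl⟩ := Ideal.Quotient.mk_surjective z
    obtain ⟨q, y, hx, hy⟩ := exists_small_rep B g hg x
    refine ⟨y, hy.trans (Nat.mul_le_mul_left _ hgM), ?_⟩
    rw [QuotientAddGroup.eq]
    refine ⟨mk q, ?_⟩
    rw [hφ]
    change mk g * mk q = -mk y + mk x
    rw [hx, map_add, map_mul]
    ring
  choose rep hrep1 hrep2 using hrep
  have hf : ∀ b : (R ⧸ Ideal.span {P}), ∃ f : R, b ∈ t → mk f = b ∧ sz B f ≤ M := by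
    intro b
    by_cases hb : b ∈ t
    · have hb' := hb
      simp only [t, mem_filter, mem_univ, true_and] at hb'
      obtain ⟨⟨f, h2, h3⟩, _⟩ := hb'
      exact ⟨f, fun _ => ⟨h2, h3⟩⟩
    · exact ⟨0, fun h => absurd h hb⟩
  choose ff hff using hf
  have h2 : (t ×ˢ (univ : Finset ((R ⧸ Ideal.span {P}) ⧸ φ.range))).card ≤ (ball B ((K B + 1) * M)).card := by
    apply Finset.card_le_card_of_injOn (fun p => ff p.1 + rep p.2)
    · intro p hp
      rw [mem_coe, mem_product] at hp
      rw [mem_coe, mem_ball]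
      refine (sz_add B _ _).trans ?_
      have h3 := (hff p.1 hp.1).2
      have h4 := hrep1 p.2
      calc sz B (ff p.1) + sz B (rep p.2) ≤ M + K B * M := add_le_add h3 h4
        _ = (K B + 1) * M := by ring
    · intro p hp p' hp' hpp
      rw [mem_coe, mem_product] at hp hp'
      simp only at hpp
      have hr : ∀ b ∈ t, (QuotientAddGroup.mk (mk (ff b)) : (R ⧸ Ideal.span {P}) ⧸ φ.range) = 0 := by
        intro b hb
        rw [(hff b hb).1]
        have hb' := hb
        simp only [t, mem_filter, mem_univ, true_and] at hb'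
        exact (QuotientAddGroup.eq_zero_iff b).mpr hb'.2
      have h3 : (QuotientAddGroup.mk (mk (ff p.1 + rep p.2)) : (R ⧸ Ideal.span {P}) ⧸ φ.range) = p.2 := by
        rw [map_add, QuotientAddGroup.mk_add, hr p.1 hp.1, hrep2, zero_add]
      have h4 : (QuotientAddGroup.mk (mk (ff p'.1 + rep p'.2)) : (R ⧸ Ideal.span {P}) ⧸ φ.range) = p'.2 := by
        rw [map_add, QuotientAddGroup.mk_add, hr p'.1 hp'.1, hrep2, zero_add]
      have h5 : p.2 = p'.2 := by rw [← h3, ← h4, hpp]
      have h6 : ff p.1 = ff p'.1 := by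
        rw [h5] at hpp
        exact add_right_cancel hpp
      have h7 : p.1 = p'.1 := by
        rw [← (hff p.1 hp.1).1, ← (hff p'.1 hp'.1).1, h6]
      exact Prod.ext h7 h5
  rw [card_product, card_ball, card_univ, ← Nat.card_eq_fintype_card, ← hker] at h2
  calc Nat.card φ.ker * t.card = t.card * Nat.card φ.ker := mul_comm _ _
    _ ≤ _ := h2

/-- The constant in the counting lemma. -/
noncomputable def C2 (K' : ℕ) : ℕ := K' ^ d + 3 ^ d * (2 * (K B + 1) + 1) ^ d

/-- Few residue classes have a short vector. -/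
lemma count_short (hd : 0 < d) (P : R) (Q : ℕ) (hfin : Finite (R ⧸ Ideal.span {P}))
    (hQ : Nat.card (R ⧸ Ideal.span {P}) = Q) (K' : ℕ)
    (hgrow : ∀ f : R, f ≠ 0 → P ∣ f → Q ≤ (K' * sz B f) ^ d) (M : ℕ)
    (S : Finset (R ⧸ Ideal.span {P}))
    (hS : ∀ y ∈ S, ∃ A : R, Ideal.Quotient.mk _ A = y ∧ mu B P A ≤ M) :
    S.card ≤ C2 B K' * M ^ (2 * d) := by
  classical
  have := Fintype.ofFinite (R ⧸ Ideal.span {P})
  rcases Nat.eq_zero_or_pos M with hM | hM
  · -- impossible unless S is empty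
    have : S = ∅ := by
      rw [Finset.eq_empty_iff_forall_notMem]
      intro y hy
      obtain ⟨A, _, h2⟩ := hS y hy
      have := mu_pos B P A
      omega
    rw [this]; simp
  have hMd : M ^ d ≤ M ^ (2 * d) := Nat.pow_le_pow_right hM (by omega)
  by_cases hcase : ∃ f : R, f ≠ 0 ∧ P ∣ f ∧ sz B f ≤ M
  · obtain ⟨f, hf0, hf1, hf2⟩ := hcase
    have h1 := hgrow f hf0 hf1
    have h2 : S.card ≤ Q := by
      rw [← hQ, Nat.card_eq_fintype_card]
      exact Finset.card_le_univ S
    calc S.card ≤ Q := h2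
      _ ≤ (K' * sz B f) ^ d := h1
      _ ≤ (K' * M) ^ d := Nat.pow_le_pow_left (Nat.mul_le_mul_left _ hf2) d
      _ = K' ^ d * M ^ d := mul_pow _ _ _
      _ ≤ C2 B K' * M ^ (2 * d) := Nat.mul_le_mul (by unfold C2; omega) hMd
  · push Not at hcase
    let Sg : R → Finset (R ⧸ Ideal.span {P}) := fun g =>
      univ.filter (fun y => ∃ A f : R, Ideal.Quotient.mk _ A = y ∧ sz B f ≤ M ∧ P ∣ g * A - f)
    have hsub : S ⊆ ((ball B M).filter (fun g => g ≠ 0)).biUnion Sg := by
      intro y hy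
      obtain ⟨A, h1, h2⟩ := hS y hy
      obtain ⟨f, g, hne, hP, e⟩ := mu_mem B P A
      have hf : sz B f ≤ M := (le_max_left _ _).trans (e ▸ h2)
      have hg : sz B g ≤ M := (le_max_right _ _).trans (e ▸ h2)
      rw [mem_biUnion]
      refine ⟨g, ?_, ?_⟩
      · rw [mem_filter, mem_ball]
        refine ⟨hg, ?_⟩
        intro hg0
        have hf0 : f ≠ 0 := fun hf0 => hne ⟨hf0, hg0⟩
        have hPf : P ∣ f := by
          rw [hg0] at hP
          have : f = -(0 * A - f) := by ring
          rw [this]; exact hP.neg_right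
        have := hcase f hf0 hPf
        omega
      · simp only [Sg, mem_filter, mem_univ, true_and]
        exact ⟨A, f, h1, hf, hP⟩
    have h1 : ∀ g ∈ (ball B M).filter (fun g => g ≠ 0),
        (Sg g).card ≤ (2 * ((K B + 1) * M) + 1) ^ d := by
      intro g hg
      rw [mem_filter, mem_ball] at hg
      refine count_g B P g hg.2 hfin M hg.1 (Sg g) ?_
      intro y hy
      simp only [Sg, mem_filter, mem_univ, true_and] at hy
      exact hy
    calc S.card ≤ _ := card_le_card hsub
      _ ≤ ∑ g ∈ (ball B M).filter (fun g => g ≠ 0), (Sg g).card := card_biUnion_le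
      _ ≤ ∑ g ∈ (ball B M).filter (fun g => g ≠ 0), (2 * ((K B + 1) * M) + 1) ^ d :=
          sum_le_sum h1
      _ = ((ball B M).filter (fun g => g ≠ 0)).card * (2 * ((K B + 1) * M) + 1) ^ d := by
          rw [sum_const, smul_eq_mul]
      _ ≤ (2 * M + 1) ^ d * (2 * ((K B + 1) * M) + 1) ^ d := by
          apply Nat.mul_le_mul_right
          rw [← card_ball B M]
          exact card_filter_le _ _
      _ ≤ (3 * M) ^ d * ((2 * (K B + 1) + 1) * M) ^ d := by
          apply Nat.mul_le_mul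
          · exact Nat.pow_le_pow_left (by omega) d
          · apply Nat.pow_le_pow_left
            nlinarith
      _ = (3 ^ d * (2 * (K B + 1) + 1) ^ d) * M ^ (2 * d) := by
          have hMM : M ^ (2 * d) = M ^ d * M ^ d := by rw [← pow_add]; congr 1; omega
          rw [mul_pow, mul_pow, hMM]; ring
      _ ≤ C2 B K' * M ^ (2 * d) := Nat.mul_le_mul_right _ (by unfold C2; omega)

end Pool.Agent.Q327.PiAdic
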