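import Mathlib
import Pool.Agent.Q327.PiAdicCount

/-!
`π`-adic expansions with digits `0, ..., N - 1` in `ℤ[π]`, `π^d = ± N`.
-/

set_option autoImplicit false

namespace Pool.Agent.Q327.PiAdic

open Finset

variable {R : Type*} [CommRing R]

/-- The truncation `∑_{i < m} b_i π^i`. -/
def trunc (N : ℕ) (π : R) (b : ℕ → Fin N) (m : ℕ) : R :=
  ∑ i ∈ range m, ((b i : ℕ) : R) * π ^ i

/-- The element `∑_{i < n} a_i π^i`. -/
def code (N : ℕ) (π : R) {n : ℕ} (a : Fin n → Fin N) : R :=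
  ∑ i : Fin n, ((a i : ℕ) : R) * π ^ (i : ℕ)

lemma trunc_succ (N : ℕ) (π : R) (b : ℕ → Fin N) (m : ℕ) :
    trunc N π b (m + 1) = trunc N π b m + ((b m : ℕ) : R) * π ^ m := by
  unfold trunc
  rw [sum_range_succ]

lemma trunc_add (N : ℕ) (π : R) (b : ℕ → Fin N) (m k : ℕ) :
    π ^ m ∣ trunc N π b (m + k) - trunc N π b m := by
  induction k with
  | zero => simp
  | succ k ih =>
    rw [← add_assoc, trunc_succ]
    have h1 : π ^ m ∣ ((b (m + k) : ℕ) : R) * π ^ (m + k) :=
      Dvd.dvd.mul_left (pow_dvd_pow _ (Nat.le_add_right _ _)) _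
    have h2 := dvd_add ih h1
    have h3 : trunc N π b (m + k) + ((b (m + k) : ℕ) : R) * π ^ (m + k) - trunc N π b m =
      trunc N π b (m + k) - trunc N π b m + ((b (m + k) : ℕ) : R) * π ^ (m + k) := by ring
    rw [h3]; exact h2

lemma trunc_eq_code (N : ℕ) (π : R) {n : ℕ} (a : Fin n → Fin N) (b : ℕ → Fin N)
    (h : ∀ i : Fin n, b i = a i) : trunc N π b n = code N π a := by
  unfold trunc code
  rw [Finset.sum_range]
  refine Finset.sum_congr rfl fun i _ => ?_
  rw [h i]

lemma code_succ (N : ℕ) (π : R) {n : ℕ} (a : Fin (n + 1) → Fin N) :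
    code N π a = ((a 0 : ℕ) : R) + π * code N π (Fin.tail a) := by
  unfold code
  rw [Fin.sum_univ_succ, mul_sum]
  congr 1
  · simp
  · refine Finset.sum_congr rfl fun i _ => ?_
    simp only [Fin.tail, Fin.val_succ, pow_succ]
    ring

variable {d : ℕ} (B : Module.Basis (Fin d) ℤ R) [IsDomain R]

section

variable {N : ℕ} {π : R} {ε : ℤ}

/-- The setting: `1, π, ..., π^(d-1)` is a basis of `R` over `ℤ` and `π^d = ε N`, `ε = ± 1`. -/
structure Setting (B : Module.Basis (Fin d) ℤ R) (N : ℕ) (π : R) (ε : ℤ) : Prop where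
  hd : 0 < d
  hN : 2 ≤ N
  hB : ∀ i, B i = π ^ (i : ℕ)
  hε : ε = 1 ∨ ε = -1
  hπ : π ^ d = ((ε * N : ℤ) : R)

variable (h : Setting B N π ε)
include h

lemma Setting.natAbs : (ε * (N : ℤ)).natAbs = N := by
  rcases h.hε with h1 | h1 <;> rw [h1] <;> simp

lemma Setting.pi_ne_zero : π ≠ 0 := by
  intro h0
  have h1 := h.hπ
  rw [h0, zero_pow h.hd.ne'] at h1
  have hN := h.hN
  have h2 : (ε * (N : ℤ)) ≠ 0 := by
    intro h3
    have := h.natAbs
    rw [h3] at this
    simp at this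
    omega
  exact int_cast_ne_zero B h2 h1.symm

lemma Setting.pi_dvd_N : π ∣ (N : R) := by
  have h1 : π ∣ π ^ d := dvd_pow_self _ h.hd.ne'
  rw [h.hπ] at h1
  push_cast at h1
  rcases h.hε with h2 | h2
  · rw [h2] at h1; simpa using h1
  · rw [h2] at h1; simpa using h1

lemma Setting.one_eq : B ⟨0, h.hd⟩ = 1 := by
  rw [h.hB]; simp

lemma Setting.repr_int (m : ℤ) : B.repr (m : R) ⟨0, h.hd⟩ = m := by
  have h1 : (m : R) = (m : R) * B ⟨0, h.hd⟩ := by rw [h.one_eq, mul_one]
  rw [h1, repr_int_mul]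
  simp

/-- The zeroth coordinate of a multiple of `π` is a multiple of `N`. -/
lemma Setting.coord_zero (x : R) : (N : ℤ) ∣ B.repr (π * x) ⟨0, h.hd⟩ := by
  have hx := B.sum_repr x
  have h1 : π * x = ∑ i, ((B.repr x i : ℤ) : R) * (π * B i) := by
    conv_lhs => rw [← hx, mul_sum]
    refine Finset.sum_congr rfl fun i _ => ?_
    rw [zsmul_eq_mul]; ring
  rw [h1, map_sum, Finsupp.finset_sum_apply]
  apply Finset.dvd_sum
  intro i _
  rw [repr_int_mul]
  apply Dvd.dvd.mul_left
  have h2 : π * B i = π ^ ((i : ℕ) + 1) := by rw [h.hB, pow_succ]; ring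
  rw [h2]
  by_cases hi : (i : ℕ) + 1 < d
  · have h3 : π ^ ((i : ℕ) + 1) = B ⟨(i : ℕ) + 1, hi⟩ := by rw [h.hB]
    rw [h3, B.repr_self, Finsupp.single_apply, if_neg]
    · exact dvd_zero _
    · intro h4
      rw [Fin.mk.injEq] at h4
      omega
  · have h3 : (i : ℕ) + 1 = d := by have := i.2; omega
    rw [h3, h.hπ, h.repr_int]
    exact dvd_mul_left _ _

lemma Setting.dvd_int {m : ℤ} (hm : π ∣ (m : R)) : (N : ℤ) ∣ m := by
  obtain ⟨x, hx⟩ := hm
  have h1 := h.coord_zero B x
  rw [← hx, h.repr_int] at h1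
  exact h1

/-- Every residue class modulo `π` contains a digit. -/
lemma Setting.exists_digit (x : R) : ∃ c : Fin N, π ∣ x - ((c : ℕ) : R) := by
  have hN := h.hN
  have hx := B.sum_repr x
  set m := B.repr x ⟨0, h.hd⟩ with hm
  have h1 : π ∣ x - (m : R) := by
    have h2 : x - (m : R) = ∑ i ∈ univ.erase (⟨0, h.hd⟩ : Fin d), B.repr x i • B i := by
      conv_lhs => rw [← hx]
      rw [← Finset.add_sum_erase univ _ (mem_univ (⟨0, h.hd⟩ : Fin d)), h.one_eq]
      rw [zsmul_eq_mul, mul_one]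
      ring
    rw [h2]
    apply Finset.dvd_sum
    intro i hi
    rw [mem_erase] at hi
    rw [zsmul_eq_mul]
    apply Dvd.dvd.mul_left
    rw [h.hB]
    apply dvd_pow_self
    intro h3
    exact hi.1 (Fin.ext h3)
  have hNpos : (0 : ℤ) < N := by omega
  have h3 := Int.emod_nonneg m hNpos.ne'
  have h4 := Int.emod_lt_of_pos m hNpos
  refine ⟨⟨(m % N).toNat, by omega⟩, ?_⟩
  have h5 : (((m % N).toNat : ℕ) : R) = ((m % (N : ℤ) : ℤ) : R) := by
    have h51 : (((m % N).toNat : ℕ) : ℤ) = m % N := Int.toNat_of_nonneg h3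
    have h52 : (((m % N).toNat : ℕ) : R) = ((((m % N).toNat : ℕ) : ℤ) : R) := by
      rw [Int.cast_natCast]
    rw [h52, h51]
  simp only
  rw [h5]
  have h6 : π ∣ (m : R) - ((m % (N : ℤ) : ℤ) : R) := by
    have h7 : (m : R) - ((m % (N : ℤ) : ℤ) : R) = (N : R) * ((m / (N : ℤ) : ℤ) : R) := by
      have := Int.mul_ediv_add_emod m N
      have h8 : (m : R) = (((N : ℤ) * (m / N) + m % N : ℤ) : R) := by rw [this]
      conv_lhs => rw [h8]
      push_cast
      ring
    rw [h7]
    exact Dvd.dvd.mul_right (h.pi_dvd_N) _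
  have := dvd_add h1 h6
  have h9 : x - (m : R) + ((m : R) - ((m % (N : ℤ) : ℤ) : R)) = x - ((m % (N : ℤ) : ℤ) : R) := by
    ring
  rwa [h9] at this

lemma Setting.code_inj {n : ℕ} (a a' : Fin n → Fin N)
    (hdvd : π ^ n ∣ code N π a - code N π a') : a = a' := by
  have hN := h.hN
  induction n with
  | zero => funext i; exact i.elim0
  | succ n ih =>
    rw [code_succ, code_succ] at hdvd
    have h1 : π ∣ (((a 0 : ℕ) : ℤ) - ((a' 0 : ℕ) : ℤ) : ℤ) := by
      have h2 : π ∣ ((a 0 : ℕ) : R) + π * code N π (Fin.tail a) -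
          (((a' 0 : ℕ) : R) + π * code N π (Fin.tail a')) :=
        dvd_trans (dvd_pow_self _ (Nat.succ_ne_zero n)) hdvd
      have h3 : π ∣ π * (code N π (Fin.tail a) - code N π (Fin.tail a')) := dvd_mul_right _ _
      have h4 := dvd_sub h2 h3
      have h5 : ((a 0 : ℕ) : R) + π * code N π (Fin.tail a) -
          (((a' 0 : ℕ) : R) + π * code N π (Fin.tail a')) -
          π * (code N π (Fin.tail a) - code N π (Fin.tail a')) =
          ((((a 0 : ℕ) : ℤ) - ((a' 0 : ℕ) : ℤ) : ℤ) : R) := by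
        push_cast; ring
      rwa [h5] at h4
    have h2 := h.dvd_int B h1
    have h3 : (a 0 : ℕ) = (a' 0 : ℕ) := by
      have h4 := (a 0).2
      have h5 := (a' 0).2
      have h6 := Int.eq_zero_of_abs_lt_dvd h2 (by rw [abs_lt]; constructor <;> omega)
      omega
    have h4 : π ^ n ∣ code N π (Fin.tail a) - code N π (Fin.tail a') := by
      have h5 : π ^ n * π ∣ (code N π (Fin.tail a) - code N π (Fin.tail a')) * π := by
        rw [← pow_succ]
        have h6 : ((a 0 : ℕ) : R) + π * code N π (Fin.tail a) -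
          (((a' 0 : ℕ) : R) + π * code N π (Fin.tail a')) =
          (code N π (Fin.tail a) - code N π (Fin.tail a')) * π := by
          rw [h3]; ring
        rwa [h6] at hdvd
      exact (mul_dvd_mul_iff_right (h.pi_ne_zero)).mp h5
    have h5 := ih _ _ h4
    funext i
    refine Fin.cases ?_ (fun j => ?_) i
    · exact Fin.ext h3
    · exact congrFun h5 j

lemma Setting.code_surj (n : ℕ) (x : R) : ∃ a : Fin n → Fin N, π ^ n ∣ x - code N π a := by
  induction n generalizing x with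
  | zero => exact ⟨fun i => i.elim0, by simp⟩
  | succ n ih =>
    obtain ⟨c, y, hy⟩ := h.exists_digit B x
    obtain ⟨a, ha⟩ := ih y
    refine ⟨Fin.cons c a, ?_⟩
    rw [code_succ]
    simp only [Fin.cons_zero, Fin.tail_cons]
    have h1 : x - (((c : ℕ) : R) + π * code N π a) = π * (y - code N π a) := by
      linear_combination hy
    rw [h1, pow_succ, mul_comm]
    exact mul_dvd_mul_left _ ha

lemma Setting.bijective (n : ℕ) : Function.Bijective
    (fun a : Fin n → Fin N => Ideal.Quotient.mk (Ideal.span {π ^ n}) (code N π a)) := by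
  constructor
  · intro a a' haa
    simp only at haa
    rw [Ideal.Quotient.eq, Ideal.mem_span_singleton] at haa
    exact h.code_inj B a a' haa
  · intro y
    obtain ⟨x, rfl⟩ := Ideal.Quotient.mk_surjective y
    obtain ⟨a, ha⟩ := h.code_surj B n x
    refine ⟨a, ?_⟩
    simp only
    rw [eq_comm, Ideal.Quotient.eq, Ideal.mem_span_singleton]
    exact ha

lemma Setting.finite (n : ℕ) : Finite (R ⧸ Ideal.span {π ^ n}) :=
  Finite.of_surjective _ (h.bijective B n).2

lemma Setting.card (n : ℕ) : Nat.card (R ⧸ Ideal.span {π ^ n}) = N ^ n := by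
  rw [← Nat.card_eq_of_bijective _ (h.bijective B n)]
  simp

lemma Setting.grow (n : ℕ) (f : R) (hf : f ≠ 0) (hdvd : π ^ n ∣ f) :
    N ^ n ≤ (K B * sz B f) ^ d := by
  obtain ⟨x, hx⟩ := hdvd
  have hd := h.hd
  have hN := h.hN
  obtain ⟨r, q, hr, hq⟩ : ∃ r q : ℕ, r < d ∧ n + r = d * q := by
    have h1 := Nat.div_add_mod n d
    have h2 := Nat.mod_lt n hd
    by_cases h3 : n % d = 0
    · exact ⟨0, n / d, hd, by omega⟩
    · exact ⟨d - n % d, n / d + 1, by omega, by rw [mul_add, mul_one]; omega⟩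
  have h1 : π ^ r * f = (((ε * N) ^ q : ℤ) : R) * x := by
    rw [hx, ← mul_assoc, ← pow_add, add_comm r n, hq, pow_mul, h.hπ]
    push_cast
    ring
  have hx0 : x ≠ 0 := by
    intro h0; apply hf; rw [hx, h0, mul_zero]
  have h2 : sz B (π ^ r * f) = N ^ q * sz B x := by
    rw [h1, sz_int_mul, Int.natAbs_pow, h.natAbs]
  have h3 : sz B (π ^ r) ≤ 1 := by
    have h4 : π ^ r = B ⟨r, hr⟩ := by rw [h.hB]
    rw [h4, sz_le]
    intro i
    rw [B.repr_self, Finsupp.single_apply]
    split_ifs <;> simp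
  have h4 : sz B (π ^ r * f) ≤ K B * sz B f := by
    calc sz B (π ^ r * f) ≤ K B * sz B (π ^ r) * sz B f := sz_mul B _ _
      _ ≤ K B * 1 * sz B f := Nat.mul_le_mul_right _ (Nat.mul_le_mul_left _ h3)
      _ = K B * sz B f := by ring
  have h5 : N ^ q ≤ K B * sz B f := by
    have := sz_pos B hx0
    rw [h2] at h4
    calc N ^ q ≤ N ^ q * sz B x := Nat.le_mul_of_pos_right _ this
      _ ≤ _ := h4
  calc N ^ n ≤ N ^ (d * q) := Nat.pow_le_pow_right (by omega) (by omega)
    _ = (N ^ q) ^ d := by rw [mul_comm, pow_mul]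
    _ ≤ (K B * sz B f) ^ d := Nat.pow_le_pow_left h5 d

/-- Extension of a congruence modulo `π^n` to a `π`-adic identity. -/
lemma Setting.exists_extension {n : ℕ} (a : Fin n → Fin N) (f g : R)
    (hg : IsCoprime g π) (hdvd : π ^ n ∣ g * code N π a - f) :
    ∃ b : ℕ → Fin N, (∀ i : Fin n, b i = a i) ∧
      ∀ m : ℕ, π ^ m ∣ g * trunc N π b m - f := by
  have hdig : ∀ c : R, ∃ e : Fin N, π ∣ c + g * ((e : ℕ) : R) := by
    intro c
    obtain ⟨u, v, huv⟩ := hg
    obtain ⟨e, he⟩ := h.exists_digit B (-c * u)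
    refine ⟨e, ?_⟩
    have h1 : c + g * ((e : ℕ) : R) = (c * v) * π - g * (-c * u - ((e : ℕ) : R)) := by
      linear_combination (-c) * huv
    rw [h1]
    exact dvd_sub (dvd_mul_left _ _) (Dvd.dvd.mul_left he _)
  choose dig hdig using hdig
  choose nxt hnxt using hdig
  obtain ⟨c0, hc0⟩ := hdvd
  let cs : ℕ → R := fun k => Nat.rec c0 (fun _ c => nxt c) k
  have hcs : ∀ k, cs k + g * ((dig (cs k) : ℕ) : R) = π * cs (k + 1) := fun k => hnxt (cs k)
  let b : ℕ → Fin N := fun i => if h : i < n then a ⟨i, h⟩ else dig (cs (i - n))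
  have hb : ∀ i : Fin n, b i = a i := by
    intro i
    simp only [b]
    rw [dif_pos i.2]
  have hb2 : ∀ k, b (n + k) = dig (cs k) := by
    intro k
    simp only [b]
    rw [dif_neg (by omega)]
    congr 2
    omega
  have key : ∀ k, g * trunc N π b (n + k) - f = cs k * π ^ (n + k) := by
    intro k
    induction k with
    | zero =>
      rw [add_zero, trunc_eq_code N π a b hb, hc0]
      exact mul_comm _ _
    | succ k ih =>
      rw [← add_assoc, trunc_succ, hb2, pow_succ]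
      have := hcs k
      linear_combination ih + π ^ (n + k) * this
  refine ⟨b, hb, fun m => ?_⟩
  rcases le_total n m with hm | hm
  · obtain ⟨k, rfl⟩ := Nat.exists_eq_add_of_le hm
    rw [key]
    exact dvd_mul_left _ _
  · obtain ⟨k, hk⟩ := Nat.exists_eq_add_of_le hm
    have h1 := trunc_add N π b m k
    rw [← hk] at h1
    have h2 := key 0
    rw [add_zero] at h2
    have h3 : π ^ m ∣ g * trunc N π b n - f := by
      rw [h2]
      exact Dvd.dvd.mul_left (pow_dvd_pow _ hm) _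
    have h4 : g * trunc N π b m - f =
        (g * trunc N π b n - f) - g * (trunc N π b n - trunc N π b m) := by ring
    rw [h4]
    exact dvd_sub h3 (Dvd.dvd.mul_left h1 _)

lemma Setting.coprime_of_eq {G : R} (hG : ∃ z : R, G = 1 + (N : R) * z) : IsCoprime G π := by
  obtain ⟨z, hz⟩ := hG
  obtain ⟨w, hw⟩ := h.pi_dvd_N
  refine ⟨1, -(w * z), ?_⟩
  rw [hz, hw]; ring

end

end Pool.Agent.Q327.PiAdic
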