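import Mathlib
import Pool.Agent.Q327.AvgTail
import Pool.Agent.Q327.PiAdicWords

/-!
The average `π`-adic complexity of the finite sequences of length `n` is `n / 2 + O(1)`.
-/

set_option autoImplicit false

namespace Pool.Agent.Q327.PiAdic

open Finset

/-- The sequence `b` with digits `0, ..., N - 1` is the output of an AFSR over `R` with parameter
`π` whose `π`-adic number is `f / g`: `g` is invertible modulo `π`, and `g ∑ b_i π^i = f`
`π`-adically, that is, modulo every power of `π`. -/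
def Outputs {R : Type*} [CommRing R] (N : ℕ) (π : R) (b : ℕ → Fin N) (f g : R) : Prop :=
  IsCoprime g π ∧ ∀ m : ℕ, π ^ m ∣ g * trunc N π b m - f

/-- The sizes `max(φ(f), φ(g))` of all AFSRs whose first `n` outputs are `a_0, ..., a_{n-1}`. -/
def sizes {R : Type*} [CommRing R] (N : ℕ) (π : R) (φ : R → ℝ) {n : ℕ} (a : Fin n → Fin N) :
    Set ℝ :=
  {r | ∃ (b : ℕ → Fin N) (f g : R), (∀ i : Fin n, b i = a i) ∧ Outputs N π b f g ∧
    r = max (φ f) (φ g)}

/-- The `π`-adic complexity of a finite sequence. -/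
noncomputable def lam {R : Type*} [CommRing R] (N : ℕ) (π : R) (φ : R → ℝ) {n : ℕ}
    (a : Fin n → Fin N) : ℝ := sInf (sizes N π φ a)

/-- The average `π`-adic complexity of the `N^n` sequences of length `n`. -/
noncomputable def Efin {R : Type*} [CommRing R] (N : ℕ) (π : R) (φ : R → ℝ) (n : ℕ) : ℝ :=
  (∑ a : Fin n → Fin N, lam N π φ a) / (N : ℝ) ^ n

section

variable {R : Type*} [CommRing R] [IsDomain R] {d : ℕ} {B : Module.Basis (Fin d) ℤ R}
  {N : ℕ} {π : R} {ε : ℤ}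

/-- The values `max(sz f, sz g)`. -/
def szs (B : Module.Basis (Fin d) ℤ R) (π : R) {n : ℕ} (a : Fin n → Fin N) : Set ℕ :=
  {m | ∃ f g : R, IsCoprime g π ∧ π ^ n ∣ g * code N π a - f ∧ m = max (sz B f) (sz B g)}

/-- The minimum of the values `max(sz f, sz g)`. -/
noncomputable def X (B : Module.Basis (Fin d) ℤ R) (π : R) {n : ℕ} (a : Fin n → Fin N) : ℕ :=
  sInf (szs B π a)

lemma szs_nonempty {n : ℕ} (a : Fin n → Fin N) : (szs B π a).Nonempty :=
  ⟨_, code N π a, 1, isCoprime_one_left, by simp, rfl⟩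

lemma X_mem {n : ℕ} (a : Fin n → Fin N) : X B π a ∈ szs B π a := Nat.sInf_mem (szs_nonempty a)

lemma ne_zero_of_coprime (h : Setting B N π ε) {g : R} (hg : IsCoprime g π) : g ≠ 0 := by
  rintro rfl
  rw [isCoprime_zero_left] at hg
  have h1 : π ∣ ((1 : ℤ) : R) := by
    rw [Int.cast_one]; exact hg.dvd
  have h2 := h.dvd_int B h1
  have := h.hN
  have := Int.le_of_dvd one_pos h2
  omega

lemma X_pos (h : Setting B N π ε) {n : ℕ} (a : Fin n → Fin N) : 0 < X B π a := by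
  obtain ⟨f, g, h1, _, e⟩ := X_mem (B := B) (π := π) a
  rw [e]
  exact lt_max_of_lt_right (sz_pos B (ne_zero_of_coprime h h1))

/-- A size function comparable with `d log_N sz`. -/
structure SizeFn (B : Module.Basis (Fin d) ℤ R) (N : ℕ) (φ : R → ℝ) (c : ℝ) : Prop where
  hc : 0 ≤ c
  zero : φ 0 ≤ 0
  lower : ∀ x : R, x ≠ 0 → (d : ℝ) * Real.logb N (sz B x) ≤ φ x
  upper : ∀ x : R, x ≠ 0 → φ x ≤ (d : ℝ) * Real.logb N (sz B x) + c

variable {φ : R → ℝ} {c : ℝ}

lemma logb_mono (h : Setting B N π ε) {p q : ℕ} (hp : 0 < p) (hpq : p ≤ q) :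
    (d : ℝ) * Real.logb N p ≤ (d : ℝ) * Real.logb N q := by
  have hN := h.hN
  apply mul_le_mul_of_nonneg_left _ (Nat.cast_nonneg d)
  apply Real.logb_le_logb_of_le
  · exact_mod_cast (by omega : 1 < N)
  · exact_mod_cast hp
  · exact_mod_cast hpq

lemma logb_nonneg' (h : Setting B N π ε) {p : ℕ} (hp : 0 < p) :
    0 ≤ (d : ℝ) * Real.logb N p := by
  have hN := h.hN
  apply mul_nonneg (Nat.cast_nonneg d)
  apply Real.logb_nonneg
  · exact_mod_cast (by omega : 1 < N)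
  · exact_mod_cast hp

lemma max_lower (h : Setting B N π ε) (hφ : SizeFn B N φ c) (f g : R) (hg : g ≠ 0) :
    (d : ℝ) * Real.logb N ((max (sz B f) (sz B g) : ℕ) : ℝ) ≤ max (φ f) (φ g) := by
  have hg0 := sz_pos B hg
  rcases le_total (sz B f) (sz B g) with h1 | h1
  · rw [max_eq_right h1]
    exact (hφ.lower g hg).trans (le_max_right _ _)
  · rw [max_eq_left h1]
    have hf : f ≠ 0 := by
      rintro rfl
      rw [sz_zero] at h1
      omega
    exact (hφ.lower f hf).trans (le_max_left _ _)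

lemma max_upper (h : Setting B N π ε) (hφ : SizeFn B N φ c) (f g : R) (hg : g ≠ 0) :
    max (φ f) (φ g) ≤ (d : ℝ) * Real.logb N ((max (sz B f) (sz B g) : ℕ) : ℝ) + c := by
  have hg0 := sz_pos B hg
  have hpos : 0 < max (sz B f) (sz B g) := lt_max_of_lt_right hg0
  apply max_le
  · by_cases hf : f = 0
    · rw [hf]
      have h1 := hφ.zero
      have h2 := logb_nonneg' h (p := max (sz B 0) (sz B g)) (lt_max_of_lt_right hg0)
      have h3 := hφ.hc
      linarith
    · have h1 := hφ.upper f hf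
      have h2 := logb_mono h (sz_pos B hf) (le_max_left (sz B f) (sz B g))
      linarith
  · have h1 := hφ.upper g hg
    have h2 := logb_mono h hg0 (le_max_right (sz B f) (sz B g))
    linarith

lemma sizes_nonempty (h : Setting B N π ε) (φ : R → ℝ) {n : ℕ} (a : Fin n → Fin N) :
    ∃ f g : R, X B π a = max (sz B f) (sz B g) ∧ g ≠ 0 ∧ max (φ f) (φ g) ∈ sizes N π φ a := by
  obtain ⟨f, g, h1, h2, e⟩ := X_mem (B := B) (π := π) a
  obtain ⟨b, h3, h4⟩ := h.exists_extension B a f g h1 h2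
  exact ⟨f, g, e, ne_zero_of_coprime h h1, b, f, g, h3, ⟨h1, h4⟩, rfl⟩

lemma sizes_lower (h : Setting B N π ε) (hφ : SizeFn B N φ c) {n : ℕ} (a : Fin n → Fin N) :
    ∀ r ∈ sizes N π φ a, (d : ℝ) * Real.logb N (X B π a) ≤ r := by
  rintro r ⟨b, f, g, h1, h2, rfl⟩
  have hg := ne_zero_of_coprime h h2.1
  refine le_trans ?_ (max_lower h hφ f g hg)
  apply logb_mono h (X_pos h a)
  apply Nat.sInf_le
  refine ⟨f, g, h2.1, ?_, rfl⟩
  have := h2.2 n
  rwa [trunc_eq_code N π a b h1] at this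

lemma lam_lower (h : Setting B N π ε) (hφ : SizeFn B N φ c) {n : ℕ} (a : Fin n → Fin N) :
    (d : ℝ) * Real.logb N (X B π a) ≤ lam N π φ a := by
  obtain ⟨f, g, _, _, hmem⟩ := sizes_nonempty h φ a
  exact le_csInf ⟨_, hmem⟩ (sizes_lower h hφ a)

lemma lam_upper (h : Setting B N π ε) (hφ : SizeFn B N φ c) {n : ℕ} (a : Fin n → Fin N) :
    lam N π φ a ≤ (d : ℝ) * Real.logb N (X B π a) + c := by
  obtain ⟨f, g, e, hg, hmem⟩ := sizes_nonempty h φ a
  have h1 : lam N π φ a ≤ max (φ f) (φ g) :=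
    csInf_le ⟨_, fun r hr => sizes_lower h hφ a r hr⟩ hmem
  have h2 := max_upper h hφ f g hg
  rw [← e] at h2
  exact h1.trans h2

/-- The infimum is a minimum. -/
lemma isLeast (h : Setting B N π ε) (hφ : SizeFn B N φ c) {n : ℕ} (a : Fin n → Fin N) :
    IsLeast (sizes N π φ a) (lam N π φ a) := by
  obtain ⟨f0, g0, _, _, hmem⟩ := sizes_nonempty h φ a
  set r0 := max (φ f0) (φ g0) with hr0
  have hN := h.hN
  have hd := h.hd
  have hN1 : (1 : ℝ) < N := by exact_mod_cast (by omega : 1 < N)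
  have hdr : (0 : ℝ) < d := by exact_mod_cast hd
  set M : ℕ := ⌊(N : ℝ) ^ (r0 / d)⌋₊ with hM
  have hfin : (sizes N π φ a ∩ Set.Iic r0).Finite := by
    apply Set.Finite.subset ((ball B M ×ˢ ball B M).image
      (fun p : R × R => max (φ p.1) (φ p.2))).finite_toSet
    rintro r ⟨⟨b, f, g, h1, h2, rfl⟩, hr⟩
    rw [Set.mem_Iic] at hr
    have hg := ne_zero_of_coprime h h2.1
    have h3 := (max_lower h hφ f g hg).trans hr
    have hpos : 0 < max (sz B f) (sz B g) := lt_max_of_lt_right (sz_pos B hg)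
    have h4 : max (sz B f) (sz B g) ≤ M := by
      apply Nat.le_floor
      rw [← Real.logb_le_iff_le_rpow hN1 (by exact_mod_cast hpos)]
      rw [le_div_iff₀ hdr]
      linarith
    rw [mem_coe, mem_image]
    refine ⟨(f, g), ?_, rfl⟩
    rw [mem_product, mem_ball, mem_ball]
    exact ⟨(le_max_left _ _).trans h4, (le_max_right _ _).trans h4⟩
  obtain ⟨x, hx⟩ := hfin.isCompact.exists_isLeast ⟨r0, hmem, Set.mem_Iic.mpr le_rfl⟩
  have hx' : IsLeast (sizes N π φ a) x := by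
    refine ⟨hx.1.1, fun r hr => ?_⟩
    rcases le_total r r0 with h1 | h1
    · exact hx.2 ⟨hr, h1⟩
    · exact (hx.2 ⟨hmem, Set.mem_Iic.mpr le_rfl⟩).trans h1
  have : lam N π φ a = x := hx'.csInf_eq
  rw [this]; exact hx'

/-! ### Tails -/

lemma floor_bound (h : Setting B N π ε) (n j C : ℕ) (e : ℕ)
    (he : e ≤ C * ⌊(N : ℝ) ^ (((n : ℝ) / 2 - (j + 1 : ℕ)) / d)⌋₊ ^ (2 * d)) :
    (e : ℝ) ≤ C * (N : ℝ) ^ n * (1 / 4) ^ (j + 1) := by
  have hN := h.hN
  have hd := h.hd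
  have hN0 : (0 : ℝ) < N := by exact_mod_cast (by omega : 0 < N)
  have hdr : (0 : ℝ) < d := by exact_mod_cast hd
  have h1 : (⌊(N : ℝ) ^ (((n : ℝ) / 2 - (j + 1 : ℕ)) / d)⌋₊ : ℝ) ≤
      (N : ℝ) ^ (((n : ℝ) / 2 - (j + 1 : ℕ)) / d) := Nat.floor_le (by positivity)
  have h2 : ((N : ℝ) ^ (((n : ℝ) / 2 - (j + 1 : ℕ)) / d)) ^ (2 * d) =
      (N : ℝ) ^ n * ((1 : ℝ) / (N : ℝ) ^ 2) ^ (j + 1) := by
    rw [← Real.rpow_natCast, ← Real.rpow_mul hN0.le]
    have h3 : ((n : ℝ) / 2 - (j + 1 : ℕ)) / d * (2 * d : ℕ) = (n : ℝ) - ((2 * (j + 1) : ℕ) : ℝ) := by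
      push_cast
      field_simp
    rw [h3, Real.rpow_sub hN0, Real.rpow_natCast, Real.rpow_natCast, div_pow, one_pow,
      ← pow_mul]
    field_simp
  have h3 : ((1 : ℝ) / (N : ℝ) ^ 2) ^ (j + 1) ≤ (1 / 4) ^ (j + 1) := by
    apply pow_le_pow_left₀ (by positivity)
    apply one_div_le_one_div_of_le (by norm_num)
    have : (2 : ℝ) ≤ N := by exact_mod_cast hN
    nlinarith
  calc (e : ℝ) ≤ C * (⌊(N : ℝ) ^ (((n : ℝ) / 2 - (j + 1 : ℕ)) / d)⌋₊ : ℝ) ^ (2 * d) := by
        exact_mod_cast he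
    _ ≤ C * ((N : ℝ) ^ (((n : ℝ) / 2 - (j + 1 : ℕ)) / d)) ^ (2 * d) := by
        apply mul_le_mul_of_nonneg_left _ (Nat.cast_nonneg C)
        exact pow_le_pow_left₀ (Nat.cast_nonneg _) h1 _
    _ = C * (N : ℝ) ^ n * ((1 : ℝ) / (N : ℝ) ^ 2) ^ (j + 1) := by rw [h2]; ring
    _ ≤ C * (N : ℝ) ^ n * (1 / 4) ^ (j + 1) := by
        apply mul_le_mul_of_nonneg_left h3 (by positivity)

lemma le_floor_of_logb (h : Setting B N π ε) (m : ℕ) (hm : 0 < m) (t : ℝ)
    (ht : (d : ℝ) * Real.logb N m < t) : m ≤ ⌊(N : ℝ) ^ (t / d)⌋₊ := by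
  have hN := h.hN
  have hd := h.hd
  apply Nat.le_floor
  have hN1 : (1 : ℝ) < N := by exact_mod_cast (by omega : 1 < N)
  have hdr : (0 : ℝ) < d := by exact_mod_cast hd
  rw [← Real.logb_le_iff_le_rpow hN1 (by exact_mod_cast hm), le_div_iff₀ hdr]
  linarith

lemma tail_X (h : Setting B N π ε) (n M : ℕ) (S : Finset (Fin n → Fin N))
    (hS : ∀ a ∈ S, X B π a ≤ M) : S.card ≤ 9 ^ d * M ^ (2 * d) := by
  classical
  rcases Nat.eq_zero_or_pos M with hM | hM
  · have : S = ∅ := by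
      rw [Finset.eq_empty_iff_forall_notMem]
      intro a ha
      have h1 := hS a ha
      have h2 := X_pos h a
      omega
    rw [this]; simp
  have h1 : ∀ a : Fin n → Fin N, ∃ p : R × R, IsCoprime p.2 π ∧
      π ^ n ∣ p.2 * code N π a - p.1 ∧ X B π a = max (sz B p.1) (sz B p.2) := by
    intro a
    obtain ⟨f, g, h1, h2, e⟩ := X_mem (B := B) (π := π) a
    exact ⟨(f, g), h1, h2, e⟩
  choose p hpc hpd hpX using h1
  have hmaps : ∀ a ∈ S, p a ∈ ball B M ×ˢ ball B M := by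
    intro a ha
    have h2 := hS a ha
    rw [hpX] at h2
    rw [mem_product, mem_ball, mem_ball]
    exact ⟨(le_max_left _ _).trans h2, (le_max_right _ _).trans h2⟩
  have hinj : Set.InjOn p S := by
    intro a _ a' _ haa
    apply h.code_inj B
    have h2 := hpd a
    have h3 := hpd a'
    rw [← haa] at h3
    have h4 := dvd_sub h2 h3
    have h5 : (p a).2 * code N π a - (p a).1 - ((p a).2 * code N π a' - (p a).1) =
        (p a).2 * (code N π a - code N π a') := by ring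
    rw [h5] at h4
    exact (IsCoprime.pow_left (hpc a).symm).dvd_of_dvd_mul_left h4
  have hcard := Finset.card_le_card_of_injOn p hmaps hinj
  rw [card_product, card_ball] at hcard
  calc S.card ≤ (2 * M + 1) ^ d * (2 * M + 1) ^ d := hcard
    _ ≤ (3 * M) ^ d * (3 * M) ^ d := by
        have : (2 * M + 1) ^ d ≤ (3 * M) ^ d := Nat.pow_le_pow_left (by omega) d
        exact Nat.mul_le_mul this this
    _ = 9 ^ d * M ^ (2 * d) := by
        rw [← mul_pow, pow_mul, ← mul_pow]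
        congr 1
        ring

lemma avg_X (h : Setting B N π ε) (n : ℕ) :
    (N : ℝ) ^ n * ((n : ℝ) / 2 - (1 + (9 ^ d : ℕ) / 3)) ≤
      ∑ a : Fin n → Fin N, (d : ℝ) * Real.logb N (X B π a) := by
  refine mean_ge (Finset.univ : Finset (Fin n → Fin N)) ((N : ℝ) ^ n) ((n : ℝ) / 2)
    ((9 ^ d : ℕ) : ℝ) (by positivity) (by simp) _ (fun a _ => logb_nonneg' h (X_pos h a))
    (by positivity) ?_
  intro j
  apply floor_bound h
  apply tail_X h
  intro a ha
  rw [mem_filter] at ha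
  exact le_floor_of_logb h _ (X_pos h a) _ ha.2

lemma avg_mu (h : Setting B N π ε) (n : ℕ) :
    (N : ℝ) ^ n * ((n : ℝ) / 2 - (1 + (C2 B (K B) : ℕ) / 3)) ≤
      ∑ a : Fin n → Fin N, (d : ℝ) * Real.logb N (mu B (π ^ n) (code N π a)) := by
  classical
  refine mean_ge (Finset.univ : Finset (Fin n → Fin N)) ((N : ℝ) ^ n) ((n : ℝ) / 2)
    ((C2 B (K B) : ℕ) : ℝ) (by positivity) (by simp) _
    (fun a _ => logb_nonneg' h (mu_pos B _ _)) (by positivity) ?_
  intro j
  apply floor_bound h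
  set S := (Finset.univ : Finset (Fin n → Fin N)).filter (fun a =>
    (d : ℝ) * Real.logb N (mu B (π ^ n) (code N π a)) < (n : ℝ) / 2 - (j + 1 : ℕ)) with hS
  have h1 : (S.image (fun a : Fin n → Fin N =>
      Ideal.Quotient.mk (Ideal.span {π ^ n}) (code N π a))).card = S.card :=
    card_image_of_injective _ (h.bijective B n).1
  rw [← h1]
  apply count_short B h.hd (π ^ n) (N ^ n) (h.finite B n) (h.card B n) (K B)
    (fun f hf hP => h.grow B n f hf hP)
  intro y hy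
  rw [mem_image] at hy
  obtain ⟨a, ha, rfl⟩ := hy
  rw [hS, mem_filter] at ha
  exact ⟨code N π a, rfl, le_floor_of_logb h _ (mu_pos B _ _) _ ha.2⟩

lemma X_le (h : Setting B N π ε) {n : ℕ} (a : Fin n → Fin N) :
    (d : ℝ) * Real.logb N (X B π a) ≤
      (n : ℝ) + (d : ℝ) * Real.logb N ((6 * K B * N : ℕ) : ℝ) -
        (d : ℝ) * Real.logb N (mu B (π ^ n) (code N π a)) := by
  have hN := h.hN
  have hN1 : (1 : ℝ) < N := by exact_mod_cast (by omega : 1 < N)
  have hN0 : (0 : ℝ) < N := by linarith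
  obtain ⟨F, G, hG, hdvd, hsize⟩ := good_vector B h.hd N (by omega) (π ^ n) (code N π a) (N ^ n)
    (h.finite B n) (h.card B n)
  have h1 : X B π a ≤ max (sz B F) (sz B G) :=
    Nat.sInf_le ⟨F, G, h.coprime_of_eq B hG, hdvd, rfl⟩
  have h2 : X B π a ^ d * mu B (π ^ n) (code N π a) ^ d ≤ (6 * K B * N) ^ d * N ^ n :=
    (Nat.mul_le_mul_right _ (Nat.pow_le_pow_left h1 d)).trans hsize
  have h3 : (0 : ℝ) < X B π a := by exact_mod_cast X_pos h a
  have h4 : (0 : ℝ) < mu B (π ^ n) (code N π a) := by exact_mod_cast mu_pos B _ _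
  have h5 : (0 : ℝ) < ((6 * K B * N : ℕ) : ℝ) := by
    have := K_pos B
    exact_mod_cast (by positivity : 0 < 6 * K B * N)
  have h6 : ((X B π a : ℝ)) ^ d * (mu B (π ^ n) (code N π a) : ℝ) ^ d ≤
      (((6 * K B * N : ℕ) : ℝ)) ^ d * (N : ℝ) ^ n := by exact_mod_cast h2
  have h7 := Real.logb_le_logb_of_le hN1 (by positivity) h6
  rw [Real.logb_mul (by positivity) (by positivity), Real.logb_mul (by positivity) (by positivity),
    Real.logb_pow, Real.logb_pow, Real.logb_pow, Real.logb_pow, Real.logb_self_eq_one hN1,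
    mul_one] at h7
  linarith

/-- **Core theorem**: the average is `n / 2 + O(1)`. -/
theorem core (h : Setting B N π ε) (hφ : SizeFn B N φ c) :
    ∃ C : ℝ, ∀ n : ℕ, |Efin N π φ n - (n : ℝ) / 2| ≤ C := by
  have hN := h.hN
  have hN0 : (0 : ℝ) < N := by exact_mod_cast (by omega : 0 < N)
  set c1 : ℝ := 1 + (9 ^ d : ℕ) / 3 with hc1
  set c2 : ℝ := 1 + (C2 B (K B) : ℕ) / 3 with hc2
  set c3 : ℝ := (d : ℝ) * Real.logb N ((6 * K B * N : ℕ) : ℝ) with hc3
  refine ⟨max c1 (c2 + c3 + c), fun n => ?_⟩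
  have hpow : (0 : ℝ) < (N : ℝ) ^ n := by positivity
  have hlow : (n : ℝ) / 2 - c1 ≤ Efin N π φ n := by
    unfold Efin
    rw [le_div_iff₀ hpow]
    calc ((n : ℝ) / 2 - c1) * (N : ℝ) ^ n = (N : ℝ) ^ n * ((n : ℝ) / 2 - c1) := mul_comm _ _
      _ ≤ ∑ a : Fin n → Fin N, (d : ℝ) * Real.logb N (X B π a) := avg_X h n
      _ ≤ ∑ a : Fin n → Fin N, lam N π φ a := sum_le_sum fun a _ => lam_lower h hφ a
  have hup : Efin N π φ n ≤ (n : ℝ) / 2 + (c2 + c3 + c) := by
    unfold Efin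
    rw [div_le_iff₀ hpow]
    calc ∑ a : Fin n → Fin N, lam N π φ a
        ≤ ∑ a : Fin n → Fin N, (((n : ℝ) + c3 + c) -
            (d : ℝ) * Real.logb N (mu B (π ^ n) (code N π a))) := by
          refine sum_le_sum fun a _ => ?_
          have h1 := lam_upper h hφ a
          have h2 := X_le h a
          linarith
      _ = (N : ℝ) ^ n * ((n : ℝ) + c3 + c) -
          ∑ a : Fin n → Fin N, (d : ℝ) * Real.logb N (mu B (π ^ n) (code N π a)) := by
          rw [sum_sub_distrib]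
          simp
          ring
      _ ≤ ((n : ℝ) / 2 + (c2 + c3 + c)) * (N : ℝ) ^ n := by
          have := avg_mu h n
          rw [← hc2] at this
          linarith
  rw [abs_le]
  constructor
  · have := le_max_left c1 (c2 + c3 + c)
    linarith
  · have := le_max_right c1 (c2 + c3 + c)
    linarith

end

end Pool.Agent.Q327.PiAdic
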