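import Mathlib

/-!
Modularity of total termination: terms, monotonic well-orderings and the combination theorem.
-/

set_option autoImplicit false

namespace Pool.Agent.Q327.TT

/-- Terms over the signature `F` with arities `ar` and with variables from `V`. -/
inductive Term {F : Type} (ar : F → ℕ) (V : Type) : Type
  | var (x : V) : Term ar V
  | app (f : F) (ts : Fin (ar f) → Term ar V) : Term ar V

/-- Application of a substitution to a term. -/
def Term.subst {F : Type} {ar : F → ℕ} {V W : Type} (σ : V → Term ar W) : Term ar V → Term ar W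
  | .var x => σ x
  | .app f ts => .app f (fun i => (ts i).subst σ)

/-- Renaming of the function symbols of a term along a map that preserves the arities. -/
def Term.map {F G : Type} {ar : F → ℕ} {ar' : G → ℕ} {V : Type} (ι : F → G)
    (h : ∀ f, ar' (ι f) = ar f) : Term ar V → Term ar' V
  | .var x => .var x
  | .app f ts => .app (ι f) (fun i => (ts (Fin.cast (h f) i)).map ι h)

/-- The order `lt` on ground terms is monotonic: if a subterm is replaced by a larger one, the term
gets larger. -/
def Monotonic {F : Type} {ar : F → ℕ} (lt : Term ar Empty → Term ar Empty → Prop) : Prop :=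
  ∀ (f : F) (ts : Fin (ar f) → Term ar Empty) (i : Fin (ar f)) (s : Term ar Empty),
    lt (ts i) s → lt (.app f ts) (.app f (Function.update ts i s))

/-- There is a monotonic well-ordering of the ground terms in which, for all rules `(l, r)` and all
ground substitutions, the instance of `l` is larger than the instance of `r`. -/
def HasOrder {F : Type} {ar : F → ℕ} {V : Type} (R : Set (Term ar V × Term ar V)) : Prop :=
  ∃ lt : Term ar Empty → Term ar Empty → Prop, IsWellOrder (Term ar Empty) lt ∧ Monotonic lt ∧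
    ∀ ρ ∈ R, ∀ σ : V → Term ar Empty, lt (ρ.2.subst σ) (ρ.1.subst σ)

open Term Function

section Basic

variable {F : Type} {ar : F → ℕ} {V : Type}

lemma app_ne (t : Term ar V) : ∀ (f : F) (ts : Fin (ar f) → Term ar V) (i : Fin (ar f)),
    ts i = t → app f ts ≠ t := by
  induction t with
  | var x => intro f ts i h h2; cases h2
  | app g us ih =>
    intro f ts i h h2
    cases h2
    exact ih i g us i rfl h.symm

lemma lt_app [LinearOrder (Term ar Empty)] [WellFoundedLT (Term ar Empty)]
    (hm : ∀ (f : F) (ts : Fin (ar f) → Term ar Empty) (i : Fin (ar f)) (s : Term ar Empty),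
      ts i < s → app f ts < app f (update ts i s))
    (f : F) (ts : Fin (ar f) → Term ar Empty) (i : Fin (ar f)) : ts i < app f ts := by
  by_contra hcon
  have h1 : app f ts < ts i := lt_of_le_of_ne (not_lt.mp hcon) (app_ne _ f ts i rfl)
  have hne : {x : Term ar Empty | app f (update ts i x) < x}.Nonempty :=
    ⟨ts i, by simpa using h1⟩
  obtain ⟨x, hx, hmin⟩ := WellFounded.has_min (wellFounded_lt (α := Term ar Empty)) _ hne
  have hx' : app f (update ts i x) < x := hx
  refine hmin (app f (update ts i x)) ?_ hx'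
  have := hm f (update ts i (app f (update ts i x))) i x (by simpa using hx')
  simpa using this

end Basic

section Op

variable {F : Type} {ar : F → ℕ} [LinearOrder (Term ar Empty)] [WellFoundedLT (Term ar Empty)]

/-- first coordinate -/
def pr (φ : (Term ar Empty ×ₗ ℚ) ≃o ℚ) (x : ℚ) : Term ar Empty := (ofLex (φ.symm x)).1

/-- second coordinate -/
def qr (φ : (Term ar Empty ×ₗ ℚ) ≃o ℚ) (x : ℚ) : ℚ := (ofLex (φ.symm x)).2

/-- the action of the function symbols on the rational numbers -/
def opQ (φ : (Term ar Empty ×ₗ ℚ) ≃o ℚ) (f : F) (x : Fin (ar f) → ℚ) : ℚ :=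
  φ (toLex (app f (fun i => pr φ (x i)), ∑ i, qr φ (x i)))

omit [WellFoundedLT (Term ar Empty)] in
lemma eq_phi (φ : (Term ar Empty ×ₗ ℚ) ≃o ℚ) (x : ℚ) : φ (toLex (pr φ x, qr φ x)) = x := by
  unfold pr qr
  simp

omit [WellFoundedLT (Term ar Empty)] in
lemma phi_lt (φ : (Term ar Empty ×ₗ ℚ) ≃o ℚ) (a b : Term ar Empty) (q r : ℚ) :
    φ (toLex (a, q)) < φ (toLex (b, r)) ↔ a < b ∨ a = b ∧ q < r := by
  rw [φ.lt_iff_lt, Prod.Lex.toLex_lt_toLex]

omit [WellFoundedLT (Term ar Empty)] in
lemma pr_opQ (φ : (Term ar Empty ×ₗ ℚ) ≃o ℚ) (f : F) (x : Fin (ar f) → ℚ) :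
    pr φ (opQ φ f x) = app f (fun i => pr φ (x i)) := by
  unfold opQ
  simp [pr]

omit [WellFoundedLT (Term ar Empty)] in
lemma lt_cases (φ : (Term ar Empty ×ₗ ℚ) ≃o ℚ) {x y : ℚ} (h : x < y) :
    pr φ x < pr φ y ∨ pr φ x = pr φ y ∧ qr φ x < qr φ y := by
  rw [← phi_lt φ, eq_phi, eq_phi]
  exact h

omit [WellFoundedLT (Term ar Empty)] in
lemma lt_of_pr_lt (φ : (Term ar Empty ×ₗ ℚ) ≃o ℚ) {x y : ℚ} (h : pr φ x < pr φ y) : x < y := by
  rw [← eq_phi φ x, ← eq_phi φ y, phi_lt]
  exact Or.inl h

omit [WellFoundedLT (Term ar Empty)] in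
lemma pr_mono (φ : (Term ar Empty ×ₗ ℚ) ≃o ℚ) {x y : ℚ} (h : x ≤ y) : pr φ x ≤ pr φ y := by
  rcases h.eq_or_lt with h | h
  · rw [h]
  · rcases lt_cases φ h with h | h
    · exact h.le
    · exact h.1.le

omit [WellFoundedLT (Term ar Empty)] in
lemma opQ_strict (φ : (Term ar Empty ×ₗ ℚ) ≃o ℚ)
    (hm : ∀ (f : F) (ts : Fin (ar f) → Term ar Empty) (i : Fin (ar f)) (s : Term ar Empty),
      ts i < s → app f ts < app f (update ts i s))
    (f : F) (x : Fin (ar f) → ℚ) (i : Fin (ar f)) (y : ℚ) (h : x i < y) :
    opQ φ f x < opQ φ f (update x i y) := by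
  unfold opQ
  rw [phi_lt]
  have h1 : (fun j => pr φ (update x i y j)) = update (fun j => pr φ (x j)) i (pr φ y) := by
    funext j
    by_cases hj : j = i
    · subst hj; simp
    · simp [hj]
  rcases lt_cases φ h with h2 | ⟨h2, h3⟩
  · left
    rw [h1]
    exact hm f _ i _ h2
  · right
    constructor
    · rw [h1, ← h2]
      congr 1
      exact (update_eq_self i (fun j => pr φ (x j))).symm
    · apply Finset.sum_lt_sum
      · intro j _
        by_cases hj : j = i
        · subst hj; simpa using h3.le
        · simp [hj]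
      · exact ⟨i, Finset.mem_univ _, by simpa using h3⟩

lemma lt_opQ (φ : (Term ar Empty ×ₗ ℚ) ≃o ℚ)
    (hm : ∀ (f : F) (ts : Fin (ar f) → Term ar Empty) (i : Fin (ar f)) (s : Term ar Empty),
      ts i < s → app f ts < app f (update ts i s))
    (f : F) (x : Fin (ar f) → ℚ) (i : Fin (ar f)) : x i < opQ φ f x := by
  apply lt_of_pr_lt φ
  rw [pr_opQ]
  exact lt_app hm f (fun j => pr φ (x j)) i

end Op

/-- A function that is strictly increasing in every coordinate is monotone. -/
lemma monotone_of_strict {n : ℕ} (g : (Fin n → ℚ) → ℚ)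
    (h : ∀ (x : Fin n → ℚ) (i : Fin n) (y : ℚ), x i < y → g x < g (update x i y)) :
    Monotone g := by
  have h' : ∀ (x : Fin n → ℚ) (i : Fin n) (y : ℚ), x i ≤ y → g x ≤ g (update x i y) := by
    intro x i y hy
    rcases hy.eq_or_lt with hy | hy
    · rw [← hy, update_eq_self]
    · exact (h x i y hy).le
  intro x y hxy
  have key : ∀ k : ℕ, k ≤ n → g x ≤ g (fun j => if j.val < k then y j else x j) := by
    intro k
    induction k with
    | zero => intro _; simp
    | succ k ih =>
      intro hk
      refine (ih (by omega)).trans ?_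
      have h1 := h' (fun j => if j.val < k then y j else x j) ⟨k, by omega⟩ (y ⟨k, by omega⟩)
        (by simpa using hxy ⟨k, by omega⟩)
      refine h1.trans (le_of_eq ?_)
      congr 1
      funext j
      by_cases hj : j = ⟨k, by omega⟩
      · subst hj; simp
      · have : j.val ≠ k := fun h => hj (Fin.ext h)
        rw [update_of_ne hj]
        by_cases h2 : j.val < k
        · simp [h2, Nat.lt_succ_of_lt h2]
        · have : ¬ j.val < k + 1 := by omega
          simp [h2, this]
  have := key n le_rfl
  simpa using this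

end Pool.Agent.Q327.TT
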