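import Pool.Agent.Q327.TotTerm

set_option autoImplicit false

namespace Pool.Agent.Q327.TT

open Term Function

/-- evaluation of ground terms in an algebra on the rational numbers -/
def eval {F : Type} {ar : F → ℕ} (op : (f : F) → (Fin (ar f) → ℚ) → ℚ) : Term ar Empty → ℚ
  | .var x => x.elim
  | .app f ts => op f (fun i => eval op (ts i))

/-- evaluation of terms with variables -/
def evalV {F : Type} {ar : F → ℕ} {V : Type} (op : (f : F) → (Fin (ar f) → ℚ) → ℚ) (ρ : V → ℚ) :
    Term ar V → ℚ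
  | .var x => ρ x
  | .app f ts => op f (fun i => evalV op ρ (ts i))

lemma eval_subst {F : Type} {ar : F → ℕ} {V : Type} (op : (f : F) → (Fin (ar f) → ℚ) → ℚ)
    (σ : V → Term ar Empty) (t : Term ar V) :
    eval op (t.subst σ) = evalV op (fun x => eval op (σ x)) t := by
  induction t with
  | var x => rfl
  | app f ts ih =>
    simp only [Term.subst, eval, evalV]
    congr 1
    funext i
    exact ih i

/-! ### Well-foundedness -/

section WF

variable {F : Type} {ar : F → ℕ} (op : (f : F) → (Fin (ar f) → ℚ) → ℚ)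

/-- the values of the ground terms -/
def S : Set ℚ := Set.range (eval op)

/-- the well-founded initial part of the set of values -/
def A : Set ℚ := {x | x ∈ S op ∧ (S op ∩ Set.Iic x).IsWF}

lemma A_isWF : (A op).IsWF := by
  rw [Set.isWF_iff_no_descending_seq]
  intro f hf hfA
  have h0 := (hfA 0).2
  rw [Set.isWF_iff_no_descending_seq] at h0
  exact h0 f hf (fun n => ⟨(hfA n).1, hf.antitone (Nat.zero_le n)⟩)

/-- the other values -/
def B : Set ℚ := S op \ A op

lemma exists_lt_B {x : ℚ} (hx : x ∈ B op) : ∃ y ∈ B op, y < x := by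
  by_contra hcon
  push Not at hcon
  apply hx.2
  refine ⟨hx.1, ?_⟩
  have h1 : S op ∩ Set.Iic x ⊆ A op ∪ {x} := by
    rintro y ⟨hyS, hyx⟩
    by_cases hyA : y ∈ A op
    · exact Or.inl hyA
    · right
      have h2 := hcon y ⟨hyS, hyA⟩
      exact le_antisymm hyx h2
  exact ((A_isWF op).union (Set.finite_singleton x).isWF).mono h1

/-- the values in `B` of terms all of whose arguments have values in `A` -/
def B' : Set ℚ := {x | x ∈ B op ∧ ∃ (f : F) (a : Fin (ar f) → ℚ), (∀ i, a i ∈ A op) ∧ x = op f a}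

lemma exists_B' (hlt : ∀ (f : F) (x : Fin (ar f) → ℚ) (i : Fin (ar f)), x i < op f x)
    (t : Term ar Empty) : eval op t ∈ B op → ∃ y ∈ B' op, y ≤ eval op t := by
  induction t with
  | var x => exact x.elim
  | app f ts ih =>
    intro h
    by_cases hA : ∀ i, eval op (ts i) ∈ A op
    · exact ⟨eval op (app f ts), ⟨h, f, fun i => eval op (ts i), hA, rfl⟩, le_rfl⟩
    · push Not at hA
      obtain ⟨i, hi⟩ := hA
      obtain ⟨y, hy, hy2⟩ := ih i ⟨⟨ts i, rfl⟩, hi⟩
      refine ⟨y, hy, hy2.trans ?_⟩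
      exact (hlt f (fun i => eval op (ts i)) i).le

lemma exists_lt_B' (hlt : ∀ (f : F) (x : Fin (ar f) → ℚ) (i : Fin (ar f)), x i < op f x)
    {x : ℚ} (hx : x ∈ B op) : ∃ y ∈ B' op, y < x := by
  obtain ⟨y, hy, hyx⟩ := exists_lt_B op hx
  obtain ⟨t, rfl⟩ := hy.1
  obtain ⟨z, hz, hz2⟩ := exists_B' op hlt t hy
  exact ⟨z, hz, hz2.trans_lt hyx⟩

lemma image_isWF (hmono : ∀ f : F, Monotone (op f)) (f : F) :
    ((op f) '' {a | ∀ i, a i ∈ A op}).IsWF := by
  have h1 : ({a : Fin (ar f) → ℚ | ∀ i, a i ∈ A op}).IsPWO := by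
    have h2 : (Set.pi Set.univ (fun _ : Fin (ar f) => A op)).IsPWO :=
      Set.IsPWO.pi (fun _ => (A_isWF op).isPWO)
    convert h2 using 1
    ext a
    simp
  exact (h1.image_of_monotone (hmono f)).isWF

lemma biUnion_isWF (hmono : ∀ f : F, Monotone (op f)) (s : Finset F) :
    (⋃ f ∈ s, (op f) '' {a | ∀ i, a i ∈ A op}).IsWF := by
  classical
  induction s using Finset.induction_on with
  | empty => simp
  | insert f s _ ih =>
    rw [Finset.set_biUnion_insert]
    exact (image_isWF op hmono f).union ih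

/-- The set of values is well-founded if below some element of every nonempty set `B'` only finitely
many root symbols occur. -/
lemma S_isWF (hlt : ∀ (f : F) (x : Fin (ar f) → ℚ) (i : Fin (ar f)), x i < op f x)
    (hmono : ∀ f : F, Monotone (op f))
    (hroot : (B' op).Nonempty → ∃ x₀ ∈ B' op, ∃ s : Finset F, ∀ x ∈ B' op, x ≤ x₀ →
      ∀ (f : F) (a : Fin (ar f) → ℚ), x = op f a → f ∈ s) :
    (S op).IsWF := by
  by_cases hB : (B op).Nonempty
  · exfalso
    obtain ⟨b, hb⟩ := hB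
    obtain ⟨b', hb', -⟩ := exists_lt_B' op hlt hb
    obtain ⟨x₀, hx₀, s, hs⟩ := hroot ⟨b', hb'⟩
    set C : Set ℚ := {x | x ∈ B' op ∧ x ≤ x₀} with hC
    have hCne : C.Nonempty := ⟨x₀, hx₀, le_rfl⟩
    have hCno : ∀ x ∈ C, ∃ y ∈ C, y < x := by
      rintro x ⟨hx, hx2⟩
      obtain ⟨y, hy, hyx⟩ := exists_lt_B' op hlt hx.1
      exact ⟨y, ⟨hy, hyx.le.trans hx2⟩, hyx⟩
    have hsub : C ⊆ ⋃ f ∈ s, (op f) '' {a | ∀ i, a i ∈ A op} := by
      rintro x ⟨hx, hx2⟩
      obtain ⟨f, a, ha, rfl⟩ := hx.2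
      rw [Set.mem_iUnion₂]
      exact ⟨f, hs _ hx hx2 f a rfl, a, ha, rfl⟩
    have hwf : (⋃ f ∈ s, (op f) '' {a | ∀ i, a i ∈ A op}).IsWF := biUnion_isWF op hmono s
    have hCwf := hwf.mono hsub
    obtain ⟨y, hy, hy2⟩ := hCno (hCwf.min hCne) (hCwf.min_mem hCne)
    exact hCwf.not_lt_min hCne hy hy2
  · rw [Set.not_nonempty_iff_eq_empty] at hB
    have : S op = A op := by
      apply Set.Subset.antisymm
      · intro x hx
        by_contra hcon
        have : x ∈ B op := ⟨hx, hcon⟩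
        rw [hB] at this
        exact this
      · exact fun x hx => hx.1
    rw [this]
    exact A_isWF op

end WF

end Pool.Agent.Q327.TT
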