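import Pool.Agent.Q327.TotTerm2

set_option autoImplicit false

namespace Pool.Agent.Q327.TT

open Term Function

/-! ### Codes of ground terms -/

/-- code of a tuple of numbers -/
def codeVec : (n : ℕ) → (Fin n → ℕ) → ℕ
  | 0, _ => 0
  | n + 1, v => Nat.pair (v 0) (codeVec n (fun i => v i.succ))

lemma codeVec_inj : ∀ (n : ℕ) (v w : Fin n → ℕ), codeVec n v = codeVec n w → v = w := by
  intro n
  induction n with
  | zero => intro v w _; funext i; exact i.elim0
  | succ n ih =>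
    intro v w h
    simp only [codeVec, Nat.pair_eq_pair] at h
    have h2 := ih _ _ h.2
    funext i
    refine Fin.cases h.1 (fun j => ?_) i
    exact congrFun h2 j

lemma codeVec_lt : ∀ (n : ℕ) (v : Fin n → ℕ) (i : Fin n) (x : ℕ), v i < x →
    codeVec n v < codeVec n (update v i x) := by
  intro n
  induction n with
  | zero => intro v i; exact i.elim0
  | succ n ih =>
    intro v i x h
    simp only [codeVec]
    refine Fin.cases (fun h => ?_) (fun j h => ?_) i h
    · have h1 : (fun i : Fin n => update v 0 x i.succ) = fun i : Fin n => v i.succ := by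
        funext j
        simp
      rw [h1, update_self]
      exact Nat.pair_lt_pair_left _ h
    · have h1 : (fun i : Fin n => update v j.succ x i.succ) =
          update (fun i : Fin n => v i.succ) j x := by
        funext k
        by_cases hk : k = j
        · subst hk; simp
        · have : k.succ ≠ j.succ := fun h => hk (Fin.succ_injective _ h)
          simp [hk, this]
      rw [h1, update_of_ne (Fin.succ_ne_zero j).symm]
      exact Nat.pair_lt_pair_right _ (ih _ j x h)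

/-- code of a ground term -/
def code {F : Type} {ar : F → ℕ} (e : F → ℕ) : Term ar Empty → ℕ
  | .var x => x.elim
  | .app f ts => Nat.pair (e f) (codeVec (ar f) (fun i => code e (ts i)))

lemma code_inj {F : Type} {ar : F → ℕ} {e : F → ℕ} (he : Injective e) :
    ∀ s t : Term ar Empty, code e s = code e t → s = t := by
  intro s
  induction s with
  | var x => exact x.elim
  | app f ts ih =>
    intro t h
    cases t with
    | var x => exact x.elim
    | app g us =>
      simp only [code, Nat.pair_eq_pair] at h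
      have hfg := he h.1
      subst hfg
      congr 1
      funext i
      exact ih i _ (congrFun (codeVec_inj _ _ _ h.2) i)

lemma code_lt {F : Type} {ar : F → ℕ} (e : F → ℕ) (f : F) (ts : Fin (ar f) → Term ar Empty)
    (i : Fin (ar f)) (s : Term ar Empty) (h : code e (ts i) < code e s) :
    code e (app f ts) < code e (app f (update ts i s)) := by
  simp only [code]
  have h1 : (fun j => code e (update ts i s j)) = update (fun j => code e (ts j)) i (code e s) := by
    funext j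
    by_cases hj : j = i
    · subst hj; simp
    · simp [hj]
  rw [h1]
  exact Nat.pair_lt_pair_right _ (codeVec_lt _ _ i _ h)

instance {F : Type} {ar : F → ℕ} [Countable F] : Countable (Term ar Empty) := by
  obtain ⟨e, he⟩ := Countable.exists_injective_nat F
  exact ⟨code e, fun s t => code_inj he s t⟩

/-! ### The isomorphism with the rational numbers -/

instance {α : Type} [LinearOrder α] : DenselyOrdered (α ×ₗ ℚ) := by
  constructor
  intro a b h
  rcases (Prod.Lex.lt_iff).mp h with h1 | ⟨h1, h2⟩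
  · refine ⟨toLex ((ofLex a).1, (ofLex a).2 + 1), ?_, ?_⟩
    · rw [Prod.Lex.lt_iff]; right; simp
    · rw [Prod.Lex.lt_iff]; left; simpa using h1
  · obtain ⟨q, hq1, hq2⟩ := exists_between h2
    refine ⟨toLex ((ofLex a).1, q), ?_, ?_⟩
    · rw [Prod.Lex.lt_iff]; right; exact ⟨rfl, hq1⟩
    · rw [Prod.Lex.lt_iff]; right; exact ⟨h1, hq2⟩

theorem exists_iso (α : Type) [LinearOrder α] [Countable α] [Nonempty α] :
    Nonempty ((α ×ₗ ℚ) ≃o ℚ) := by
  haveI : Countable (α ×ₗ ℚ) := inferInstanceAs (Countable (α × ℚ))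
  haveI : Nonempty (α ×ₗ ℚ) := inferInstanceAs (Nonempty (α × ℚ))
  exact Order.iso_of_countable_dense (α ×ₗ ℚ) ℚ

/-! ### The combination -/

section Comb

variable {F₁ F₂ : Type} {ar₁ : F₁ → ℕ} {ar₂ : F₂ → ℕ}
  [LinearOrder (Term ar₁ Empty)] [WellFoundedLT (Term ar₁ Empty)]
  [LinearOrder (Term ar₂ Empty)] [WellFoundedLT (Term ar₂ Empty)]
  (φ₁ : (Term ar₁ Empty ×ₗ ℚ) ≃o ℚ) (φ₂ : (Term ar₂ Empty ×ₗ ℚ) ≃o ℚ)

/-- the action of the function symbols of both signatures on the rational numbers -/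
def opS : (h : F₁ ⊕ F₂) → (Fin (Sum.elim ar₁ ar₂ h) → ℚ) → ℚ
  | .inl f, x => opQ φ₁ f x
  | .inr g, x => opQ φ₂ g x

variable
  (hm₁ : ∀ (f : F₁) (ts : Fin (ar₁ f) → Term ar₁ Empty) (i : Fin (ar₁ f)) (s : Term ar₁ Empty),
      ts i < s → app f ts < app f (update ts i s))
  (hm₂ : ∀ (f : F₂) (ts : Fin (ar₂ f) → Term ar₂ Empty) (i : Fin (ar₂ f)) (s : Term ar₂ Empty),
      ts i < s → app f ts < app f (update ts i s))

include hm₁ hm₂

omit [WellFoundedLT (Term ar₁ Empty)] [WellFoundedLT (Term ar₂ Empty)] in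
lemma opS_strict (h : F₁ ⊕ F₂) (x : Fin (Sum.elim ar₁ ar₂ h) → ℚ)
    (i : Fin (Sum.elim ar₁ ar₂ h)) (y : ℚ) (hy : x i < y) :
    opS φ₁ φ₂ h x < opS φ₁ φ₂ h (update x i y) := by
  cases h with
  | inl f => exact opQ_strict φ₁ hm₁ f x i y hy
  | inr f => exact opQ_strict φ₂ hm₂ f x i y hy

lemma lt_opS (h : F₁ ⊕ F₂) (x : Fin (Sum.elim ar₁ ar₂ h) → ℚ)
    (i : Fin (Sum.elim ar₁ ar₂ h)) : x i < opS φ₁ φ₂ h x := by
  cases h with
  | inl f => exact lt_opQ φ₁ hm₁ f x i
  | inr f => exact lt_opQ φ₂ hm₂ f x i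

omit hm₁ hm₂ in
lemma root_control (hne : (B' (opS φ₁ φ₂)).Nonempty) :
    ∃ x₀ ∈ B' (opS φ₁ φ₂), ∃ s : Finset (F₁ ⊕ F₂), ∀ x ∈ B' (opS φ₁ φ₂), x ≤ x₀ →
      ∀ (f : F₁ ⊕ F₂) (a : Fin (Sum.elim ar₁ ar₂ f) → ℚ), x = opS φ₁ φ₂ f a → f ∈ s := by
  classical
  obtain ⟨x₁, hx₁, hmin₁⟩ := WellFounded.has_min
    (InvImage.wf (pr φ₁) (wellFounded_lt (α := Term ar₁ Empty))) _ hne
  obtain ⟨x₂, hx₂, hmin₂⟩ := WellFounded.has_min
    (InvImage.wf (pr φ₂) (wellFounded_lt (α := Term ar₂ Empty))) _ hne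
  have hx₀ : min x₁ x₂ ∈ B' (opS φ₁ φ₂) := by
    rcases min_choice x₁ x₂ with h | h <;> rw [h] <;> assumption
  obtain ⟨f₀, hf₀⟩ : ∃ f₀ : F₁, ∃ ts, pr φ₁ x₁ = app f₀ ts := by
    cases h : pr φ₁ x₁ with
    | var x => exact x.elim
    | app f ts => exact ⟨f, ts, rfl⟩
  obtain ⟨g₀, hg₀⟩ : ∃ g₀ : F₂, ∃ ts, pr φ₂ x₂ = app g₀ ts := by
    cases h : pr φ₂ x₂ with
    | var x => exact x.elim
    | app f ts => exact ⟨f, ts, rfl⟩
  refine ⟨min x₁ x₂, hx₀, {Sum.inl f₀, Sum.inr g₀}, fun x hx hle h a hxa => ?_⟩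
  cases h with
  | inl f =>
    have h1 : pr φ₁ x ≤ pr φ₁ x₁ := pr_mono φ₁ (hle.trans (min_le_left _ _))
    have h2 : ¬ pr φ₁ x < pr φ₁ x₁ := hmin₁ x hx
    have h3 : pr φ₁ x = pr φ₁ x₁ := le_antisymm h1 (not_lt.mp h2)
    have h4 : pr φ₁ x = app f (fun i => pr φ₁ (a i)) := by
      rw [hxa]
      exact pr_opQ φ₁ f a
    obtain ⟨ts, hts⟩ := hf₀
    rw [h3, hts] at h4
    have : f₀ = f := by injection h4
    rw [this]
    simp
  | inr f =>
    have h1 : pr φ₂ x ≤ pr φ₂ x₂ := pr_mono φ₂ (hle.trans (min_le_right _ _))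
    have h2 : ¬ pr φ₂ x < pr φ₂ x₂ := hmin₂ x hx
    have h3 : pr φ₂ x = pr φ₂ x₂ := le_antisymm h1 (not_lt.mp h2)
    have h4 : pr φ₂ x = app f (fun i => pr φ₂ (a i)) := by
      rw [hxa]
      exact pr_opQ φ₂ f a
    obtain ⟨ts, hts⟩ := hg₀
    rw [h3, hts] at h4
    have : g₀ = f := by injection h4
    rw [this]
    simp

theorem S_comb_isWF : (S (opS φ₁ φ₂)).IsWF := by
  apply S_isWF
  · exact lt_opS φ₁ φ₂ hm₁ hm₂
  · intro f
    exact monotone_of_strict _ (opS_strict φ₁ φ₂ hm₁ hm₂ f)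
  · exact root_control φ₁ φ₂

end Comb

end Pool.Agent.Q327.TT
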