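import Pool.Agent.Q327.TotTerm3

set_option autoImplicit false

namespace Pool.Agent.Q327.TT

open Term Function

/-- The rules of a system, with the function symbols renamed along `ι`. -/
def mapRules {F G : Type} {ar : F → ℕ} {ar' : G → ℕ} {V : Type} (ι : F → G)
    (h : ∀ f, ar' (ι f) = ar f) (R : Set (Term ar V × Term ar V)) :
    Set (Term ar' V × Term ar' V) :=
  (fun ρ => (ρ.1.map ι h, ρ.2.map ι h)) '' R

/-- The union of two systems over disjoint signatures, as a system over the disjoint union of the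
signatures. -/
def unionRules {F₁ F₂ : Type} {ar₁ : F₁ → ℕ} {ar₂ : F₂ → ℕ} {V : Type}
    (R₁ : Set (Term ar₁ V × Term ar₁ V)) (R₂ : Set (Term ar₂ V × Term ar₂ V)) :
    Set (Term (Sum.elim ar₁ ar₂) V × Term (Sum.elim ar₁ ar₂) V) :=
  mapRules (ar := ar₁) (ar' := Sum.elim ar₁ ar₂) Sum.inl (fun _ => rfl) R₁ ∪
    mapRules (ar := ar₂) (ar' := Sum.elim ar₁ ar₂) Sum.inr (fun _ => rfl) R₂

section Comb

variable {F₁ F₂ : Type} {ar₁ : F₁ → ℕ} {ar₂ : F₂ → ℕ} {V : Type}
  [LinearOrder (Term ar₁ Empty)] [LinearOrder (Term ar₂ Empty)]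
  (φ₁ : (Term ar₁ Empty ×ₗ ℚ) ≃o ℚ) (φ₂ : (Term ar₂ Empty ×ₗ ℚ) ≃o ℚ)

lemma pr_evalV_inl (ρ : V → ℚ) (t : Term ar₁ V) :
    pr φ₁ (evalV (opS φ₁ φ₂) ρ (t.map (ar := ar₁) (ar' := Sum.elim ar₁ ar₂) Sum.inl (fun _ => rfl))) =
      t.subst (fun x => pr φ₁ (ρ x)) := by
  induction t with
  | var x => rfl
  | app f ts ih =>
    simp only [Term.map, evalV, Term.subst]
    change pr φ₁ (opQ φ₁ f _) = _
    rw [pr_opQ]
    congr 1
    funext i
    exact ih i

lemma pr_evalV_inr (ρ : V → ℚ) (t : Term ar₂ V) :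
    pr φ₂ (evalV (opS φ₁ φ₂) ρ (t.map (ar := ar₂) (ar' := Sum.elim ar₁ ar₂) Sum.inr (fun _ => rfl))) =
      t.subst (fun x => pr φ₂ (ρ x)) := by
  induction t with
  | var x => rfl
  | app f ts ih =>
    simp only [Term.map, evalV, Term.subst]
    change pr φ₂ (opQ φ₂ f _) = _
    rw [pr_opQ]
    congr 1
    funext i
    exact ih i

end Comb

theorem hasOrder_union {F₁ F₂ : Type} [Countable F₁] [Countable F₂] {ar₁ : F₁ → ℕ}
    {ar₂ : F₂ → ℕ} {V : Type} [Nonempty (Term ar₁ Empty)] [Nonempty (Term ar₂ Empty)]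
    (R₁ : Set (Term ar₁ V × Term ar₁ V)) (R₂ : Set (Term ar₂ V × Term ar₂ V))
    (H₁ : HasOrder R₁) (H₂ : HasOrder R₂) : HasOrder (unionRules R₁ R₂) := by
  classical
  obtain ⟨lt₁, hwo₁, hm₁, hr₁⟩ := H₁
  obtain ⟨lt₂, hwo₂, hm₂, hr₂⟩ := H₂
  let _ : LinearOrder (Term ar₁ Empty) := linearOrderOfSTO lt₁
  let _ : LinearOrder (Term ar₂ Empty) := linearOrderOfSTO lt₂
  have : WellFoundedLT (Term ar₁ Empty) := ⟨hwo₁.toIsWellFounded.wf⟩
  have : WellFoundedLT (Term ar₂ Empty) := ⟨hwo₂.toIsWellFounded.wf⟩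
  obtain ⟨φ₁⟩ := exists_iso (Term ar₁ Empty)
  obtain ⟨φ₂⟩ := exists_iso (Term ar₂ Empty)
  have hwf : (S (opS φ₁ φ₂)).IsWF := S_comb_isWF φ₁ φ₂ hm₁ hm₂
  have : WellFoundedLT (S (opS φ₁ φ₂)) := ⟨hwf⟩
  obtain ⟨e, he⟩ := Countable.exists_injective_nat (F₁ ⊕ F₂)
  let g : Term (Sum.elim ar₁ ar₂) Empty → (S (opS φ₁ φ₂)) ×ₗ ℕ :=
    fun t => toLex (⟨eval (opS φ₁ φ₂) t, ⟨t, rfl⟩⟩, code e t)
  have hg : Injective g := by
    intro s t h
    have h1 : code e s = code e t := congrArg (fun z => (ofLex z).2) h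
    exact code_inj he s t h1
  have hglt : ∀ s t, g s < g t ↔ eval (opS φ₁ φ₂) s < eval (opS φ₁ φ₂) t ∨
      eval (opS φ₁ φ₂) s = eval (opS φ₁ φ₂) t ∧ code e s < code e t := by
    intro s t
    change toLex _ < toLex _ ↔ _
    rw [Prod.Lex.toLex_lt_toLex]
    simp only [Subtype.mk_lt_mk, Subtype.mk.injEq]
  refine ⟨fun s t => g s < g t, ?_, ?_, ?_⟩
  · exact (RelEmbedding.preimage ⟨g, hg⟩ (· < ·)).isWellOrder
  · intro f ts i s h
    change g _ < g _
    have h' : g (ts i) < g s := h
    rw [hglt] at h' ⊢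
    have hupd : (fun j => eval (opS φ₁ φ₂) (update ts i s j)) =
        update (fun j => eval (opS φ₁ φ₂) (ts j)) i (eval (opS φ₁ φ₂) s) := by
      funext j
      by_cases hj : j = i
      · subst hj; simp
      · simp [hj]
    rcases h' with h' | ⟨h', h''⟩
    · left
      simp only [eval]
      rw [hupd]
      exact opS_strict φ₁ φ₂ hm₁ hm₂ f _ i _ h'
    · right
      constructor
      · simp only [eval]
        rw [hupd, ← h']
        congr 1
        exact (update_eq_self i (fun j => eval (opS φ₁ φ₂) (ts j))).symm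
      · exact code_lt e f ts i s h''
  · intro ρ hρ σ
    change g _ < g _
    rw [hglt]
    left
    rw [eval_subst, eval_subst]
    rcases hρ with ⟨ρ', hρ', rfl⟩ | ⟨ρ', hρ', rfl⟩
    · apply lt_of_pr_lt φ₁
      simp only
      rw [pr_evalV_inl, pr_evalV_inl]
      exact hr₁ ρ' hρ' _
    · apply lt_of_pr_lt φ₂
      simp only
      rw [pr_evalV_inr, pr_evalV_inr]
      exact hr₂ ρ' hρ' _

/-! ### Fresh constants -/

/-- The signature with one fresh constant `none`. -/
def addConst {F : Type} (ar : F → ℕ) : Option F → ℕ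
  | none => 0
  | some f => ar f

/-- `R` is totally terminating: it is compatible with a monotonic well-ordering of the ground terms;
if the signature contains no constant, one fresh constant is added. -/
def TotallyTerminating {F : Type} {ar : F → ℕ} {V : Type} (R : Set (Term ar V × Term ar V)) : Prop :=
  ((∃ c, ar c = 0) → HasOrder R) ∧
  ((¬ ∃ c, ar c = 0) → HasOrder (mapRules (ar := ar) (ar' := addConst ar) some (fun _ => rfl) R))

lemma nonempty_of_const {F : Type} {ar : F → ℕ} (h : ∃ c, ar c = 0) : Nonempty (Term ar Empty) := by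
  obtain ⟨c, hc⟩ := h
  exact ⟨app c (fun i => (Fin.cast hc i).elim0)⟩

lemma map_inj {F G : Type} {ar : F → ℕ} {ar' : G → ℕ} {V : Type} (ι : F → G)
    (h : ∀ f, ar' (ι f) = ar f) (hι : Injective ι) :
    ∀ s t : Term ar V, s.map ι h = t.map ι h → s = t := by
  intro s
  induction s with
  | var x =>
    intro t ht
    cases t with
    | var y =>
      simp only [Term.map] at ht
      injection ht with h1
      rw [h1]
    | app f ts => simp [Term.map] at ht
  | app f ts ih =>
    intro t ht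
    cases t with
    | var y => simp [Term.map] at ht
    | app g us =>
      simp only [Term.map] at ht
      have hfg : f = g := by
        injection ht with h1
        exact hι h1
      subst hfg
      congr 1
      injection ht with _ h1
      funext i
      have h3 := congrFun h1 (Fin.cast (h f).symm i)
      exact ih i _ (by simpa using h3)

lemma map_subst {F G : Type} {ar : F → ℕ} {ar' : G → ℕ} {V W : Type} (ι : F → G)
    (h : ∀ f, ar' (ι f) = ar f) (σ : V → Term ar W) (t : Term ar V) :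
    (t.subst σ).map ι h = (t.map ι h).subst (fun x => (σ x).map ι h) := by
  induction t with
  | var x => rfl
  | app f ts ih =>
    simp only [Term.map, Term.subst]
    congr 1
    funext i
    exact ih _

/-- Restriction to a smaller signature. -/
theorem HasOrder.of_map {F G : Type} {ar : F → ℕ} {ar' : G → ℕ} {V : Type} (ι : F → G)
    (h : ∀ f, ar' (ι f) = ar f) (hι : Injective ι) {R : Set (Term ar V × Term ar V)}
    (H : HasOrder (mapRules (ar' := ar') ι h R)) : HasOrder R := by
  obtain ⟨lt, hwo, hm, hr⟩ := H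
  refine ⟨fun s t => lt (s.map ι h) (t.map ι h), ?_, ?_, ?_⟩
  · exact (RelEmbedding.preimage ⟨fun t => t.map ι h, fun s t => map_inj ι h hι s t⟩ lt).isWellOrder
  · intro f ts i s hs
    have hs' : lt ((ts i).map ι h) (s.map ι h) := hs
    change lt ((app f ts).map ι h) ((app f (update ts i s)).map ι h)
    have h1 := hm (ι f) (fun j => (ts (Fin.cast (h f) j)).map ι h) (Fin.cast (h f).symm i)
      (s.map ι h) (by simpa using hs')
    have h2 : (app f (update ts i s)).map ι h = app (ι f) (update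
        (fun j => (ts (Fin.cast (h f) j)).map ι h) (Fin.cast (h f).symm i) (s.map ι h)) := by
      simp only [Term.map]
      congr 1
      funext j
      by_cases hj : j = Fin.cast (h f).symm i
      · subst hj; simp
      · have : Fin.cast (h f) j ≠ i := by
          intro h3
          apply hj
          rw [← h3]
          simp
        simp [hj, this]
    rw [h2]
    exact h1
  · intro ρ hρ σ
    change lt ((ρ.2.subst σ).map ι h) ((ρ.1.subst σ).map ι h)
    rw [map_subst, map_subst]
    exact hr _ ⟨ρ, hρ, rfl⟩ _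

lemma map_map {F G H : Type} {ar : F → ℕ} {ar' : G → ℕ} {ar'' : H → ℕ} {V : Type} (ι : F → G)
    (κ : G → H) (h : ∀ f, ar' (ι f) = ar f) (h' : ∀ g, ar'' (κ g) = ar' g) (t : Term ar V) :
    (t.map ι h).map κ h' = t.map (fun f => κ (ι f)) (fun f => (h' (ι f)).trans (h f)) := by
  induction t with
  | var x => rfl
  | app f ts ih =>
    simp only [Term.map]
    congr 1
    funext i
    exact ih _

lemma mapRules_mapRules {F G H : Type} {ar : F → ℕ} {ar' : G → ℕ} {ar'' : H → ℕ} {V : Type}
    (ι : F → G) (κ : G → H) (h : ∀ f, ar' (ι f) = ar f) (h' : ∀ g, ar'' (κ g) = ar' g)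
    (R : Set (Term ar V × Term ar V)) :
    mapRules (ar' := ar'') κ h' (mapRules (ar' := ar') ι h R) =
      mapRules (ar' := ar'') (fun f => κ (ι f)) (fun f => (h' (ι f)).trans (h f)) R := by
  unfold mapRules
  rw [Set.image_image]
  congr 1
  funext ρ
  simp only [map_map]

lemma mapRules_union {F G : Type} {ar : F → ℕ} {ar' : G → ℕ} {V : Type} (ι : F → G)
    (h : ∀ f, ar' (ι f) = ar f) (R R' : Set (Term ar V × Term ar V)) :
    mapRules (ar' := ar') ι h (R ∪ R') = mapRules ι h R ∪ mapRules ι h R' := by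
  unfold mapRules
  rw [Set.image_union]

theorem main {F₁ F₂ : Type} [Countable F₁] [Countable F₂] {ar₁ : F₁ → ℕ} {ar₂ : F₂ → ℕ}
    {V : Type} (R₁ : Set (Term ar₁ V × Term ar₁ V)) (R₂ : Set (Term ar₂ V × Term ar₂ V))
    (H₁ : TotallyTerminating R₁) (H₂ : TotallyTerminating R₂) :
    TotallyTerminating (unionRules R₁ R₂) := by
  have hne1 : Nonempty (Term (addConst ar₁) Empty) := nonempty_of_const ⟨none, rfl⟩
  have hne2 : Nonempty (Term (addConst ar₂) Empty) := nonempty_of_const ⟨none, rfl⟩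
  by_cases c1 : ∃ c, ar₁ c = 0
  · haveI := nonempty_of_const c1
    have hc : ∃ c, Sum.elim ar₁ ar₂ c = 0 := ⟨Sum.inl c1.choose, c1.choose_spec⟩
    by_cases c2 : ∃ c, ar₂ c = 0
    · haveI := nonempty_of_const c2
      exact ⟨fun _ => hasOrder_union R₁ R₂ (H₁.1 c1) (H₂.1 c2), fun h => absurd hc h⟩
    · refine ⟨fun _ => ?_, fun h => absurd hc h⟩
      have H := hasOrder_union R₁ _ (H₁.1 c1) (H₂.2 c2)
      have hι : ∀ f : F₁ ⊕ F₂, Sum.elim ar₁ (addConst ar₂) (Sum.map id some f) =
          Sum.elim ar₁ ar₂ f := by rintro (f | f) <;> rfl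
      refine HasOrder.of_map (ar' := Sum.elim ar₁ (addConst ar₂)) (Sum.map id some) hι
        (Sum.map_injective.mpr ⟨injective_id, Option.some_injective _⟩) ?_
      convert H using 1
      unfold unionRules
      rw [mapRules_union, mapRules_mapRules, mapRules_mapRules, mapRules_mapRules]
      rfl
  · by_cases c2 : ∃ c, ar₂ c = 0
    · haveI := nonempty_of_const c2
      have hc : ∃ c, Sum.elim ar₁ ar₂ c = 0 := ⟨Sum.inr c2.choose, c2.choose_spec⟩
      refine ⟨fun _ => ?_, fun h => absurd hc h⟩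
      have H := hasOrder_union _ R₂ (H₁.2 c1) (H₂.1 c2)
      have hι : ∀ f : F₁ ⊕ F₂, Sum.elim (addConst ar₁) ar₂ (Sum.map some id f) =
          Sum.elim ar₁ ar₂ f := by rintro (f | f) <;> rfl
      refine HasOrder.of_map (ar' := Sum.elim (addConst ar₁) ar₂) (Sum.map some id) hι
        (Sum.map_injective.mpr ⟨Option.some_injective _, injective_id⟩) ?_
      convert H using 1
      unfold unionRules
      rw [mapRules_union, mapRules_mapRules, mapRules_mapRules, mapRules_mapRules]
      rfl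
    · have hc : ¬ ∃ c, Sum.elim ar₁ ar₂ c = 0 := by
        rintro ⟨c | c, hc⟩
        · exact c1 ⟨c, hc⟩
        · exact c2 ⟨c, hc⟩
      refine ⟨fun h => absurd h hc, fun _ => ?_⟩
      have H := hasOrder_union _ _ (H₁.2 c1) (H₂.2 c2)
      let ι : Option (F₁ ⊕ F₂) → Option F₁ ⊕ Option F₂
        | none => Sum.inl none
        | some (Sum.inl f) => Sum.inl (some f)
        | some (Sum.inr f) => Sum.inr (some f)
      have hι : ∀ f : Option (F₁ ⊕ F₂), Sum.elim (addConst ar₁) (addConst ar₂) (ι f) =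
          addConst (Sum.elim ar₁ ar₂) f := by rintro (_ | f | f) <;> rfl
      have hinj : Injective ι := by
        rintro (_ | f | f) (_ | g | g) h <;> simp [ι] at h ⊢ <;> exact h
      refine HasOrder.of_map (ar' := Sum.elim (addConst ar₁) (addConst ar₂)) ι hι hinj ?_
      convert H using 1
      unfold unionRules
      simp only [mapRules_union, mapRules_mapRules]
      rfl

end Pool.Agent.Q327.TT
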